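import Pool.Agent.R750.HexDefs

namespace R750.Hex

open Real

/-- half-angle form -/
theorem angle_eq {x y z : ℝ} (hx : 0 < x) (hy : 0 < y) (hz : 0 < z) :
    angle x y z = 2 * arctan (√(y * z / (x * (x + y + z)))) := by
  set T : ℝ := y * z / (x * (x + y + z)) with hT
  have hTpos : 0 < T := by positivity
  have hs : √T ^ 2 = T := Real.sq_sqrt hTpos.le
  have hcos : cos (2 * arctan (√T)) =
      ((x + y) ^ 2 + (x + z) ^ 2 - (y + z) ^ 2) / (2 * (x + y) * (x + z)) := by
    rw [Real.cos_two_mul, Real.cos_sq_arctan, hs, hT]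
    have h1 : 1 + y * z / (x * (x + y + z)) ≠ 0 := by positivity
    field_simp
    ring
  rw [angle, ← hcos, Real.arccos_cos]
  · have : 0 ≤ arctan (√T) := Real.arctan_nonneg.mpr (Real.sqrt_nonneg _)
    linarith
  · have := Real.arctan_lt_pi_div_two (√T)
    linarith

/-- the inradius of the triangle of three mutually tangent circles -/
noncomputable def inr (x y z : ℝ) : ℝ := √(x * y * z / (x + y + z))

theorem inr_pos {x y z : ℝ} (hx : 0 < x) (hy : 0 < y) (hz : 0 < z) : 0 < inr x y z :=
  Real.sqrt_pos.mpr (by positivity)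

theorem inr_le {x y z : ℝ} (hx : 0 < x) (hy : 0 < y) (hz : 0 < z) :
    inr x y z ≤ (x + y) / 2 := by
  rw [inr]
  apply Real.sqrt_le_iff.mpr
  refine ⟨by positivity, ?_⟩
  rw [div_le_iff₀ (by positivity)]
  have h1 : x * y ≤ ((x + y) / 2) ^ 2 := by nlinarith [sq_nonneg (x - y)]
  have h2 : x * y * z ≤ ((x + y) / 2) ^ 2 * z := by
    exact mul_le_mul_of_nonneg_right h1 hz.le
  have h3 : 0 ≤ ((x + y) / 2) ^ 2 * (x + y) := by positivity
  nlinarith

/-- logarithmic derivative of the angle -/
theorem hasDerivAt_angle {X Y Z : ℝ → ℝ} {p q r s : ℝ}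
    (hX : HasDerivAt X (X s * p) s) (hY : HasDerivAt Y (Y s * q) s)
    (hZ : HasDerivAt Z (Z s * r) s)
    (pX : ∀ t, 0 < X t) (pY : ∀ t, 0 < Y t) (pZ : ∀ t, 0 < Z t) :
    HasDerivAt (fun t => angle (X t) (Y t) (Z t))
      (inr (X s) (Y s) (Z s) / (X s + Y s) * (q - p)
        + inr (X s) (Y s) (Z s) / (X s + Z s) * (r - p)) s := by
  have heq : (fun t => angle (X t) (Y t) (Z t)) =
      fun t => 2 * arctan (√(Y t * Z t / (X t * (X t + Y t + Z t)))) := by
    funext t; exact angle_eq (pX t) (pY t) (pZ t)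
  rw [heq]
  have hx := pX s
  have hy := pY s
  have hz := pZ s
  set x := X s with hxd
  set y := Y s with hyd
  set z := Z s with hzd
  have hden : x * (x + y + z) ≠ 0 := by positivity
  have hD : HasDerivAt (fun t => Y t * Z t / (X t * (X t + Y t + Z t)))
      (((y * q * z + y * (z * r)) * (x * (x + y + z))
        - y * z * (x * p * (x + y + z) + x * (x * p + y * q + z * r)))
        / (x * (x + y + z)) ^ 2) s := by
    have h1 := hY.mul hZ
    have h2 := hX.mul ((hX.add hY).add hZ)
    have h3 := h1.div h2 hden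
    exact h3
  have hTpos : 0 < y * z / (x * (x + y + z)) := by positivity
  have hS := hD.sqrt (by simpa using hTpos.ne')
  have hA := hS.arctan
  have hF := hA.const_mul 2
  refine hF.congr_deriv ?_
  set T : ℝ := y * z / (x * (x + y + z)) with hT
  have hsq : √T ^ 2 = T := Real.sq_sqrt hTpos.le
  have hsT : 0 < √T := Real.sqrt_pos.mpr hTpos
  have hinr : inr x y z = √T * x := by
    rw [inr]
    have : x * y * z / (x + y + z) = T * x ^ 2 := by
      rw [hT]; field_simp
    rw [this, Real.sqrt_mul hTpos.le, Real.sqrt_sq hx.le]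
  rw [hinr]
  rw [hsq]
  have hTmul : T * (x * (x + y + z)) = y * z := by
    rw [hT]; field_simp
  have h1T : 1 + T = (x + y) * (x + z) / (x * (x + y + z)) := by
    rw [hT]; field_simp; ring
  rw [h1T]
  have e : √T * √T = T := Real.mul_self_sqrt hTpos.le
  rw [eq_comm]
  field_simp
  rw [hsq, hT]
  field_simp
  ring

end R750.Hex
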