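import Pool.Agent.R750.HexDefs

namespace R750.Hex

open Finset Filter

/-- sup norm on `ℤ × ℤ`, as a natural number -/
def nrm (v : ℤ × ℤ) : ℕ := max v.1.natAbs v.2.natAbs

theorem nrm_zero : nrm 0 = 0 := by simp [nrm]

theorem nrm_add_dir (v : ℤ × ℤ) (i : Fin 6) :
    nrm (v + dir i) ≤ nrm v + 1 ∧ nrm v ≤ nrm (v + dir i) + 1 := by
  obtain ⟨a, b⟩ := v
  fin_cases i <;> simp only [nrm, dir] <;> simp <;> omega

/-- the box of radius `N` -/
noncomputable def box (N : ℕ) : Finset (ℤ × ℤ) := Icc (-(N : ℤ)) N ×ˢ Icc (-(N : ℤ)) N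

theorem mem_box {N : ℕ} {v : ℤ × ℤ} : v ∈ box N ↔ nrm v ≤ N := by
  simp only [box, mem_product, mem_Icc, nrm]
  omega

theorem card_sphere (N j : ℕ) : #{v ∈ box N | nrm v = j} ≤ 8 * (j + 1) := by
  have hsub : {v ∈ box N | nrm v = j} ⊆
      (Icc (-(j : ℤ)) j ×ˢ ({(j : ℤ), -(j : ℤ)} : Finset ℤ)) ∪
        (({(j : ℤ), -(j : ℤ)} : Finset ℤ) ×ˢ Icc (-(j : ℤ)) j) := by
    intro v hv
    simp only [mem_filter, nrm] at hv
    simp only [mem_union, mem_product, mem_Icc, mem_insert, mem_singleton]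
    omega
  have hI : #(Icc (-(j : ℤ)) j) = 2 * j + 1 := by
    rw [Int.card_Icc]; omega
  have hP : #({(j : ℤ), -(j : ℤ)} : Finset ℤ) ≤ 2 := Finset.card_le_two
  calc #{v ∈ box N | nrm v = j} ≤ _ := card_le_card hsub
    _ ≤ _ := card_union_le _ _
    _ ≤ (2 * j + 1) * 2 + 2 * (2 * j + 1) := by
        rw [card_product, card_product, hI]
        exact Nat.add_le_add (Nat.mul_le_mul_left _ hP) (Nat.mul_le_mul_right _ hP)
    _ ≤ 8 * (j + 1) := by omega

/-- harmonic numbers -/
noncomputable def H (n : ℕ) : ℝ := ∑ i ∈ range n, 1 / ((i : ℝ) + 1)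

theorem H_succ (n : ℕ) : H (n + 1) = H n + 1 / ((n : ℝ) + 1) := by
  rw [H, sum_range_succ, H]

theorem H_nonneg (n : ℕ) : 0 ≤ H n := sum_nonneg fun i _ => by positivity

theorem H_mono {m n : ℕ} (h : m ≤ n) : H m ≤ H n := by
  apply sum_le_sum_of_subset_of_nonneg
  · exact range_subset_range.mpr h
  · intro i _ _; positivity

theorem tendsto_H : Tendsto H atTop atTop := by
  exact Real.tendsto_sum_range_one_div_nat_succ_atTop

/-- the logarithmic cutoff profile -/
noncomputable def prof (N r : ℕ) : ℝ := max 0 (1 - H r / H N)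

theorem prof_diff {N r : ℕ} (hN : 0 < H N) :
    |prof N (r + 1) - prof N r| ≤ 1 / (((r : ℝ) + 1) * H N) := by
  have h1 : |prof N (r + 1) - prof N r| ≤ |(1 - H (r + 1) / H N) - (1 - H r / H N)| := by
    unfold prof
    rw [max_comm 0, max_comm 0]
    exact abs_max_sub_max_le_abs _ _ _
  refine h1.trans (le_of_eq ?_)
  rw [H_succ]
  have h2 : (1 - (H r + 1 / ((r : ℝ) + 1)) / H N) - (1 - H r / H N)
      = -(1 / (((r : ℝ) + 1) * H N)) := by
    field_simp; ring
  rw [h2, abs_neg, abs_of_nonneg (by positivity)]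

theorem prof_diff' {N r s : ℕ} (hN : 0 < H N) (h1 : s ≤ r + 1) (h2 : r ≤ s + 1) :
    |prof N s - prof N r| ≤ 2 / (((r : ℝ) + 1) * H N) := by
  have hr : (0 : ℝ) < (r : ℝ) + 1 := by positivity
  rcases Nat.lt_trichotomy s r with h | h | h
  · obtain rfl : r = s + 1 := by omega
    rw [abs_sub_comm]
    refine (prof_diff hN).trans ?_
    have hs : (0 : ℝ) < (s : ℝ) + 1 := by positivity
    rw [div_le_div_iff₀ (by positivity) (by positivity)]
    push_cast
    nlinarith
  · subst h; simp; positivity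
  · obtain rfl : s = r + 1 := by omega
    refine (prof_diff hN).trans ?_
    apply div_le_div_of_nonneg_right (by norm_num) (by positivity)

theorem prof_zero_of_le {N r : ℕ} (hN : 0 < H N) (h : N ≤ r) : prof N r = 0 := by
  have := H_mono h
  have h2 : 1 ≤ H r / H N := by rwa [one_le_div hN]
  exact max_eq_left (by linarith)

theorem exists_cutoff {ε : ℝ} (hε : 0 < ε) :
    ∃ φ : ℤ × ℤ → ℝ, φ.support.Finite ∧ φ 0 = 1 ∧
      ∑' v, ∑ i, (φ (v + dir i) - φ v) ^ 2 ≤ ε := by
  -- choose `N` with `H N` large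
  obtain ⟨N, hN⟩ := (tendsto_H.eventually_ge_atTop (max 1 (384 / ε))).exists
  have hH1 : 1 ≤ H N := (le_max_left _ _).trans hN
  have hH2 : 384 / ε ≤ H N := (le_max_right _ _).trans hN
  have hH0 : 0 < H N := by linarith
  refine ⟨fun v => prof N (nrm v), ?_, ?_, ?_⟩
  · apply (box N).finite_toSet.subset
    intro v hv
    rw [mem_coe, mem_box]
    by_contra h
    exact hv (prof_zero_of_le hH0 (by omega))
  · simp [nrm_zero, prof, H]
  · have hzero : ∀ v ∉ box N, ∑ i, (prof N (nrm (v + dir i)) - prof N (nrm v)) ^ 2 = 0 := by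
      intro v hv
      rw [mem_box, not_le] at hv
      apply sum_eq_zero
      intro i _
      have := (nrm_add_dir v i).2
      rw [prof_zero_of_le hH0 (by omega), prof_zero_of_le hH0 (by omega)]
      simp
    rw [tsum_eq_sum hzero]
    have hterm : ∀ v ∈ box N, ∑ i, (prof N (nrm (v + dir i)) - prof N (nrm v)) ^ 2
        ≤ 24 / (((nrm v : ℝ) + 1) ^ 2 * H N ^ 2) := by
      intro v _
      calc ∑ i, (prof N (nrm (v + dir i)) - prof N (nrm v)) ^ 2
          ≤ ∑ _i : Fin 6, (2 / (((nrm v : ℝ) + 1) * H N)) ^ 2 := by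
            apply sum_le_sum
            intro i _
            rw [← sq_abs]
            exact pow_le_pow_left₀ (abs_nonneg _)
              (prof_diff' hH0 (nrm_add_dir v i).1 (nrm_add_dir v i).2) 2
        _ = 24 / (((nrm v : ℝ) + 1) ^ 2 * H N ^ 2) := by
            simp only [sum_const, card_univ, Fintype.card_fin, nsmul_eq_mul]
            have : ((nrm v : ℝ) + 1) ≠ 0 := by positivity
            have h' : H N ≠ 0 := hH0.ne'
            field_simp
            norm_num
    calc ∑ v ∈ box N, ∑ i, (prof N (nrm (v + dir i)) - prof N (nrm v)) ^ 2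
        ≤ ∑ v ∈ box N, 24 / (((nrm v : ℝ) + 1) ^ 2 * H N ^ 2) := sum_le_sum hterm
      _ = ∑ j ∈ range (N + 1), ∑ v ∈ box N with nrm v = j,
            24 / (((nrm v : ℝ) + 1) ^ 2 * H N ^ 2) := by
          rw [sum_fiberwise_of_maps_to]
          intro v hv
          rw [mem_box] at hv
          simp; omega
      _ ≤ ∑ j ∈ range (N + 1), (192 / H N ^ 2) * (1 / ((j : ℝ) + 1)) := by
          apply sum_le_sum
          intro j _
          have h1 : ∑ v ∈ box N with nrm v = j, 24 / (((nrm v : ℝ) + 1) ^ 2 * H N ^ 2)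
              = ∑ v ∈ box N with nrm v = j, 24 / (((j : ℝ) + 1) ^ 2 * H N ^ 2) := by
            apply sum_congr rfl
            intro v hv
            rw [(mem_filter.mp hv).2]
          rw [h1, sum_const, nsmul_eq_mul]
          have h2 : (#{v ∈ box N | nrm v = j} : ℝ) ≤ 8 * ((j : ℝ) + 1) := by
            exact_mod_cast card_sphere N j
          calc (#{v ∈ box N | nrm v = j} : ℝ) * (24 / (((j : ℝ) + 1) ^ 2 * H N ^ 2))
              ≤ 8 * ((j : ℝ) + 1) * (24 / (((j : ℝ) + 1) ^ 2 * H N ^ 2)) :=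
                mul_le_mul_of_nonneg_right h2 (by positivity)
            _ = (192 / H N ^ 2) * (1 / ((j : ℝ) + 1)) := by
                field_simp
                ring
      _ = (192 / H N ^ 2) * H (N + 1) := by
          rw [← mul_sum]; rfl
      _ ≤ (192 / H N ^ 2) * (2 * H N) := by
          apply mul_le_mul_of_nonneg_left _ (by positivity)
          rw [H_succ]
          have : 1 / ((N : ℝ) + 1) ≤ 1 := by
            rw [div_le_one (by positivity)]
            have : (0 : ℝ) ≤ N := by positivity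
            linarith
          linarith
      _ = 384 / H N := by field_simp; norm_num
      _ ≤ ε := by
          rw [div_le_iff₀ hε] at hH2
          rw [div_le_iff₀ hH0]
          linarith

end R750.Hex
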