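import Mathlib

/-!
# Circle packings for the hexagonal complex: definitions

Vertices of the hexagonal complex are the pairs `(n, m) : ℤ × ℤ`, standing for the
lattice points `n + m ω`, `ω = exp (i π / 3)`.
-/

namespace R750.Hex

/-- The six neighbour offsets `1, ω, ω², -1, -ω, -ω²` in coordinates `(n, m) ↔ n + m ω`
(`ω² = ω - 1`), in counter-clockwise cyclic order. -/
def dir : Fin 6 → ℤ × ℤ := ![(1, 0), (0, 1), (-1, 1), (-1, 0), (0, -1), (1, -1)]

/-- The lattice point of the vertex `v = (n, m)`, namely `n + m ω` with `ω = exp (i π / 3)`. -/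
noncomputable def latticePoint (v : ℤ × ℤ) : ℂ :=
  (v.1 : ℂ) + (v.2 : ℂ) * Complex.exp (Complex.I * (Real.pi / 3 : ℝ))

/-- The angle at the vertex of radius `x` of the Euclidean triangle with sides
`x + y`, `x + z`, `y + z`, that is the angle opposite the side `y + z`. -/
noncomputable def angle (x y z : ℝ) : ℝ :=
  Real.arccos (((x + y) ^ 2 + (x + z) ^ 2 - (y + z) ^ 2) / (2 * (x + y) * (x + z)))

/-- The angle sum `θ_R(v)` of a label at a vertex: the sum of the six angles at `v` of the faces
`⟨v, v + dir i, v + dir (i+1)⟩`. -/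
noncomputable def angleSum (R : ℤ × ℤ → ℝ) (v : ℤ × ℤ) : ℝ :=
  ∑ i : Fin 6, angle (R v) (R (v + dir i)) (R (v + dir (i + 1)))

/-- A packing label: positive, with all angle sums equal to `2π`. -/
structure IsPackingLabel (R : ℤ × ℤ → ℝ) : Prop where
  pos : ∀ v, 0 < R v
  sum : ∀ v, angleSum R v = 2 * Real.pi

/-- `z` is a circle packing for the hexagonal complex with label `R`: `R` is a packing label, the
circle of the vertex `v` has centre `z v` and radius `R v`, circles of adjacent vertices are
externally tangent, and every face is a positively oriented triple. -/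
structure IsCirclePacking (R : ℤ × ℤ → ℝ) (z : ℤ × ℤ → ℂ) : Prop where
  label : IsPackingLabel R
  tangent : ∀ v i, dist (z v) (z (v + dir i)) = R v + R (v + dir i)
  oriented : ∀ v i,
    0 < ((starRingEnd ℂ) (z (v + dir i) - z v) * (z (v + dir (i + 1)) - z v)).im

/-- The seven vertices of the flower of `v`: `v` and its six neighbours. -/
def flower (v : ℤ × ℤ) : Set (ℤ × ℤ) := insert v (Set.range fun i => v + dir i)

/-- Local univalence: for each vertex `v` the seven discs of the flower of `v` have pairwise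
disjoint interiors. -/
def LocallyUnivalent (R : ℤ × ℤ → ℝ) (z : ℤ × ℤ → ℂ) : Prop :=
  ∀ v, (flower v).PairwiseDisjoint fun u => Metric.ball (z u) (R u)

/-- The label `R` is of the form `c aⁿ bᵐ`: the regular hexagonal packing (`a = b = 1`) or a
Doyle spiral, up to similarity. -/
def IsDoyleLabel (R : ℤ × ℤ → ℝ) : Prop :=
  ∃ a b c : ℝ, 0 < a ∧ 0 < b ∧ 0 < c ∧ ∀ n m : ℤ, R (n, m) = c * a ^ n * b ^ m

/-- sanity check: adjacency by offsets is adjacency at distance one of the lattice points -/
theorem latticePoint_dist (v w : ℤ × ℤ) :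
    dist (latticePoint v) (latticePoint w) = 1 ↔ ∃ i, w = v + dir i := by
  have hexp : Complex.exp (Complex.I * (Real.pi / 3 : ℝ)) = ⟨1 / 2, √3 / 2⟩ := by
    rw [mul_comm, Complex.exp_mul_I, ← Complex.ofReal_cos, ← Complex.ofReal_sin,
      Real.cos_pi_div_three, Real.sin_pi_div_three]
    apply Complex.ext <;> simp
  have h3 : (√3 : ℝ) ^ 2 = 3 := Real.sq_sqrt (by norm_num)
  obtain ⟨a, b⟩ := v
  obtain ⟨c, d⟩ := w
  have key : dist (latticePoint (a, b)) (latticePoint (c, d)) ^ 2
      = (((a - c) ^ 2 + (a - c) * (b - d) + (b - d) ^ 2 : ℤ) : ℝ) := by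
    rw [Complex.dist_eq, ← Complex.normSq_eq_norm_sq, Complex.normSq_apply]
    simp only [latticePoint, hexp]
    simp
    nlinarith [h3]
  have h1 : dist (latticePoint (a, b)) (latticePoint (c, d)) = 1 ↔
      ((a - c) ^ 2 + (a - c) * (b - d) + (b - d) ^ 2 : ℤ) = 1 := by
    constructor
    · intro h
      rw [h] at key
      have : (((a - c) ^ 2 + (a - c) * (b - d) + (b - d) ^ 2 : ℤ) : ℝ) = ((1 : ℤ) : ℝ) := by
        rw [← key]; norm_num
      exact_mod_cast this
    · intro h
      rw [h] at key
      have hn : 0 ≤ dist (latticePoint (a, b)) (latticePoint (c, d)) := dist_nonneg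
      push_cast at key
      nlinarith [key]
  rw [h1]
  constructor
  · intro h
    have hx : -1 ≤ a - c ∧ a - c ≤ 1 := by
      constructor <;> nlinarith [sq_nonneg (a - c + 2 * (b - d)), sq_nonneg (a - c)]
    have hy : -1 ≤ b - d ∧ b - d ≤ 1 := by
      constructor <;> nlinarith [sq_nonneg (2 * (a - c) + (b - d)), sq_nonneg (b - d)]
    obtain ⟨hx1, hx2⟩ := hx
    obtain ⟨hy1, hy2⟩ := hy
    generalize hp : a - c = p at *
    generalize hq : b - d = q at *
    have hc : c = a - p := by omega
    have hd : d = b - q := by omega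
    subst hc hd
    interval_cases p <;> interval_cases q <;> simp at h
    · exact ⟨0, by simp [dir]⟩
    · exact ⟨5, by simp [dir]; omega⟩
    · exact ⟨1, by simp [dir]⟩
    · exact ⟨4, by simp [dir]; omega⟩
    · exact ⟨2, by simp [dir]; omega⟩
    · exact ⟨3, by simp [dir]; omega⟩
  · rintro ⟨i, hi⟩
    have h1 : c = a + (dir i).1 := congrArg Prod.fst hi
    have h2 : d = b + (dir i).2 := congrArg Prod.snd hi
    subst h1 h2
    have e1 : a - (a + (dir i).1) = -(dir i).1 := by ring
    have e2 : b - (b + (dir i).2) = -(dir i).2 := by ring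
    rw [e1, e2]
    fin_cases i <;> simp [dir]

end R750.Hex
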