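import Pool.Agent.R750.HexRing

namespace R750.Hex

open Finset

theorem const_of_dir {f : ℤ × ℤ → ℝ} (hf : ∀ v i, f (v + dir i) = f v) (n m : ℤ) :
    f (n, m) = f (0, 0) := by
  have h1 : ∀ n m : ℤ, f (n + 1, m) = f (n, m) := by
    intro n m
    have := hf (n, m) 0
    simpa [dir] using this
  have h2 : ∀ n m : ℤ, f (n, m + 1) = f (n, m) := by
    intro n m
    have := hf (n, m) 1
    simpa [dir] using this
  have h3 : ∀ n m : ℤ, f (n, m) = f (0, m) := by
    intro n m
    induction n using Int.induction_on with
    | zero => rfl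
    | succ k ih => rw [h1, ih]
    | pred k ih => rw [← ih, ← h1 (-(k : ℤ) - 1) m, sub_add_cancel]
  have h4 : ∀ m : ℤ, f (0, m) = f (0, 0) := by
    intro m
    induction m using Int.induction_on with
    | zero => rfl
    | succ k ih => rw [h2, ih]
    | pred k ih => rw [← ih, ← h2 0 (-(k : ℤ) - 1), sub_add_cancel]
  rw [h3, h4]

/-- A packing label with bounded ratios of adjacent radii is a Doyle label. -/
theorem doyle_of_bounded {R : ℤ × ℤ → ℝ} (hR : IsPackingLabel R) {K : ℝ}
    (hK : ∀ v i, R (v + dir i) ≤ K * R v) : IsDoyleLabel R := by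
  have hpos := hR.pos
  have hK0 : 0 < K := by
    have h1 := hK 0 0
    have h2 := hpos 0
    have h3 := hpos (0 + dir 0)
    by_contra hcon
    push Not at hcon
    nlinarith
  have hbound : ∀ i v, |incr R (dir i) v| ≤ Real.log K := by
    intro i v
    have h1 : R (v + dir i) ≤ K * R v := hK v i
    have h2 : R v ≤ K * R (v + dir i) := by
      have := hK (v + dir i) (i + 3)
      rwa [add_assoc, dir_add_three, add_zero] at this
    have h1' := Real.log_le_log (hpos _) h1
    have h2' := Real.log_le_log (hpos _) h2
    rw [Real.log_mul hK0.ne' (hpos _).ne'] at h1' h2'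
    unfold incr
    rw [abs_le]
    constructor <;> linarith
  have hc : ∀ i v j, incr R (dir i) (v + dir j) = incr R (dir i) v := fun i v j =>
    incr_const hR (dir i) (hbound i) v j
  set α := incr R (dir 0) (0, 0) with hα
  set β := incr R (dir 1) (0, 0) with hβ
  have hα' : ∀ n m : ℤ, Real.log (R (n + 1, m)) = Real.log (R (n, m)) + α := by
    intro n m
    have h := const_of_dir (hc 0) n m
    have h2 : ((n, m) : ℤ × ℤ) + dir 0 = (n + 1, m) := by simp [dir]
    rw [← hα] at h
    unfold incr at h
    rw [h2] at h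
    linarith
  have hβ' : ∀ n m : ℤ, Real.log (R (n, m + 1)) = Real.log (R (n, m)) + β := by
    intro n m
    have h := const_of_dir (hc 1) n m
    have h2 : ((n, m) : ℤ × ℤ) + dir 1 = (n, m + 1) := by simp [dir]
    rw [← hβ] at h
    unfold incr at h
    rw [h2] at h
    linarith
  have hlog1 : ∀ n m : ℤ, Real.log (R (n, m)) = Real.log (R (0, m)) + n * α := by
    intro n m
    induction n using Int.induction_on with
    | zero => simp
    | succ k ih => rw [hα', ih]; push_cast; ring
    | pred k ih =>
      have := hα' (-(k : ℤ) - 1) m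
      rw [sub_add_cancel, ih] at this
      push_cast at this ⊢
      linarith
  have hlog2 : ∀ m : ℤ, Real.log (R (0, m)) = Real.log (R (0, 0)) + m * β := by
    intro m
    induction m using Int.induction_on with
    | zero => simp
    | succ k ih => rw [hβ', ih]; push_cast; ring
    | pred k ih =>
      have := hβ' 0 (-(k : ℤ) - 1)
      rw [sub_add_cancel, ih] at this
      push_cast at this ⊢
      linarith
  refine ⟨Real.exp α, Real.exp β, R (0, 0), Real.exp_pos _, Real.exp_pos _, hpos _, ?_⟩
  intro n m
  rw [← Real.exp_log (hpos (n, m)), hlog1, hlog2, Real.exp_add, Real.exp_add,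
    Real.exp_log (hpos _), mul_comm (n : ℝ) α, mul_comm (m : ℝ) β, Real.exp_mul, Real.exp_mul,
    Real.rpow_intCast, Real.rpow_intCast]
  ring

/-- Every locally univalent circle packing for the hexagonal complex is a Doyle packing. -/
theorem doyle_of_locallyUnivalent {R : ℤ × ℤ → ℝ} {z : ℤ × ℤ → ℂ} (hP : IsCirclePacking R z)
    (hU : LocallyUnivalent R z) : IsDoyleLabel R := by
  apply doyle_of_bounded hP.label (K := (thr 4 ^ 2)⁻¹)
  intro v i
  have h := ring_lemma hP hU (v + dir i) (i + 3)
  rw [add_assoc, dir_add_three, add_zero] at h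
  have ht : 0 < thr 4 ^ 2 := pow_pos (thr_pos 4) 2
  rw [inv_mul_eq_div, le_div_iff₀ ht]
  linarith

end R750.Hex
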