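import Pool.Agent.R750.HexAngle
import Pool.Agent.R750.HexCutoff

namespace R750.Hex

open Finset

theorem dir_add_three (i : Fin 6) : dir i + dir (i + 3) = 0 := by revert i; decide
theorem dir_add_four (i : Fin 6) : dir i + dir (i + 3 + 1) = dir (i - 1) := by revert i; decide
theorem dir_add_two (i : Fin 6) : dir i + dir (i + 3 - 1) = dir (i + 1) := by revert i; decide

/-- the logarithmic increment in direction `e` -/
noncomputable def incr (R : ℤ × ℤ → ℝ) (e v : ℤ × ℤ) : ℝ :=
  Real.log (R (v + e)) - Real.log (R v)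

/-- geometric interpolation between a label and its translate -/
noncomputable def interp (R : ℤ × ℤ → ℝ) (e : ℤ × ℤ) (s : ℝ) (v : ℤ × ℤ) : ℝ :=
  Real.exp (Real.log (R v) + s * incr R e v)

theorem interp_pos (R : ℤ × ℤ → ℝ) (e : ℤ × ℤ) (s : ℝ) (v : ℤ × ℤ) : 0 < interp R e s v :=
  Real.exp_pos _

theorem interp_zero {R : ℤ × ℤ → ℝ} (hR : ∀ v, 0 < R v) (e v : ℤ × ℤ) : interp R e 0 v = R v := by
  simp [interp, Real.exp_log (hR v)]

theorem interp_one {R : ℤ × ℤ → ℝ} (hR : ∀ v, 0 < R v) (e v : ℤ × ℤ) :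
    interp R e 1 v = R (v + e) := by
  simp [interp, incr, Real.exp_log (hR _)]

theorem hasDerivAt_interp (R : ℤ × ℤ → ℝ) (e : ℤ × ℤ) (s : ℝ) (v : ℤ × ℤ) :
    HasDerivAt (fun s => interp R e s v) (interp R e s v * incr R e v) s := by
  have h := (((hasDerivAt_id s).mul_const (incr R e v)).const_add (Real.log (R v))).exp
  refine (h.congr_deriv ?_)
  simp [interp]

/-- inradius of the `i`-th face at `v` -/
noncomputable def W (X : ℤ × ℤ → ℝ) (v : ℤ × ℤ) (i : Fin 6) : ℝ :=
  inr (X v) (X (v + dir i)) (X (v + dir (i + 1)))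

/-- conductance of the `i`-th edge at `v` -/
noncomputable def cond (X : ℤ × ℤ → ℝ) (v : ℤ × ℤ) (i : Fin 6) : ℝ :=
  (W X v i + W X v (i - 1)) / (X v + X (v + dir i))

theorem inr_comm12 (x y z : ℝ) : inr x y z = inr y x z := by
  unfold inr; congr 1; ring

theorem inr_comm23 (x y z : ℝ) : inr x y z = inr x z y := by
  unfold inr; congr 1; ring

theorem cond_symm (X : ℤ × ℤ → ℝ) (v : ℤ × ℤ) (i : Fin 6) :
    cond X (v + dir i) (i + 3) = cond X v i := by
  have h1 : v + dir i + dir (i + 3) = v := by rw [add_assoc, dir_add_three, add_zero]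
  have h2 : v + dir i + dir (i + 3 + 1) = v + dir (i - 1) := by rw [add_assoc, dir_add_four]
  have h3 : v + dir i + dir (i + 3 - 1) = v + dir (i + 1) := by rw [add_assoc, dir_add_two]
  have h4 : v + dir i + dir (i + 3 - 1 + 1) = v := by
    rw [sub_add_cancel, h1]
  have h5 : i - 1 + 1 = i := sub_add_cancel i 1
  unfold cond W
  rw [h1, h2, h3, h4, h5, inr_comm12 (X (v + dir i)) (X v) (X (v + dir (i - 1)))]
  rw [inr_comm23 (X (v + dir i)) (X (v + dir (i + 1))) (X v),
    inr_comm12 (X (v + dir i)) (X v) (X (v + dir (i + 1))),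
    inr_comm23 (X v) (X (v + dir i)) (X (v + dir (i - 1)))]
  rw [add_comm (inr (X v) (X (v + dir (i - 1))) (X (v + dir i))), add_comm (X (v + dir i)) (X v)]

theorem cond_pos {X : ℤ × ℤ → ℝ} (hX : ∀ v, 0 < X v) (v : ℤ × ℤ) (i : Fin 6) :
    0 < cond X v i := by
  unfold cond W
  exact div_pos (add_pos (inr_pos (hX _) (hX _) (hX _)) (inr_pos (hX _) (hX _) (hX _)))
    (add_pos (hX _) (hX _))

theorem cond_le_one {X : ℤ × ℤ → ℝ} (hX : ∀ v, 0 < X v) (v : ℤ × ℤ) (i : Fin 6) :
    cond X v i ≤ 1 := by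
  unfold cond
  rw [div_le_one (add_pos (hX _) (hX _))]
  have h1 : W X v i ≤ (X v + X (v + dir i)) / 2 := inr_le (hX _) (hX _) (hX _)
  have h2 : W X v (i - 1) ≤ (X v + X (v + dir i)) / 2 := by
    unfold W
    rw [sub_add_cancel, inr_comm23]
    exact inr_le (hX _) (hX _) (hX _)
  linarith

theorem hasDerivAt_angleSum (R : ℤ × ℤ → ℝ) (e : ℤ × ℤ) (s : ℝ) (v : ℤ × ℤ) :
    HasDerivAt (fun s => angleSum (interp R e s) v)
      (∑ i, cond (interp R e s) v i * (incr R e (v + dir i) - incr R e v)) s := by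
  set X := interp R e s with hX
  have h : HasDerivAt (fun s => angleSum (interp R e s) v)
      (∑ i : Fin 6, (W X v i / (X v + X (v + dir i)) * (incr R e (v + dir i) - incr R e v)
        + W X v i / (X v + X (v + dir (i + 1)))
            * (incr R e (v + dir (i + 1)) - incr R e v))) s := by
    unfold angleSum
    apply HasDerivAt.fun_sum
    intro i _
    exact hasDerivAt_angle (hasDerivAt_interp R e s v) (hasDerivAt_interp R e s _)
      (hasDerivAt_interp R e s _) (fun t => interp_pos R e t _) (fun t => interp_pos R e t _)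
      (fun t => interp_pos R e t _)
  refine h.congr_deriv ?_
  rw [sum_add_distrib]
  have hshift : ∑ i : Fin 6, W X v i / (X v + X (v + dir (i + 1)))
            * (incr R e (v + dir (i + 1)) - incr R e v)
      = ∑ i : Fin 6, W X v (i - 1) / (X v + X (v + dir i))
            * (incr R e (v + dir i) - incr R e v) := by
    rw [← Equiv.sum_comp (Equiv.addRight (1 : Fin 6))
      (fun i : Fin 6 => W X v (i - 1) / (X v + X (v + dir i))
            * (incr R e (v + dir i) - incr R e v))]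
    apply sum_congr rfl
    intro i _
    simp only [Equiv.coe_addRight, add_sub_cancel_right]
  rw [hshift, ← sum_add_distrib]
  apply sum_congr rfl
  intro i _
  unfold cond
  ring

theorem angleSum_translate (R : ℤ × ℤ → ℝ) (e v : ℤ × ℤ) :
    angleSum (fun u => R (u + e)) v = angleSum R (v + e) := by
  unfold angleSum
  apply sum_congr rfl
  intro i _
  beta_reduce
  rw [add_right_comm v (dir i) e, add_right_comm v (dir (i + 1)) e]

/-- Rolle's theorem for a weighted sum of angle sums along the interpolation. -/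
theorem exists_time {R : ℤ × ℤ → ℝ} (hR : IsPackingLabel R) (e : ℤ × ℤ) (S : Finset (ℤ × ℤ))
    (ψ : ℤ × ℤ → ℝ) :
    ∃ s ∈ Set.Ioo (0 : ℝ) 1,
      ∑ v ∈ S, ψ v * ∑ i, cond (interp R e s) v i * (incr R e (v + dir i) - incr R e v) = 0 := by
  have hd : ∀ s, HasDerivAt (fun s => ∑ v ∈ S, ψ v * angleSum (interp R e s) v)
      (∑ v ∈ S, ψ v * ∑ i, cond (interp R e s) v i
        * (incr R e (v + dir i) - incr R e v)) s := by
    intro s
    apply HasDerivAt.fun_sum
    intro v _
    exact (hasDerivAt_angleSum R e s v).const_mul (ψ v)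
  have h0 : interp R e 0 = R := funext (interp_zero hR.pos e)
  have h1 : interp R e 1 = fun u => R (u + e) := funext (interp_one hR.pos e)
  apply exists_hasDerivAt_eq_zero (f := fun s => ∑ v ∈ S, ψ v * angleSum (interp R e s) v)
    (zero_lt_one) (fun s _ => (hd s).continuousAt.continuousWithinAt) _ (fun s _ => hd s)
  simp only [h0, h1, angleSum_translate, hR.sum]

/-- Summation by parts for a finitely supported weight against an antisymmetric flow. -/
theorem sum_by_parts {D : ℤ × ℤ → Fin 6 → ℝ} (hD : ∀ v i, D (v + dir i) (i + 3) = -D v i)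
    {ψ : ℤ × ℤ → ℝ} (hψ : ψ.support.Finite) :
    ∑' v, ∑ i, (ψ (v + dir i) - ψ v) * D v i = -2 * ∑' v, ψ v * ∑ i, D v i := by
  have hs1 : ∀ i, Summable fun v => ψ v * D v i := by
    intro i
    apply summable_of_hasFiniteSupport
    exact hψ.subset (fun v hv => by
      simp only [Function.mem_support] at hv ⊢
      exact left_ne_zero_of_mul hv)
  have hs2 : ∀ i, Summable fun v => ψ (v + dir i) * D v i := by
    intro i
    apply summable_of_hasFiniteSupport
    apply (hψ.preimage ((add_left_injective (dir i)).injOn)).subset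
    intro v hv
    simp only [Function.mem_support, Set.mem_preimage] at hv ⊢
    exact left_ne_zero_of_mul hv
  set T : Fin 6 → ℝ := fun i => ∑' v, ψ v * D v i with hT
  have hT3 : ∀ i, T (i + 3) = -∑' v, ψ (v + dir i) * D v i := by
    intro i
    simp only [hT]
    rw [← (Equiv.addRight (dir i)).tsum_eq (fun v => ψ v * D v (i + 3)), ← tsum_neg]
    apply tsum_congr
    intro v
    simp only [Equiv.coe_addRight, hD]
    ring
  have hsumT : ∑ i, T (i + 3) = ∑ i, T i := Equiv.sum_comp (Equiv.addRight (3 : Fin 6)) T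
  have hR : ∑' v, ψ v * ∑ i, D v i = ∑ i, T i := by
    simp only [hT, mul_sum]
    rw [Summable.tsum_finsetSum fun i _ => hs1 i]
  have hL : ∑' v, ∑ i, (ψ (v + dir i) - ψ v) * D v i = ∑ i, (-T (i + 3) - T i) := by
    rw [Summable.tsum_finsetSum fun i _ => by
      simpa only [sub_mul] using (hs2 i).sub (hs1 i)]
    apply sum_congr rfl
    intro i _
    rw [hT3]
    simp only [sub_mul, hT, neg_neg]
    rw [(hs2 i).tsum_sub (hs1 i)]
  rw [hL, hR, sum_sub_distrib, sum_neg_distrib, hsumT]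
  ring

theorem pointwise {p q a b K : ℝ} (ha : |a| ≤ K) (hb : |b| ≤ K) :
    (1 / 4) * (p ^ 2 * (b - a) ^ 2) - 2 * K ^ 2 * (q - p) ^ 2 ≤
      (q ^ 2 * b - p ^ 2 * a) * (b - a) := by
  have hK : ((a + b) / 2) ^ 2 ≤ K ^ 2 := by
    have h1 : |(a + b) / 2| ≤ K := by
      rw [abs_div, abs_two]
      have := abs_add_le a b
      linarith
    rw [← sq_abs]
    exact pow_le_pow_left₀ (abs_nonneg _) h1 2
  have h2 : 0 ≤ (K ^ 2 - ((a + b) / 2) ^ 2) * (q - p) ^ 2 :=
    mul_nonneg (by linarith) (sq_nonneg _)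
  have h3 : 0 ≤ ((1 / 2) * (p + q) * (b - a) + (a + b) * (q - p)) ^ 2 := sq_nonneg _
  have h4 : 0 ≤ ((q - p) * (b - a)) ^ 2 := sq_nonneg _
  have h5 : 0 ≤ (q * (b - a)) ^ 2 := sq_nonneg _
  nlinarith [h2, h3, h4, h5]

/-- the key estimate -/
theorem edge_estimate {R : ℤ × ℤ → ℝ} (hR : IsPackingLabel R) (e : ℤ × ℤ) {K : ℝ}
    (hK : ∀ v, |incr R e v| ≤ K) {φ : ℤ × ℤ → ℝ} (hφ : φ.support.Finite) (v₀ : ℤ × ℤ)
    (hv₀ : φ v₀ = 1) (i₀ : Fin 6) :
    ∃ s ∈ Set.Icc (0 : ℝ) 1,
      cond (interp R e s) v₀ i₀ * (incr R e (v₀ + dir i₀) - incr R e v₀) ^ 2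
        ≤ 8 * K ^ 2 * ∑' v, ∑ i, (φ (v + dir i) - φ v) ^ 2 := by
  set k := incr R e with hk
  set ψ : ℤ × ℤ → ℝ := fun v => φ v ^ 2 * k v with hψ
  have hψs : ψ.support ⊆ φ.support := by
    intro v hv
    simp only [Function.mem_support, hψ] at hv ⊢
    intro h; exact hv (by simp [h])
  have hψf : ψ.support.Finite := hφ.subset hψs
  obtain ⟨s, hs, hs0⟩ := exists_time hR e hψf.toFinset ψ
  refine ⟨s, ⟨hs.1.le, hs.2.le⟩, ?_⟩
  set X := interp R e s with hX
  have hXpos : ∀ v, 0 < X v := interp_pos R e s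
  set D : ℤ × ℤ → Fin 6 → ℝ := fun v i => cond X v i * (k (v + dir i) - k v) with hD
  have hDanti : ∀ v i, D (v + dir i) (i + 3) = -D v i := by
    intro v i
    simp only [hD, cond_symm]
    rw [add_assoc, dir_add_three, add_zero]
    ring
  have hzero : ∑' v, ψ v * ∑ i, D v i = 0 := by
    rw [tsum_eq_sum (s := hψf.toFinset)]
    · exact hs0
    · intro v hv
      simp only [Set.Finite.mem_toFinset, Function.mem_support, not_not] at hv
      rw [hv, zero_mul]
  have hparts := sum_by_parts hDanti hψf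
  rw [hzero, mul_zero] at hparts
  -- summability facts
  have hfin : ∀ i, (Function.support fun v => φ (v + dir i)).Finite := fun i =>
    hφ.preimage ((add_left_injective (dir i)).injOn)
  have hsE : Summable fun v => ∑ i, (φ (v + dir i) - φ v) ^ 2 := by
    apply summable_sum
    intro i _
    apply summable_of_hasFiniteSupport
    apply ((hfin i).union hφ).subset
    intro v hv
    simp only [Function.mem_support, Set.mem_union] at hv ⊢
    by_contra h
    push Not at h
    exact hv (by rw [h.1, h.2]; ring)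
  have hsP : Summable fun v => ∑ i, (ψ (v + dir i) - ψ v) * D v i := by
    apply summable_sum
    intro i _
    apply summable_of_hasFiniteSupport
    apply ((hψf.preimage ((add_left_injective (dir i)).injOn)).union hψf).subset
    intro v hv
    simp only [Function.mem_support, Set.mem_union, Set.mem_preimage] at hv ⊢
    by_contra h
    push Not at h
    exact hv (by rw [h.1, h.2]; ring)
  have hsQ : Summable fun v => ∑ i, (1 / 4) * (cond X v i * (φ v ^ 2 * (k (v + dir i) - k v) ^ 2)) := by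
    apply summable_sum
    intro i _
    apply summable_of_hasFiniteSupport
    apply hφ.subset
    intro v hv
    simp only [Function.mem_support] at hv ⊢
    intro h; exact hv (by rw [h]; ring)
  have hpt : ∀ v, ∑ i, (1 / 4) * (cond X v i * (φ v ^ 2 * (k (v + dir i) - k v) ^ 2))
      ≤ (∑ i, (ψ (v + dir i) - ψ v) * D v i)
        + 2 * K ^ 2 * ∑ i, (φ (v + dir i) - φ v) ^ 2 := by
    intro v
    rw [mul_sum, ← sum_add_distrib]
    apply sum_le_sum
    intro i _
    have h1 := pointwise (p := φ v) (q := φ (v + dir i)) (hK v) (hK (v + dir i))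
    have hc0 := (cond_pos hXpos v i).le
    have hc1 := cond_le_one hXpos v i
    have h2 := mul_le_mul_of_nonneg_left h1 hc0
    have h3 : cond X v i * (2 * K ^ 2 * (φ (v + dir i) - φ v) ^ 2)
        ≤ 1 * (2 * K ^ 2 * (φ (v + dir i) - φ v) ^ 2) :=
      mul_le_mul_of_nonneg_right hc1 (by positivity)
    simp only [hψ, hD]
    nlinarith [h2, h3]
  have hle := hsQ.tsum_le_tsum hpt (hsP.add (hsE.mul_left _))
  rw [hsP.tsum_add (hsE.mul_left _), hparts, zero_add, tsum_mul_left] at hle
  have hterm : (1 / 4) * (cond X v₀ i₀ * (φ v₀ ^ 2 * (k (v₀ + dir i₀) - k v₀) ^ 2))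
      ≤ ∑' v, ∑ i, (1 / 4) * (cond X v i * (φ v ^ 2 * (k (v + dir i) - k v) ^ 2)) := by
    have hnn : ∀ v i, 0 ≤ (1 / 4) * (cond X v i * (φ v ^ 2 * (k (v + dir i) - k v) ^ 2)) := by
      intro v i
      have := (cond_pos hXpos v i).le
      positivity
    refine (single_le_sum (f := fun i => (1 / 4) * (cond X v₀ i *
      (φ v₀ ^ 2 * (k (v₀ + dir i) - k v₀) ^ 2))) (fun i _ => hnn v₀ i) (mem_univ i₀)).trans ?_
    exact hsQ.le_tsum v₀ (fun v _ => sum_nonneg fun i _ => hnn v i)
  rw [hv₀, one_pow, one_mul] at hterm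
  linarith

theorem incr_const {R : ℤ × ℤ → ℝ} (hR : IsPackingLabel R) (e : ℤ × ℤ) {K : ℝ}
    (hK : ∀ v, |incr R e v| ≤ K) (v₀ : ℤ × ℤ) (i₀ : Fin 6) :
    incr R e (v₀ + dir i₀) = incr R e v₀ := by
  by_contra hne
  have hpos : 0 < (incr R e (v₀ + dir i₀) - incr R e v₀) ^ 2 := by
    have : incr R e (v₀ + dir i₀) - incr R e v₀ ≠ 0 := sub_ne_zero.mpr hne
    positivity
  have hcont : ContinuousOn (fun s => cond (interp R e s) v₀ i₀) (Set.Icc 0 1) := by
    have hc : ∀ v, Continuous fun s => interp R e s v := by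
      intro v
      unfold interp
      fun_prop
    apply Continuous.continuousOn
    unfold cond W inr
    refine Continuous.div ?_ ((hc _).add (hc _)) (fun s =>
      (add_pos (interp_pos R e s _) (interp_pos R e s _)).ne')
    refine Continuous.add ?_ ?_
    · refine Continuous.sqrt (Continuous.div (((hc _).mul (hc _)).mul (hc _))
        (((hc _).add (hc _)).add (hc _)) (fun s => ?_))
      have h1 := interp_pos R e s v₀
      have h2 := interp_pos R e s (v₀ + dir i₀)
      have h3 := interp_pos R e s (v₀ + dir (i₀ + 1))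
      positivity
    · refine Continuous.sqrt (Continuous.div (((hc _).mul (hc _)).mul (hc _))
        (((hc _).add (hc _)).add (hc _)) (fun s => ?_))
      have h1 := interp_pos R e s v₀
      have h2 := interp_pos R e s (v₀ + dir (i₀ - 1))
      have h3 := interp_pos R e s (v₀ + dir (i₀ - 1 + 1))
      positivity
  obtain ⟨s₁, hs₁, hmin⟩ := isCompact_Icc.exists_isMinOn
    (Set.nonempty_Icc.mpr (zero_le_one (α := ℝ))) hcont
  set c₀ := cond (interp R e s₁) v₀ i₀ with hc₀
  have hc₀pos : 0 < c₀ := cond_pos (interp_pos R e s₁) v₀ i₀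
  have hK0 : 0 ≤ K := (abs_nonneg _).trans (hK 0)
  set ε : ℝ := c₀ * (incr R e (v₀ + dir i₀) - incr R e v₀) ^ 2 / (8 * K ^ 2 + 1) / 2 with hε
  have hεpos : 0 < ε := by positivity
  obtain ⟨φ, hφf, hφ0, hφE⟩ := exists_cutoff hεpos
  set φ' : ℤ × ℤ → ℝ := fun v => φ (v - v₀) with hφ'
  have hφ'f : φ'.support.Finite := by
    have := hφf.preimage ((sub_left_injective (b := v₀)).injOn)
    exact this
  obtain ⟨s, hs, hsle⟩ := edge_estimate hR e hK hφ'f v₀ (by simp [hφ', hφ0]) i₀
  have hE : ∑' v, ∑ i, (φ' (v + dir i) - φ' v) ^ 2 = ∑' v, ∑ i, (φ (v + dir i) - φ v) ^ 2 := by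
    rw [← (Equiv.subRight v₀).tsum_eq (fun v => ∑ i, (φ (v + dir i) - φ v) ^ 2)]
    apply tsum_congr
    intro v
    apply sum_congr rfl
    intro i _
    simp only [hφ', Equiv.subRight_apply]
    rw [add_sub_right_comm]
  rw [hE] at hsle
  have hmin' : c₀ ≤ cond (interp R e s) v₀ i₀ := hmin hs
  have h1 : c₀ * (incr R e (v₀ + dir i₀) - incr R e v₀) ^ 2 ≤ 8 * K ^ 2 * ε := by
    calc _ ≤ cond (interp R e s) v₀ i₀ * (incr R e (v₀ + dir i₀) - incr R e v₀) ^ 2 :=
          mul_le_mul_of_nonneg_right hmin' hpos.le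
      _ ≤ _ := hsle
      _ ≤ _ := mul_le_mul_of_nonneg_left hφE (by positivity)
  have h2 : (8 * K ^ 2 + 1) * ε = c₀ * (incr R e (v₀ + dir i₀) - incr R e v₀) ^ 2 / 2 := by
    rw [hε]; field_simp
  have h3 : 0 < c₀ * (incr R e (v₀ + dir i₀) - incr R e v₀) ^ 2 := by positivity
  nlinarith

end R750.Hex
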