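import Pool.Agent.R750.HexLiouville

namespace R750.Hex

open Finset

/-- thresholds of the ring lemma -/
noncomputable def thr : ℕ → ℝ
  | 0 => 1 / 2
  | n + 1 => thr n ^ 2 / 5

theorem thr_pos (n : ℕ) : 0 < thr n := by
  induction n with
  | zero => norm_num [thr]
  | succ n ih => rw [thr]; positivity

theorem thr_le_one (n : ℕ) : thr n ≤ 1 := by
  induction n with
  | zero => norm_num [thr]
  | succ n ih =>
    have := thr_pos n
    rw [thr]; nlinarith

theorem thr_succ_le (n : ℕ) : thr (n + 1) ≤ thr n := by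
  have h1 := thr_pos n
  have h2 := thr_le_one n
  rw [thr]; nlinarith

theorem thr_anti {m n : ℕ} (h : m ≤ n) : thr n ≤ thr m := by
  induction n, h using Nat.le_induction with
  | base => exact le_rfl
  | succ n _ ih => exact (thr_succ_le n).trans ih

/-- chain form of the ring lemma -/
theorem chain {p : ℕ → ℝ} {w : ℕ → ℂ} (hp0 : ∀ k, 0 < p k) (hp1 : ∀ k, p k ≤ 1)
    (hadj : ∀ k < 5, dist (w k) (w (k + 1)) ≤ 2 * (p k * p (k + 1)))
    (hfar : ∀ j k, j < k → k ≤ 5 → 2 * (p j * p k) ≤ dist (w j) (w k)) (n : ℕ) :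
    ∀ m j k l, k ≤ 5 → j ≤ l → l ≤ k → k ≤ j + 1 + n → thr m ≤ p j → thr m ≤ p k →
      thr (m + n) ≤ p l := by
  induction n with
  | zero =>
    intro m j k l hk hjl hlk hkj hj hk'
    rcases eq_or_lt_of_le hjl with h | h
    · subst h; simpa using hj
    · obtain rfl : l = k := by omega
      simpa using hk'
  | succ n ih =>
    intro m j k l hk hjl hlk hkj hj hk'
    rcases eq_or_lt_of_le hjl with h | h
    · subst h; exact (thr_anti (by omega)).trans hj
    rcases eq_or_lt_of_le hlk with h' | h'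
    · subst h'; exact (thr_anti (by omega)).trans hk'
    -- some edge of the chain is big
    have hbig : ∃ t ∈ Ico j k, thr (m + 1) ≤ p t * p (t + 1) := by
      by_contra hcon
      push Not at hcon
      have h1 : dist (w j) (w k) ≤ ∑ t ∈ Ico j k, dist (w t) (w (t + 1)) :=
        dist_le_Ico_sum_dist w (by omega)
      have h2 : ∑ t ∈ Ico j k, dist (w t) (w (t + 1)) ≤ ∑ t ∈ Ico j k, 2 * (p t * p (t + 1)) := by
        apply sum_le_sum
        intro t ht
        rw [mem_Ico] at ht
        exact hadj t (by omega)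
      have h3 : ∑ t ∈ Ico j k, 2 * (p t * p (t + 1)) < ∑ _t ∈ Ico j k, 2 * thr (m + 1) := by
        apply sum_lt_sum_of_nonempty
        · exact ⟨j, by rw [mem_Ico]; omega⟩
        · intro t ht
          have := hcon t ht
          linarith
      have h4 : ∑ _t ∈ Ico j k, 2 * thr (m + 1) ≤ 2 * thr m ^ 2 := by
        rw [sum_const, Nat.card_Ico, nsmul_eq_mul]
        have hkj5 : ((k - j : ℕ) : ℝ) ≤ 5 := by
          have : k - j ≤ 5 := by omega
          exact_mod_cast this
        have hthr : thr (m + 1) = thr m ^ 2 / 5 := rfl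
        have hpos := thr_pos (m + 1)
        calc ((k - j : ℕ) : ℝ) * (2 * thr (m + 1)) ≤ 5 * (2 * thr (m + 1)) :=
              mul_le_mul_of_nonneg_right hkj5 (by positivity)
          _ = 2 * thr m ^ 2 := by rw [hthr]; ring
      have h5 := hfar j k (by omega) hk
      have h6 : thr m ^ 2 ≤ p j * p k := by
        have := thr_pos m
        nlinarith
      linarith
    obtain ⟨t, ht, htb⟩ := hbig
    rw [mem_Ico] at ht
    have hpt : thr (m + 1) ≤ p t := by
      have := hp0 t; have := hp1 (t + 1); have := hp0 (t + 1)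
      nlinarith
    have hpt1 : thr (m + 1) ≤ p (t + 1) := by
      have := hp0 t; have := hp1 t; have := hp0 (t + 1)
      nlinarith
    obtain ⟨s, hjs, hsk, hps⟩ : ∃ s, j < s ∧ s < k ∧ thr (m + 1) ≤ p s := by
      by_cases hjt : j < t
      · exact ⟨t, hjt, ht.2, hpt⟩
      · exact ⟨t + 1, by omega, by omega, hpt1⟩
    have hj' := (thr_succ_le m).trans hj
    have hk'' := (thr_succ_le m).trans hk'
    have e : m + (n + 1) = m + 1 + n := by omega
    rw [e]
    rcases le_total l s with hls | hls
    · exact ih (m + 1) j s l (by omega) hjl hls (by omega) hj' hps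
    · exact ih (m + 1) s k l hk hls hlk (by omega) hps hk''

/-- normalised directions -/
theorem normalized_dist_sq {a b : ℂ} {A B : ℝ} (hA : 0 < A) (hB : 0 < B) (ha : ‖a‖ = A)
    (hb : ‖b‖ = B) :
    dist (a / A) (b / B) ^ 2 * (A * B) = dist a b ^ 2 - (A - B) ^ 2 := by
  have e1 : dist (a / (A : ℂ)) (b / (B : ℂ)) ^ 2
      = Complex.normSq (a / A - b / B) := by
    rw [Complex.dist_eq, Complex.normSq_eq_norm_sq]
  have e2 : dist a b ^ 2 = Complex.normSq (a - b) := by
    rw [Complex.dist_eq, Complex.normSq_eq_norm_sq]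
  have ha2 : a.re ^ 2 + a.im ^ 2 = A ^ 2 := by
    rw [← ha, ← Complex.normSq_eq_norm_sq, Complex.normSq_apply]; ring
  have hb2 : b.re ^ 2 + b.im ^ 2 = B ^ 2 := by
    rw [← hb, ← Complex.normSq_eq_norm_sq, Complex.normSq_apply]; ring
  rw [e1, e2, Complex.normSq_apply, Complex.normSq_apply]
  simp only [Complex.sub_re, Complex.sub_im, Complex.div_ofReal_re, Complex.div_ofReal_im]
  have hA' := hA.ne'
  have hB' := hB.ne'
  field_simp
  have h1 : a.re ^ 2 = A ^ 2 - a.im ^ 2 := by linarith
  have h2 : b.re ^ 2 = B ^ 2 - b.im ^ 2 := by linarith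
  linear_combination (B ^ 2 - A * B) * ha2 + (A ^ 2 - A * B) * hb2

theorem angle_lt {x y z : ℝ} (hx : 0 < x) (hy : 0 < y) (hz : 0 < z)
    (h : y * z < (1 / 4) * ((x + y) * (x + z))) : angle x y z < Real.pi / 3 := by
  unfold angle
  have hpos : 0 < 2 * (x + y) * (x + z) := by positivity
  have h3 : Real.arccos (1 / 2) = Real.pi / 3 := by
    rw [← Real.cos_pi_div_three]
    exact Real.arccos_cos (by positivity) (by linarith [Real.pi_pos])
  rw [← h3]
  apply Real.arccos_lt_arccos
  · norm_num
  · rw [lt_div_iff₀ hpos]; nlinarith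
  · rw [div_le_one hpos]; nlinarith [mul_pos hy hz]

/-- two consecutive petals are big -/
theorem exists_big {R : ℤ × ℤ → ℝ} (hR : IsPackingLabel R) (v : ℤ × ℤ) :
    ∃ i : Fin 6, (1 / 4) * ((R v + R (v + dir i)) * (R v + R (v + dir (i + 1)))) ≤
      R (v + dir i) * R (v + dir (i + 1)) := by
  by_contra hcon
  push Not at hcon
  have h1 : angleSum R v < ∑ _i : Fin 6, Real.pi / 3 := by
    unfold angleSum
    apply sum_lt_sum_of_nonempty univ_nonempty
    intro i _
    exact angle_lt (hR.pos _) (hR.pos _) (hR.pos _) (hcon i)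
  rw [hR.sum v] at h1
  simp only [sum_const, card_univ, Fintype.card_fin, nsmul_eq_mul] at h1
  norm_num at h1
  linarith

theorem dir_inj : ∀ i j : Fin 6, dir i = dir j → i = j := by decide

theorem dir_add_two' : ∀ i : Fin 6, dir i + dir (i + 2) = dir (i + 1) := by decide

/-- reduction mod 6 -/
def md (k : ℕ) : Fin 6 := ⟨k % 6, Nat.mod_lt _ (by norm_num)⟩

theorem md_succ (k : ℕ) : md (k + 1) = md k + 1 := by
  apply Fin.ext
  simp only [md, Fin.val_add]
  have : ((1 : Fin 6) : ℕ) = 1 := rfl
  rw [this]; omega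

theorem md_inj {j k : ℕ} (hj : j ≤ 5) (hk : k ≤ 5) (h : md j = md k) : j = k := by
  have := congrArg Fin.val h
  simp only [md] at this
  omega

theorem ring_lemma {R : ℤ × ℤ → ℝ} {z : ℤ × ℤ → ℂ} (hP : IsCirclePacking R z)
    (hU : LocallyUnivalent R z) (v : ℤ × ℤ) (l : Fin 6) :
    thr 4 ^ 2 * R v ≤ R (v + dir l) := by
  have hpos := hP.label.pos
  set x := R v with hx
  have hx0 : 0 < x := hpos v
  set r : Fin 6 → ℝ := fun i => R (v + dir i) with hr
  have hr0 : ∀ i, 0 < r i := fun i => hpos _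
  set q : Fin 6 → ℝ := fun i => √(r i / (x + r i)) with hq
  have hqsq : ∀ i, q i ^ 2 = r i / (x + r i) := fun i => Real.sq_sqrt (by
    have := hr0 i; positivity)
  have hq0 : ∀ i, 0 < q i := fun i => Real.sqrt_pos.mpr (by have := hr0 i; positivity)
  have hq1 : ∀ i, q i ≤ 1 := by
    intro i
    rw [hq]
    apply Real.sqrt_le_one.mpr
    rw [div_le_one (by have := hr0 i; positivity)]
    linarith
  set u : Fin 6 → ℂ := fun i => (z (v + dir i) - z v) / ((x + r i : ℝ) : ℂ) with hu
  have hnorm : ∀ i, ‖z (v + dir i) - z v‖ = x + r i := by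
    intro i
    rw [← Complex.dist_eq, dist_comm, hP.tangent v i]
  have hdist : ∀ i j, dist (u i) (u j) ^ 2 * ((x + r i) * (x + r j))
      = dist (z (v + dir i)) (z (v + dir j)) ^ 2 - (r i - r j) ^ 2 := by
    intro i j
    have hi := hr0 i
    have hj := hr0 j
    have := normalized_dist_sq (A := x + r i) (B := x + r j) (by positivity) (by positivity)
      (hnorm i) (hnorm j)
    rw [hu]
    simp only at this ⊢
    rw [this, dist_sub_right]
    ring
  -- distances between petals
  have hfar : ∀ i j, i ≠ j → 2 * (q i * q j) ≤ dist (u i) (u j) := by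
    intro i j hij
    have hi := hr0 i
    have hj := hr0 j
    have hne : v + dir i ≠ v + dir j := by
      intro h
      exact hij (dir_inj i j (add_left_cancel h))
    have hdisj := hU v (Set.mem_insert_of_mem _ ⟨i, rfl⟩) (Set.mem_insert_of_mem _ ⟨j, rfl⟩) hne
    have hd : r i + r j ≤ dist (z (v + dir i)) (z (v + dir j)) :=
      (disjoint_ball_ball_iff (hr0 i) (hr0 j)).mp hdisj
    have h1 : 4 * (r i * r j) ≤ dist (u i) (u j) ^ 2 * ((x + r i) * (x + r j)) := by
      rw [hdist]
      nlinarith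
    apply le_of_sq_le_sq _ dist_nonneg
    rw [mul_pow, mul_pow, hqsq, hqsq]
    rw [div_mul_div_comm, ← mul_div_assoc, div_le_iff₀ (by positivity)]
    linarith
  have hadj : ∀ i, dist (u i) (u (i + 1)) ≤ 2 * (q i * q (i + 1)) := by
    intro i
    have hi := hr0 i
    have hj := hr0 (i + 1)
    have hd : dist (z (v + dir i)) (z (v + dir (i + 1))) = r i + r (i + 1) := by
      have h1 := hP.tangent (v + dir i) (i + 2)
      have h2 : v + dir i + dir (i + 2) = v + dir (i + 1) := by
        rw [add_assoc, dir_add_two']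
      rw [h2] at h1
      exact h1
    have h1 : dist (u i) (u (i + 1)) ^ 2 * ((x + r i) * (x + r (i + 1)))
        = 4 * (r i * r (i + 1)) := by
      rw [hdist, hd]; ring
    apply le_of_sq_le_sq _ (by have := hq0 i; have := hq0 (i + 1); positivity)
    rw [mul_pow, mul_pow, hqsq, hqsq, div_mul_div_comm, ← mul_div_assoc,
      le_div_iff₀ (by positivity)]
    linarith
  -- two big consecutive petals
  obtain ⟨i₀, hi₀⟩ := exists_big hP.label v
  have hbig : 1 / 2 ≤ q i₀ ∧ 1 / 2 ≤ q (i₀ + 1) := by
    have ha := hr0 i₀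
    have hb := hr0 (i₀ + 1)
    have h1 : (1 / 4) * ((x + r i₀) * (x + r (i₀ + 1))) ≤ r i₀ * r (i₀ + 1) := hi₀
    constructor
    · apply le_of_sq_le_sq _ (hq0 _).le
      rw [hqsq, le_div_iff₀ (by positivity)]
      by_contra hcon
      push Not at hcon
      nlinarith [mul_pos ha hb, mul_pos hx0 ha, mul_pos hx0 hb]
    · apply le_of_sq_le_sq _ (hq0 _).le
      rw [hqsq, le_div_iff₀ (by positivity)]
      by_contra hcon
      push Not at hcon
      nlinarith [mul_pos ha hb, mul_pos hx0 ha, mul_pos hx0 hb]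
  -- apply the chain lemma
  set p : ℕ → ℝ := fun k => q (i₀ + 1 + md k) with hp
  set w : ℕ → ℂ := fun k => u (i₀ + 1 + md k) with hw
  have hchain := chain (p := p) (w := w) (fun k => hq0 _) (fun k => hq1 _)
    (by
      intro k _
      have e : i₀ + 1 + md (k + 1) = i₀ + 1 + md k + 1 := by
        rw [md_succ, add_assoc, add_assoc, add_assoc]
      simp only [hp, hw]
      rw [e]
      exact hadj _)
    (by
      intro j k hjk hk
      apply hfar
      intro h
      have h' := md_inj (by omega) hk (add_left_cancel h)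
      omega) 4 0 0 5
  obtain ⟨l', hl', hl'5⟩ : ∃ l' : ℕ, i₀ + 1 + md l' = l ∧ l' ≤ 5 := by
    have hlt := (l - (i₀ + 1)).isLt
    refine ⟨(l - (i₀ + 1)).val, ?_, by omega⟩
    have : md (l - (i₀ + 1)).val = l - (i₀ + 1) := by
      apply Fin.ext
      simp only [md]
      omega
    rw [this]
    exact add_sub_cancel _ _
  have h0 : thr 0 ≤ p 0 := by
    have : p 0 = q (i₀ + 1) := by
      simp only [hp]
      congr 1
      clear hi₀ hbig hchain hl' hp hw
      revert i₀; decide
    rw [this]; exact hbig.2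
  have h5 : thr 0 ≤ p 5 := by
    have : p 5 = q i₀ := by
      simp only [hp]
      congr 1
      clear hi₀ hbig hchain hl' hp hw h0
      revert i₀; decide
    rw [this]; exact hbig.1
  have hfin := hchain l' le_rfl (by omega) hl'5 (by omega) h0 h5
  have hfin' : thr 4 ≤ q l := by
    have : p l' = q l := by simp only [hp, hl']
    rw [this] at hfin
    simpa using hfin
  have hsq : thr 4 ^ 2 ≤ q l ^ 2 := pow_le_pow_left₀ (thr_pos 4).le hfin' 2
  rw [hqsq, le_div_iff₀ (by have := hr0 l; positivity)] at hsq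
  have hrl := hr0 l
  have ht := pow_pos (thr_pos 4) 2
  have : r l = R (v + dir l) := rfl
  nlinarith [mul_pos ht hrl]

end R750.Hex
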