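import Pool.Agent.R750.NetMetric

set_option autoImplicit false

open scoped ContDiff Topology
open Set

namespace Pool.Agent.R750

lemma tanh_strictMono : StrictMono Real.tanh :=
  strictMono_of_deriv_pos fun x => by rw [(hasDerivAt_tanh x).deriv]; exact sq_pos x

/-- The data of the construction together with the angle of the two geodesics. -/
structure Data2 extends Data where
  s : ℝ
  hs : 0 < s
  hs1 : s ≤ 1 / 2
  hs2 : s < Real.tanh δ
  T : ℝ
  hT : 0 ≤ T
  hTX : 2 * T < X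

lemma exists_data2 {δ T : ℝ} (hδ : 0 < δ) (hδ' : δ ≤ 1 / 4) (hT : 0 ≤ T) :
    ∃ D : Data2, D.X = 2 * T + 1 ∧ D.δ = δ ∧ D.T = T := by
  obtain ⟨D, h1, h2⟩ := exists_data (show 0 < 2 * T + 1 by linarith) hδ hδ'
  have ht : 0 < Real.tanh δ := by
    have := tanh_strictMono hδ; simpa using this
  refine ⟨{ D with
      s := min (Real.tanh δ / 2) (1 / 2)
      hs := by positivity
      hs1 := min_le_right _ _
      hs2 := ?_
      T := T
      hT := hT
      hTX := by rw [h1]; linarith }, h1, h2, rfl⟩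
  rw [h2]
  exact lt_of_le_of_lt (min_le_left _ _) (by linarith)

namespace Data2

variable (D : Data2)

/-- cosine of the angle -/
noncomputable def c : ℝ := √(1 - D.s ^ 2)

lemma c_sq : D.c ^ 2 = 1 - D.s ^ 2 :=
  Real.sq_sqrt (by nlinarith [D.hs, D.hs1])

lemma c_pos : 0 < D.c := Real.sqrt_pos.mpr (by nlinarith [D.hs, D.hs1])

lemma c_ge : 1 / 2 ≤ D.c := by nlinarith [D.c_sq, D.c_pos, D.hs, D.hs1]

/-- the conformal factor along the geodesic -/
noncomputable def Q (t : ℝ) : ℝ := 1 - D.s ^ 2 * Real.sin t ^ 2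

lemma Q_ge (t : ℝ) : D.c ^ 2 ≤ D.Q t := by
  rw [D.c_sq]; unfold Q
  nlinarith [Real.sin_sq_le_one t, sq_nonneg D.s]

lemma Q_pos (t : ℝ) : 0 < D.Q t := lt_of_lt_of_le (pow_pos D.c_pos 2) (D.Q_ge t)

lemma Q_smooth : ContDiff ℝ ∞ D.Q := by
  unfold Q; fun_prop

/-- `x`-coordinate of the geodesic -/
noncomputable def Xf : ℝ → ℝ := I1 fun t => D.c / D.Q t

lemma dX_smooth : ContDiff ℝ ∞ fun t => D.c / D.Q t :=
  contDiff_const.div D.Q_smooth fun t => (D.Q_pos t).ne'

lemma Xf_smooth : ContDiff ℝ ∞ D.Xf := contDiff_I1 D.dX_smooth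

lemma Xf_deriv (t : ℝ) : HasDerivAt D.Xf (D.c / D.Q t) t :=
  hasDerivAt_I1 D.dX_smooth.continuous t

lemma Xf_strictMono : StrictMono D.Xf :=
  strictMono_of_deriv_pos fun x => by
    rw [(D.Xf_deriv x).deriv]; exact div_pos D.c_pos (D.Q_pos x)

lemma Xf_zero : D.Xf 0 = 0 := I1_zero _

lemma Xf_le {t : ℝ} (ht : 0 ≤ t) : D.Xf t ≤ 2 * t := by
  have h1 : I1 (fun t => D.c / D.Q t) t ≤ I1 (fun _ => (2:ℝ)) t := by
    apply I1_le D.dX_smooth.continuous continuous_const _ ht
    intro r _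
    rw [div_le_iff₀ (D.Q_pos r)]
    nlinarith [D.Q_ge r, D.c_ge, D.c_pos]
  have h2 : I1 (fun _ => (2:ℝ)) t = 2 * t := by simp [I1]; ring
  unfold Xf; linarith

lemma Xf_nonneg {t : ℝ} (ht : 0 ≤ t) : 0 ≤ D.Xf t := by
  rw [← D.Xf_zero]; exact D.Xf_strictMono.monotone ht

lemma Xf_lt {t : ℝ} (ht : 0 ≤ t) (ht' : t ≤ D.T) : |D.Xf t| < D.X := by
  rw [abs_of_nonneg (D.Xf_nonneg ht)]
  have := D.Xf_le ht
  have := D.hTX
  linarith

/-- `y`-coordinate of the geodesic -/
noncomputable def Yf (t : ℝ) : ℝ :=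
  (Real.log (1 + D.s * Real.sin t) - Real.log (1 - D.s * Real.sin t)) / 2

lemma ssin_abs (t : ℝ) : |D.s * Real.sin t| ≤ D.s := by
  rw [abs_mul, abs_of_pos D.hs]
  have := Real.abs_sin_le_one t
  nlinarith [D.hs]

lemma pos1 (t : ℝ) : 0 < 1 + D.s * Real.sin t := by
  have := abs_le.mp (D.ssin_abs t); linarith [D.hs1, this.1]

lemma pos2 (t : ℝ) : 0 < 1 - D.s * Real.sin t := by
  have := abs_le.mp (D.ssin_abs t); linarith [D.hs1, this.2]

lemma Yf_smooth : ContDiff ℝ ∞ D.Yf := by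
  unfold Yf
  apply ContDiff.div_const
  apply ContDiff.sub
  · exact ContDiff.log (by fun_prop) fun t => (D.pos1 t).ne'
  · exact ContDiff.log (by fun_prop) fun t => (D.pos2 t).ne'

lemma Yf_deriv (t : ℝ) : HasDerivAt D.Yf (D.s * Real.cos t / D.Q t) t := by
  have h1 := ((Real.hasDerivAt_sin t).const_mul D.s).const_add 1
  have h2 := ((Real.hasDerivAt_sin t).const_mul D.s).const_sub 1
  have h3 := ((h1.log (D.pos1 t).ne').sub (h2.log (D.pos2 t).ne')).div_const 2
  refine h3.congr_deriv ?_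
  have e1 := (D.pos1 t).ne'
  have e2 := (D.pos2 t).ne'
  have e3 : D.Q t = (1 + D.s * Real.sin t) * (1 - D.s * Real.sin t) := by unfold Q; ring
  rw [e3]
  field_simp
  ring

lemma tanh_Yf (t : ℝ) : Real.tanh (D.Yf t) = D.s * Real.sin t := by
  have h1 := D.pos1 t
  have h2 := D.pos2 t
  have h3 : D.Yf t = Real.artanh (D.s * Real.sin t) := by
    rw [Real.artanh_eq_half_log ⟨by linarith, by linarith⟩, Real.log_div h1.ne' h2.ne']
    unfold Yf; ring
  rw [h3, Real.tanh_artanh ⟨by linarith, by linarith⟩]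

lemma Yf_lt (t : ℝ) : |D.Yf t| < D.δ := by
  have h := D.ssin_abs t
  rw [← D.tanh_Yf] at h
  rw [abs_lt]
  have := abs_le.mp h
  constructor
  · by_contra hc
    push Not at hc
    have h2 := tanh_strictMono.monotone hc
    rw [Real.tanh_neg] at h2
    linarith [D.hs2, this.1]
  · by_contra hc
    push Not at hc
    have h2 := tanh_strictMono.monotone hc
    linarith [D.hs2, this.2]

lemma sq_Yf (t : ℝ) : sq (D.Yf t) = D.Q t := by
  rw [sq_eq, D.tanh_Yf]; unfold Q; ring

lemma Yf_eq_zero {t : ℝ} (h : D.Yf t = 0) : Real.sin t = 0 := by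
  have := D.tanh_Yf t
  rw [h, Real.tanh_zero] at this
  have := D.hs
  rcases mul_eq_zero.mp ‹0 = D.s * Real.sin t›.symm with h | h
  · linarith
  · exact h

lemma Yf_of_sin {t : ℝ} (h : Real.sin t = 0) : D.Yf t = 0 := by
  unfold Yf; rw [h]; simp

/-- The two geodesics (`σ = 1` and `σ = -1`), with the parameter shifted by `a`. -/
noncomputable def crv (σ a t : ℝ) : ℝ × ℝ := (D.Xf (a + t), σ * D.Yf (a + t))

lemma crv_deriv (σ a t : ℝ) : HasDerivAt (D.crv σ a)
    (D.c / D.Q (a + t), σ * (D.s * Real.cos (a + t) / D.Q (a + t))) t := by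
  have h1 : HasDerivAt (fun t => D.Xf (a + t)) (D.c / D.Q (a + t)) t :=
    (D.Xf_deriv (a + t)).comp_const_add a t
  have h2 : HasDerivAt (fun t => D.Yf (a + t)) (D.s * Real.cos (a + t) / D.Q (a + t)) t :=
    (D.Yf_deriv (a + t)).comp_const_add a t
  exact h1.prodMk (h2.const_mul σ)

lemma crv_smooth (σ a : ℝ) : ContDiff ℝ ∞ (D.crv σ a) := by
  have h0 : ContDiff ℝ ∞ fun t : ℝ => a + t := by fun_prop
  exact (D.Xf_smooth.comp h0).prodMk (contDiff_const.mul (D.Yf_smooth.comp h0))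

lemma geodesic {σ a t : ℝ} (hσ : σ = 1 ∨ σ = -1) (h0 : 0 ≤ a + t) (h1 : a + t ≤ D.T) :
    D.plane.IsUnitGeodesicAt (D.crv σ a) t := by
  have hσ2 : σ ^ 2 = 1 := by rcases hσ with h | h <;> rw [h] <;> norm_num
  have hσa : |σ| = 1 := by rcases hσ with h | h <;> rw [h] <;> norm_num
  have hd := D.crv_deriv σ a
  -- the metric near the curve
  have hX : |(D.crv σ a t).1| < D.X := D.Xf_lt h0 h1
  have hYt : ∀ r, |(D.crv σ a r).2| < D.δ := by
    intro r
    show |σ * D.Yf (a + r)| < D.δ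
    rw [abs_mul, hσa, one_mul]; exact D.Yf_lt _
  have hlam : ∀ᶠ p in 𝓝 (D.crv σ a t), D.lam p = sq p.2 := by
    have h3 : ∀ᶠ p : ℝ × ℝ in 𝓝 (D.crv σ a t), |p.1| < D.X :=
      (continuous_fst.abs.tendsto _).eventually (gt_mem_nhds hX)
    have h4 : ∀ᶠ p : ℝ × ℝ in 𝓝 (D.crv σ a t), |p.2| < D.δ :=
      (continuous_snd.abs.tendsto _).eventually (gt_mem_nhds (hYt t))
    filter_upwards [h3, h4] with p h5 h6
    exact D.lam_strip h5.le h6.le
  have hsqY : ∀ r, sq (σ * D.Yf (a + r)) = D.Q (a + r) := by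
    intro r
    rcases hσ with h | h <;> rw [h]
    · rw [one_mul, D.sq_Yf]
    · rw [neg_one_mul, sq_even, D.sq_Yf]
  have htY : ∀ r, Real.tanh (σ * D.Yf (a + r)) = σ * (D.s * Real.sin (a + r)) := by
    intro r
    rcases hσ with h | h <;> rw [h]
    · rw [one_mul, one_mul, D.tanh_Yf]
    · rw [neg_one_mul, Real.tanh_neg, D.tanh_Yf, neg_one_mul]
  have hlamc : ∀ᶠ r in 𝓝 t, D.lam (D.crv σ a r) = D.Q (a + r) := by
    have := (D.crv_smooth σ a).continuous.continuousAt.eventually hlam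
    filter_upwards [this] with r hr
    rw [hr]; exact hsqY r
  have hlamt := hlamc.self_of_nhds
  have hQ := D.Q_pos (a + t)
  have hc2 := D.c_sq
  have hsc := Real.sin_sq_add_cos_sq (a + t)
  have hsum : (D.c / D.Q (a + t)) ^ 2 + (σ * (D.s * Real.cos (a + t) / D.Q (a + t))) ^ 2
      = 1 / D.Q (a + t) := by
    rw [mul_pow, hσ2]
    have e : D.Q (a + t) = D.c ^ 2 + (D.s * Real.cos (a + t)) ^ 2 := by
      unfold Q; rw [hc2]; nlinarith
    have e' : D.c ^ 2 + (D.s * Real.cos (a + t)) ^ 2 ≠ 0 := by rw [← e]; exact hQ.ne'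
    rw [e]
    field_simp
  refine ⟨(D.crv_smooth σ a).contDiffAt.of_le (by norm_cast), ?_, ?_⟩
  · rw [(hd t).deriv]
    simp only [RPlane.inn, Data.plane, hlamt]
    have : D.Q (a + t) * ((D.c / D.Q (a + t)) ^ 2 +
        (σ * (D.s * Real.cos (a + t) / D.Q (a + t))) ^ 2) = 1 := by
      rw [hsum]; field_simp
    linear_combination this
  · intro w
    -- left side
    have hL : (fun r => D.plane.inn (D.crv σ a r) (deriv (D.crv σ a) r) w) =ᶠ[𝓝 t]
        fun r => D.c * w.1 + σ * D.s * w.2 * Real.cos (a + r) := by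
      filter_upwards [hlamc] with r hr
      rw [(hd r).deriv]
      simp only [RPlane.inn, Data.plane, hr]
      have := (D.Q_pos (a + r)).ne'
      field_simp
      ring
    have hL' : HasDerivAt (fun r => D.c * w.1 + σ * D.s * w.2 * Real.cos (a + r))
        (σ * D.s * w.2 * (- Real.sin (a + t))) t :=
      (((Real.hasDerivAt_cos (a + t)).comp_const_add a t).const_mul (σ * D.s * w.2)).const_add _
    have hR : fderiv ℝ (fun p => D.plane.inn p (deriv (D.crv σ a) t) (deriv (D.crv σ a) t))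
        (D.crv σ a t) w = -2 * (σ * (D.s * Real.sin (a + t))) * w.2 := by
      have e1 : (fun p => D.plane.inn p (deriv (D.crv σ a) t) (deriv (D.crv σ a) t))
          =ᶠ[𝓝 (D.crv σ a t)] fun p => sq p.2 * (1 / D.Q (a + t)) := by
        filter_upwards [hlam] with p hp
        rw [(hd t).deriv]
        simp only [RPlane.inn, Data.plane, hp]
        linear_combination (sq p.2) * hsum
      rw [e1.fderiv_eq]
      have e2 : HasDerivAt sq (-2 * sq (D.crv σ a t).2 * Real.tanh (D.crv σ a t).2)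
          (D.crv σ a t).2 := by
        have e3 : sq = fun y => 1 - Real.tanh y ^ 2 := by ext y; exact sq_eq y
        have e4 := ((hasDerivAt_tanh (D.crv σ a t).2).pow 2).const_sub 1
        have e5 : HasDerivAt sq (-(↑2 * Real.tanh (D.crv σ a t).2 ^ (2 - 1) *
            sq (D.crv σ a t).2)) (D.crv σ a t).2 := by
          conv => arg 1; rw [e3]
          exact e4
        refine e5.congr_deriv ?_
        norm_num
        ring
      have e6 : HasFDerivAt (fun p : ℝ × ℝ => sq p.2 * (1 / D.Q (a + t)))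
          ((1 / D.Q (a + t)) • ((-2 * sq (D.crv σ a t).2 * Real.tanh (D.crv σ a t).2) •
            ContinuousLinearMap.snd ℝ ℝ ℝ)) (D.crv σ a t) := by
        have e9 : HasFDerivAt (Prod.snd : ℝ × ℝ → ℝ) (ContinuousLinearMap.snd ℝ ℝ ℝ)
          (D.crv σ a t) := hasFDerivAt_snd
        exact (e2.comp_hasFDerivAt (D.crv σ a t) e9).mul_const (1 / D.Q (a + t))
      rw [e6.fderiv]
      have e7 : sq (D.crv σ a t).2 = D.Q (a + t) := hsqY t
      have e8 : Real.tanh (D.crv σ a t).2 = σ * (D.s * Real.sin (a + t)) := htY t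
      simp only [_root_.smul_apply, ContinuousLinearMap.coe_snd', smul_eq_mul, e7, e8]
      field_simp
    rw [hR]
    refine (hL'.congr_of_eventuallyEq hL).congr_deriv ?_
    ring

end Data2

end Pool.Agent.R750
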