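import Mathlib

/-!
# Riemannian planes and geodesic nets with unbalanced vertices

Definitions for problem MP_34cb49_gt.
-/

set_option autoImplicit false

open scoped ContDiff
open Set

namespace Pool.Agent.R750

/-- A **Riemannian plane**: the plane `ℝ²` with a smooth Riemannian metric
`g = E dx² + 2 F dx dy + G dy²`. -/
structure RPlane where
  E : ℝ × ℝ → ℝ
  F : ℝ × ℝ → ℝ
  G : ℝ × ℝ → ℝ
  smooth_E : ContDiff ℝ ∞ E
  smooth_F : ContDiff ℝ ∞ F
  smooth_G : ContDiff ℝ ∞ G
  pos : ∀ p, 0 < E p ∧ 0 < E p * G p - F p ^ 2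

namespace RPlane

/-- The inner product `g_p(v, w)` of two tangent vectors at `p`. -/
def inn (g : RPlane) (p v w : ℝ × ℝ) : ℝ :=
  g.E p * v.1 * w.1 + g.F p * (v.1 * w.2 + v.2 * w.1) + g.G p * v.2 * w.2

end RPlane

/-- The partial derivative `∂f/∂x` of a function on the plane. -/
noncomputable def dx (f : ℝ × ℝ → ℝ) (p : ℝ × ℝ) : ℝ := deriv (fun t => f (t, p.2)) p.1

/-- The partial derivative `∂f/∂y` of a function on the plane. -/
noncomputable def dy (f : ℝ × ℝ → ℝ) (p : ℝ × ℝ) : ℝ := deriv (fun t => f (p.1, t)) p.2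

namespace RPlane

/-- The **Gaussian curvature** of the metric `E dx² + 2 F dx dy + G dy²` (Brioschi's formula). -/
noncomputable def K (g : RPlane) (p : ℝ × ℝ) : ℝ :=
  (Matrix.det !![-(1 / 2) * dy (dy g.E) p + dx (dy g.F) p - (1 / 2) * dx (dx g.G) p,
        (1 / 2) * dx g.E p, dx g.F p - (1 / 2) * dy g.E p;
      dy g.F p - (1 / 2) * dx g.G p, g.E p, g.F p;
      (1 / 2) * dy g.G p, g.F p, g.G p]
    - Matrix.det !![0, (1 / 2) * dy g.E p, (1 / 2) * dx g.G p;
      (1 / 2) * dy g.E p, g.E p, g.F p;
      (1 / 2) * dx g.G p, g.F p, g.G p])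
    / (g.E p * g.G p - g.F p ^ 2) ^ 2

/-- The density `√(E G - F²)` of the area form `dA` with respect to Lebesgue measure. -/
noncomputable def areaDensity (g : RPlane) (p : ℝ × ℝ) : ℝ := √(g.E p * g.G p - g.F p ^ 2)

/-- The integral `∫ K⁺ dA` of the positive part of the Gaussian curvature (a number in
`[0, ∞]`). -/
noncomputable def totalPosCurv (g : RPlane) : ENNReal :=
  ∫⁻ p : ℝ × ℝ, ENNReal.ofReal (max (g.K p) 0 * g.areaDensity p)

/-- The curve `c : ℝ → ℝ²` is, at the parameter `s`, a geodesic of `g` parametrised by arc length: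
it is `C²` at `s`, has speed `1` at `s` and satisfies at `s` the geodesic equation (the
Euler-Lagrange equation of the energy `1/2 ∫ g(c', c')`)
`d/dt g_{c t}(c' t, w) = 1/2 (D_w g)_{c s}(c' s, c' s)` for every vector `w`. -/
structure IsUnitGeodesicAt (g : RPlane) (c : ℝ → ℝ × ℝ) (s : ℝ) : Prop where
  smooth : ContDiffAt ℝ 2 c s
  speed : g.inn (c s) (deriv c s) (deriv c s) = 1
  eq : ∀ w : ℝ × ℝ, HasDerivAt (fun t => g.inn (c t) (deriv c t) w)
    (1 / 2 * fderiv ℝ (fun p => g.inn p (deriv c s) (deriv c s)) (c s) w) s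

end RPlane

open Classical in
/-- A **geodesic net** in the Riemannian plane `g`: a finite connected graph embedded in the plane
with vertex set `U ∪ B`; the vertices in `U` are the unbalanced ones, those in `B` are the balanced
ones. The edge `i` is the geodesic segment `γ i` on `[0, len i]`, parametrised by arc length, which
starts and ends at vertices; edges do not self-intersect and distinct edges meet only at common end
points. Every balanced vertex has degree at least three, and at every balanced vertex the unit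
tangent vectors of the incident edges, pointing away from the vertex, sum to zero (an edge
contributes its velocity at its start and minus its velocity at its end). Every unbalanced vertex is
an end point of an edge and no edge joins two unbalanced vertices. -/
structure GeodesicNet (g : RPlane) where
  /-- the unbalanced vertices -/
  U : Finset (ℝ × ℝ)
  /-- the balanced vertices -/
  B : Finset (ℝ × ℝ)
  disj : Disjoint U B
  /-- the index type of the edges -/
  ι : Type
  [fin : Fintype ι]
  /-- the edges -/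
  γ : ι → ℝ → ℝ × ℝ
  /-- the lengths of the edges -/
  len : ι → ℝ
  len_pos : ∀ i, 0 < len i
  geodesic : ∀ i, ∀ s ∈ Icc 0 (len i), g.IsUnitGeodesicAt (γ i) s
  start_mem : ∀ i, γ i 0 ∈ U ∪ B
  end_mem : ∀ i, γ i (len i) ∈ U ∪ B
  embedded : ∀ i j, ∀ s ∈ Ioo 0 (len i), ∀ t ∈ Icc 0 (len j), γ i s = γ j t → i = j ∧ s = t
  degree : ∀ v ∈ B, 3 ≤ (Finset.univ.filter fun i => γ i 0 = v).card +
    (Finset.univ.filter fun i => γ i (len i) = v).card
  balanced : ∀ v ∈ B, ∑ i with γ i 0 = v, deriv (γ i) 0 -
    ∑ i with γ i (len i) = v, deriv (γ i) (len i) = 0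
  incident : ∀ v ∈ U, ∃ i, γ i 0 = v ∨ γ i (len i) = v
  no_UU : ∀ i, ¬ (γ i 0 ∈ U ∧ γ i (len i) ∈ U)
  connected : IsConnected (((U ∪ B : Finset (ℝ × ℝ)) : Set (ℝ × ℝ)) ∪ ⋃ i, γ i '' Icc 0 (len i))

attribute [instance] GeodesicNet.fin

/-- the number of edges of a geodesic net -/
def GeodesicNet.numEdges {g : RPlane} (N : GeodesicNet g) : ℕ := Fintype.card N.ι

open Classical in
/-- the degree of the point `v` in the geodesic net `N` (the number of edge ends at `v`) -/
noncomputable def GeodesicNet.deg {g : RPlane} (N : GeodesicNet g) (v : ℝ × ℝ) : ℕ :=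
  (Finset.univ.filter fun i => N.γ i 0 = v).card +
    (Finset.univ.filter fun i => N.γ i (N.len i) = v).card

end Pool.Agent.R750
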