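import Pool.Agent.R750.NetCurve

set_option autoImplicit false

open scoped ContDiff Topology
open Set

namespace Pool.Agent.R750

/-- the sign attached to a Boolean -/
noncomputable def sg (b : Bool) : ℝ := if b then 1 else -1

lemma sg_or (b : Bool) : sg b = 1 ∨ sg b = -1 := by cases b <;> simp [sg]

lemma sg_ne (b : Bool) : sg b ≠ 0 := by cases b <;> simp [sg]

lemma sg_inj {b b' : Bool} {y : ℝ} (hy : y ≠ 0) (h : sg b * y = sg b' * y) : b = b' := by
  have h1 := mul_right_cancel₀ hy h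
  cases b <;> cases b' <;> simp [sg] at h1 ⊢ <;> linarith

namespace Data2

variable (D : Data2) {n : ℕ}

/-- the `k`-th crossing point of the two geodesics -/
noncomputable def P (k : ℕ) : ℝ × ℝ := (D.Xf (k * Real.pi), 0)

/-- the end point of the geodesic with sign `b` -/
noncomputable def A (b : Bool) : ℝ × ℝ := (D.Xf D.T, sg b * D.Yf D.T)

lemma P_inj : Function.Injective D.P := by
  intro j k h
  have h1 : D.Xf (j * Real.pi) = D.Xf (k * Real.pi) := congrArg Prod.fst h
  have h2 := mul_right_cancel₀ Real.pi_pos.ne' (D.Xf_strictMono.injective h1)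
  exact_mod_cast h2

/-- the edges -/
noncomputable def ed (n : ℕ) (i : Fin (n + 1) × Bool) : ℝ → ℝ × ℝ := D.crv (sg i.2) (i.1 * Real.pi)

/-- the lengths of the edges -/
noncomputable def ln (n : ℕ) (i : Fin (n + 1) × Bool) : ℝ :=
  if (i.1 : ℕ) < n then Real.pi else Real.pi / 2

lemma ln_pos (i : Fin (n + 1) × Bool) : 0 < ln n i := by
  unfold ln; split <;> linarith [Real.pi_pos]

lemma ln_le (i : Fin (n + 1) × Bool) : ln n i ≤ Real.pi := by
  unfold ln; split <;> linarith [Real.pi_pos]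

lemma ln_T (hT : D.T = n * Real.pi + Real.pi / 2) (i : Fin (n + 1) × Bool) :
    (i.1 : ℕ) * Real.pi + ln n i ≤ D.T := by
  rw [hT]; unfold ln
  have hp := Real.pi_pos
  split
  · rename_i h
    have : ((i.1 : ℕ) : ℝ) + 1 ≤ n := by exact_mod_cast h
    nlinarith
  · have : ((i.1 : ℕ) : ℝ) ≤ n := by exact_mod_cast Nat.lt_succ_iff.mp i.1.2
    nlinarith

lemma sin_k (k : ℕ) : Real.sin (k * Real.pi) = 0 := Real.sin_nat_mul_pi k

lemma YT_ne (hT : D.T = n * Real.pi + Real.pi / 2) : D.Yf D.T ≠ 0 := by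
  intro h
  have h1 := D.Yf_eq_zero h
  rw [hT, Real.sin_add_pi_div_two, Real.cos_nat_mul_pi] at h1
  exact pow_ne_zero _ (by norm_num) h1

lemma ed_start (i : Fin (n + 1) × Bool) : D.ed n i 0 = D.P i.1 := by
  simp only [ed, crv, P, add_zero]
  rw [D.Yf_of_sin (sin_k _), mul_zero]

lemma ed_end_lt (i : Fin (n + 1) × Bool) (h : (i.1 : ℕ) < n) :
    D.ed n i (ln n i) = D.P (i.1 + 1) := by
  have e : ((i.1 : ℕ) : ℝ) * Real.pi + Real.pi = ((i.1 + 1 : ℕ) : ℝ) * Real.pi := by
    push_cast; ring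
  simp only [ed, crv, P, ln, if_pos h]
  rw [e, D.Yf_of_sin (sin_k _), mul_zero]

lemma ed_end_eq (hT : D.T = n * Real.pi + Real.pi / 2) (i : Fin (n + 1) × Bool)
    (h : ¬ (i.1 : ℕ) < n) : D.ed n i (ln n i) = D.A i.2 := by
  have h1 : (i.1 : ℕ) = n := by have := i.1.2; omega
  simp only [ed, crv, A, ln, if_neg h]
  rw [h1, ← hT]

lemma A_ne_P (hT : D.T = n * Real.pi + Real.pi / 2) (b : Bool) (k : ℕ) : D.A b ≠ D.P k := by
  intro h
  have h1 : sg b * D.Yf D.T = 0 := congrArg Prod.snd h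
  rcases mul_eq_zero.mp h1 with h2 | h2
  · exact sg_ne b h2
  · exact D.YT_ne hT h2

lemma A_inj (hT : D.T = n * Real.pi + Real.pi / 2) {b b' : Bool} (h : D.A b = D.A b') :
    b = b' := sg_inj (D.YT_ne hT) (congrArg Prod.snd h)

open Classical in
/-- the unbalanced vertices -/
noncomputable def UU : Finset (ℝ × ℝ) := {D.P 0, D.A true, D.A false}

open Classical in
/-- the balanced vertices -/
noncomputable def BB (n : ℕ) : Finset (ℝ × ℝ) := (Finset.Icc 1 n).image D.P

lemma mem_UU {v : ℝ × ℝ} : v ∈ D.UU ↔ v = D.P 0 ∨ v = D.A true ∨ v = D.A false := by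
  simp [UU]

lemma mem_BB {v : ℝ × ℝ} : v ∈ D.BB n ↔ ∃ k, (1 ≤ k ∧ k ≤ n) ∧ D.P k = v := by
  simp [BB]

lemma card_UU (hT : D.T = n * Real.pi + Real.pi / 2) : D.UU.card = 3 := by
  classical
  unfold UU
  apply Finset.card_eq_three.mpr
  refine ⟨_, _, _, ?_, ?_, ?_, rfl⟩
  · exact (D.A_ne_P hT _ _).symm
  · exact (D.A_ne_P hT _ _).symm
  · intro h; simpa using D.A_inj hT h

lemma card_BB : (D.BB n).card = n := by
  classical
  unfold BB
  rw [Finset.card_image_of_injective _ D.P_inj]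
  simp

lemma start_iff (i : Fin (n + 1) × Bool) (m : ℕ) (hm : m ≤ n) :
    D.ed n i 0 = D.P m ↔ i = (⟨m, by omega⟩, true) ∨ i = (⟨m, by omega⟩, false) := by
  rw [D.ed_start]
  constructor
  · intro h
    have h1 := D.P_inj h
    obtain ⟨k, b⟩ := i
    cases b
    · right; ext <;> simp_all
    · left; ext <;> simp_all
  · rintro (h | h) <;> rw [h]

lemma end_iff (hT : D.T = n * Real.pi + Real.pi / 2) (i : Fin (n + 1) × Bool) (m : ℕ)
    (hm : m + 1 ≤ n) : D.ed n i (ln n i) = D.P (m + 1) ↔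
      i = (⟨m, by omega⟩, true) ∨ i = (⟨m, by omega⟩, false) := by
  by_cases h : (i.1 : ℕ) < n
  · rw [D.ed_end_lt i h]
    constructor
    · intro h
      have h1 := D.P_inj h
      obtain ⟨k, b⟩ := i
      cases b
      · right; ext <;> simp_all
      · left; ext <;> simp_all
    · rintro (h | h) <;> rw [h]
  · rw [D.ed_end_eq hT i h]
    constructor
    · intro h1
      exact absurd h1 (D.A_ne_P hT _ _)
    · rintro (h1 | h1) <;> rw [h1] at h <;> exact absurd (show m < n by omega) h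

lemma pair_ne (m : Fin (n + 1)) : ((m, true) : Fin (n + 1) × Bool) ≠ (m, false) := by simp

lemma deriv_ed (i : Fin (n + 1) × Bool) (t : ℝ) : deriv (D.ed n i) t =
    (D.c / D.Q ((i.1 : ℕ) * Real.pi + t),
      sg i.2 * (D.s * Real.cos ((i.1 : ℕ) * Real.pi + t) / D.Q ((i.1 : ℕ) * Real.pi + t))) :=
  (D.crv_deriv _ _ t).deriv

lemma connected (hT : D.T = n * Real.pi + Real.pi / 2) :
    IsConnected (({v | v ∈ D.UU ∨ v ∈ D.BB n} : Set (ℝ × ℝ)) ∪
      ⋃ i, D.ed n i '' Icc 0 (ln n i)) := by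
  have hp := Real.pi_pos
  have hT0 := D.hT
  have hset : (({v | v ∈ D.UU ∨ v ∈ D.BB n} : Set (ℝ × ℝ)) ∪ ⋃ i, D.ed n i '' Icc 0 (ln n i)) =
      D.crv 1 0 '' Icc 0 D.T ∪ D.crv (-1) 0 '' Icc 0 D.T := by
    have hP : ∀ k : ℕ, k ≤ n → D.P k ∈ D.crv 1 0 '' Icc 0 D.T := by
      intro k hk
      refine ⟨k * Real.pi, ⟨by positivity, ?_⟩, ?_⟩
      · rw [hT]
        have : (k : ℝ) ≤ n := by exact_mod_cast hk
        nlinarith
      · simp only [crv, P, zero_add]
        rw [D.Yf_of_sin (sin_k _), mul_zero]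
    apply subset_antisymm
    · apply union_subset
      · rintro v (hv | hv)
        · rw [D.mem_UU] at hv
          rcases hv with rfl | rfl | rfl
          · left; exact hP 0 (Nat.zero_le _)
          · left; exact ⟨D.T, ⟨hT0, le_rfl⟩, by simp [crv, A, sg]⟩
          · right; exact ⟨D.T, ⟨hT0, le_rfl⟩, by simp [crv, A, sg]⟩
        · rw [D.mem_BB] at hv
          obtain ⟨k, ⟨_, hk⟩, rfl⟩ := hv
          left; exact hP k hk
      · apply iUnion_subset
        intro i
        rintro _ ⟨t, ⟨ht0, ht1⟩, rfl⟩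
        have h1 := D.ln_T hT i
        have h2 : (i.1 : ℕ) * Real.pi + t ∈ Icc 0 D.T := ⟨by positivity, by linarith⟩
        rcases i with ⟨k, b⟩
        cases b
        · right; exact ⟨_, h2, by simp [crv, ed, sg]⟩
        · left; exact ⟨_, h2, by simp [crv, ed, sg]⟩
    · have key : ∀ b : Bool, D.crv (sg b) 0 '' Icc 0 D.T ⊆ ⋃ i, D.ed n i '' Icc 0 (ln n i) := by
        rintro b _ ⟨t, ⟨ht0, ht1⟩, rfl⟩
        rw [mem_iUnion]
        have hfl : (⌊t / Real.pi⌋₊ : ℝ) ≤ t / Real.pi := Nat.floor_le (by positivity)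
        have hfl2 : t / Real.pi < ⌊t / Real.pi⌋₊ + 1 := Nat.lt_floor_add_one _
        rw [le_div_iff₀ hp] at hfl
        rw [div_lt_iff₀ hp] at hfl2
        have hk : ⌊t / Real.pi⌋₊ ≤ n := by
          by_contra hc
          push Not at hc
          have : (n : ℝ) + 1 ≤ ⌊t / Real.pi⌋₊ := by exact_mod_cast hc
          rw [hT] at ht1
          nlinarith
        refine ⟨(⟨⌊t / Real.pi⌋₊, by omega⟩, b), t - ⌊t / Real.pi⌋₊ * Real.pi, ⟨by linarith, ?_⟩, ?_⟩
        · unfold ln
          split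
          · linarith
          · rename_i h
            have h3 : ⌊t / Real.pi⌋₊ = n := by simp only at h; omega
            rw [h3]
            linarith
        · simp [crv, ed]
      apply union_subset
      · have h1 := key true
        rw [show sg true = 1 by simp [sg]] at h1
        exact Set.Subset.trans h1 subset_union_right
      · have h1 := key false
        rw [show sg false = -1 by simp [sg]] at h1
        exact Set.Subset.trans h1 subset_union_right
  rw [hset]
  have hc : ∀ σ, IsConnected (D.crv σ 0 '' Icc 0 D.T) := fun σ =>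
    (isConnected_Icc hT0).image _ (D.crv_smooth σ 0).continuous.continuousOn
  refine IsConnected.union ⟨D.P 0, ?_, ?_⟩ (hc 1) (hc (-1))
  · exact ⟨0, ⟨le_rfl, hT0⟩, by simp [crv, P, D.Yf_of_sin Real.sin_zero]⟩
  · exact ⟨0, ⟨le_rfl, hT0⟩, by simp [crv, P, D.Yf_of_sin Real.sin_zero]⟩

/-- the geodesic net -/
noncomputable def net (hn : 1 ≤ n) (hT : D.T = n * Real.pi + Real.pi / 2) :
    GeodesicNet D.plane where
  U := D.UU
  B := D.BB n
  disj := by
    rw [Finset.disjoint_left]
    intro v hv hv'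
    rw [D.mem_UU] at hv
    rw [D.mem_BB] at hv'
    obtain ⟨k, hk, rfl⟩ := hv'
    rcases hv with h | h | h
    · have := D.P_inj h; omega
    · exact D.A_ne_P hT _ _ h.symm
    · exact D.A_ne_P hT _ _ h.symm
  ι := Fin (n + 1) × Bool
  γ := D.ed n
  len := ln n
  len_pos := ln_pos
  geodesic := by
    intro i s hs
    have h1 := D.ln_T hT i
    exact D.geodesic (sg_or _) (by have := hs.1; have := Real.pi_pos; positivity)
      (by linarith [hs.2])
  start_mem := by
    intro i
    rw [Finset.mem_union, D.mem_UU, D.mem_BB, D.ed_start]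
    rcases Nat.eq_zero_or_pos (i.1 : ℕ) with h | h
    · left; left; rw [h]
    · right; exact ⟨i.1, ⟨h, by have := i.1.2; omega⟩, rfl⟩
  end_mem := by
    intro i
    rw [Finset.mem_union, D.mem_UU, D.mem_BB]
    by_cases h : (i.1 : ℕ) < n
    · rw [D.ed_end_lt i h]
      right; exact ⟨i.1 + 1, ⟨by omega, by omega⟩, rfl⟩
    · rw [D.ed_end_eq hT i h]
      left; right
      rcases i with ⟨k, b⟩
      cases b <;> simp
  embedded := by
    intro i j s hs t ht h
    have hp := Real.pi_pos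
    have h1 : (i.1 : ℕ) * Real.pi + s = (j.1 : ℕ) * Real.pi + t :=
      D.Xf_strictMono.injective (congrArg Prod.fst h)
    have h2 : sg i.2 * D.Yf ((i.1 : ℕ) * Real.pi + s) = sg j.2 * D.Yf ((j.1 : ℕ) * Real.pi + t) :=
      congrArg Prod.snd h
    have h3 := ln_le i
    have h4 := ln_le j
    have hs0 := hs.1
    have hs1 := hs.2
    have ht0 := ht.1
    have ht1 := ht.2
    have h5 : (i.1 : ℕ) = (j.1 : ℕ) := by
      rcases lt_trichotomy (i.1 : ℕ) (j.1 : ℕ) with h | h | h
      · have : ((i.1 : ℕ) : ℝ) + 1 ≤ ((j.1 : ℕ) : ℝ) := by exact_mod_cast h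
        nlinarith
      · exact h
      · have : ((j.1 : ℕ) : ℝ) + 1 ≤ ((i.1 : ℕ) : ℝ) := by exact_mod_cast h
        nlinarith
    rw [h5] at h1
    have h6 : s = t := by linarith
    rw [h5, h6] at h2
    have h7 : D.Yf ((j.1 : ℕ) * Real.pi + t) ≠ 0 := by
      intro h0
      have h8 := D.Yf_eq_zero h0
      rw [Real.sin_add, Real.sin_nat_mul_pi, Real.cos_nat_mul_pi, zero_mul, zero_add] at h8
      have h9 : Real.sin t = 0 := by
        rcases mul_eq_zero.mp h8 with h | h
        · exact absurd h (pow_ne_zero _ (by norm_num))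
        · exact h
      have h10 : 0 < Real.sin t := Real.sin_pos_of_pos_of_lt_pi (by linarith) (by linarith)
      linarith
    have h8 := sg_inj h7 h2
    exact ⟨Prod.ext (Fin.ext h5) h8, h6⟩
  degree := by
    intro v hv
    rw [D.mem_BB] at hv
    obtain ⟨k, ⟨hk1, hk2⟩, rfl⟩ := hv
    obtain ⟨m, rfl⟩ : ∃ m, k = m + 1 := ⟨k - 1, by omega⟩
    have e1 : (Finset.univ.filter fun i : Fin (n + 1) × Bool => D.ed n i 0 = D.P (m + 1)) =
        {(⟨m + 1, by omega⟩, true), (⟨m + 1, by omega⟩, false)} := by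
      ext i; simp [D.start_iff i (m + 1) hk2]
    have e2 : (Finset.univ.filter fun i : Fin (n + 1) × Bool => D.ed n i (ln n i) = D.P (m + 1)) =
        {(⟨m, by omega⟩, true), (⟨m, by omega⟩, false)} := by
      ext i; simp [D.end_iff hT i m hk2]
    rw [e1, e2, Finset.card_pair (pair_ne _), Finset.card_pair (pair_ne _)]
    norm_num
  balanced := by
    intro v hv
    rw [D.mem_BB] at hv
    obtain ⟨k, ⟨hk1, hk2⟩, rfl⟩ := hv
    obtain ⟨m, rfl⟩ : ∃ m, k = m + 1 := ⟨k - 1, by omega⟩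
    have e1 : (Finset.univ.filter fun i : Fin (n + 1) × Bool => D.ed n i 0 = D.P (m + 1)) =
        {(⟨m + 1, by omega⟩, true), (⟨m + 1, by omega⟩, false)} := by
      ext i; simp [D.start_iff i (m + 1) hk2]
    have e2 : (Finset.univ.filter fun i : Fin (n + 1) × Bool => D.ed n i (ln n i) = D.P (m + 1)) =
        {(⟨m, by omega⟩, true), (⟨m, by omega⟩, false)} := by
      ext i; simp [D.end_iff hT i m hk2]
    rw [e1, e2, Finset.sum_pair (pair_ne _), Finset.sum_pair (pair_ne _)]
    have hm : m < n := by omega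
    have e3 : ((m : ℕ) : ℝ) * Real.pi + Real.pi = ((m + 1 : ℕ) : ℝ) * Real.pi := by
      push_cast; ring
    simp only [D.deriv_ed, ln, if_pos hm, add_zero, e3, sg]
    ext <;> simp
  incident := by
    intro v hv
    rw [D.mem_UU] at hv
    rcases hv with rfl | rfl | rfl
    · exact ⟨(0, true), Or.inl (by rw [D.ed_start]; rfl)⟩
    · exact ⟨(Fin.last n, true), Or.inr (by rw [D.ed_end_eq hT _ (by simp)])⟩
    · exact ⟨(Fin.last n, false), Or.inr (by rw [D.ed_end_eq hT _ (by simp)])⟩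
  no_UU := by
    rintro i ⟨h1, h2⟩
    rw [D.mem_UU] at h1 h2
    rw [D.ed_start] at h1
    have h3 : (i.1 : ℕ) = 0 := by
      rcases h1 with h | h | h
      · exact D.P_inj h
      · exact absurd h.symm (D.A_ne_P hT _ _)
      · exact absurd h.symm (D.A_ne_P hT _ _)
    have h4 : (i.1 : ℕ) < n := by omega
    rw [D.ed_end_lt i h4] at h2
    rcases h2 with h | h | h
    · have := D.P_inj h; omega
    · exact absurd h.symm (D.A_ne_P hT _ _)
    · exact absurd h.symm (D.A_ne_P hT _ _)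
  connected := by
    have := D.connected (n := n) hT
    convert this using 2
    ext v
    simp

end Data2

end Pool.Agent.R750
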