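import Mathlib

set_option autoImplicit false

open scoped ContDiff Topology
open Set

namespace Pool.Agent.R750

/-- primitive vanishing at `0` -/
noncomputable def I1 (h : ℝ → ℝ) (x : ℝ) : ℝ := ∫ s in (0:ℝ)..x, h s

lemma hasDerivAt_I1 {h : ℝ → ℝ} (hh : Continuous h) (x : ℝ) : HasDerivAt (I1 h) (h x) x :=
  intervalIntegral.integral_hasDerivAt_right (hh.intervalIntegrable _ _)
    hh.aestronglyMeasurable.stronglyMeasurableAtFilter hh.continuousAt

lemma contDiff_I1 {h : ℝ → ℝ} (hh : ContDiff ℝ ∞ h) : ContDiff ℝ ∞ (I1 h) := by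
  have h1 : deriv (I1 h) = h := by
    ext x; exact (hasDerivAt_I1 hh.continuous x).deriv
  rw [contDiff_infty_iff_deriv]
  refine ⟨fun x => (hasDerivAt_I1 hh.continuous x).differentiableAt, ?_⟩
  rw [h1]; exact hh

lemma I1_zero (h : ℝ → ℝ) : I1 h 0 = 0 := by simp [I1]

lemma I1_eq_zero {h : ℝ → ℝ} {a x : ℝ} (hz : ∀ t, |t| ≤ a → h t = 0) (hx : |x| ≤ a) :
    I1 h x = 0 := by
  unfold I1
  rw [intervalIntegral.integral_congr (g := fun _ => (0:ℝ))]
  · simp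
  · intro t ht
    apply hz
    have h2 : |t| ≤ |x| := by
      rcases le_total 0 x with h0 | h0
      · rw [uIcc_of_le h0] at ht
        rw [abs_of_nonneg ht.1, abs_of_nonneg h0]; exact ht.2
      · rw [uIcc_of_ge h0] at ht
        rw [abs_of_nonpos ht.2, abs_of_nonpos h0]; linarith [ht.1]
    linarith

/-- second primitive -/
noncomputable def I2 (h : ℝ → ℝ) : ℝ → ℝ := I1 (I1 h)

lemma contDiff_I2 {h : ℝ → ℝ} (hh : ContDiff ℝ ∞ h) : ContDiff ℝ ∞ (I2 h) :=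
  contDiff_I1 (contDiff_I1 hh)

lemma hasDerivAt_I2 {h : ℝ → ℝ} (hh : ContDiff ℝ ∞ h) (x : ℝ) : HasDerivAt (I2 h) (I1 h x) x :=
  hasDerivAt_I1 (contDiff_I1 hh).continuous x

lemma I2_eq_zero {h : ℝ → ℝ} {a x : ℝ} (hz : ∀ t, |t| ≤ a → h t = 0) (hx : |x| ≤ a) :
    I2 h x = 0 :=
  I1_eq_zero (fun _ ht => I1_eq_zero hz ht) hx

lemma I1_neg {h : ℝ → ℝ} (he : ∀ t, h (-t) = h t) (x : ℝ) : I1 h (-x) = - I1 h x := by
  unfold I1
  have := intervalIntegral.integral_comp_neg (a := 0) (b := x) h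
  rw [neg_zero] at this
  rw [intervalIntegral.integral_symm, ← this]
  simp [he]

lemma I1_even {h : ℝ → ℝ} (he : ∀ t, h (-t) = - h t) (x : ℝ) : I1 h (-x) = I1 h x := by
  unfold I1
  have := intervalIntegral.integral_comp_neg (a := 0) (b := x) h
  rw [neg_zero] at this
  rw [intervalIntegral.integral_symm, ← this]
  simp [he]

lemma I2_even {h : ℝ → ℝ} (he : ∀ t, h (-t) = h t) (x : ℝ) : I2 h (-x) = I2 h x :=
  I1_even (I1_neg he) x

lemma I1_nonneg {h : ℝ → ℝ} (h0 : ∀ t, 0 ≤ t → 0 ≤ h t) {x : ℝ} (hx : 0 ≤ x) : 0 ≤ I1 h x := by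
  unfold I1
  exact intervalIntegral.integral_nonneg hx fun t ht => h0 t ht.1

lemma I1_le {h : ℝ → ℝ} (hh : Continuous h) {f : ℝ → ℝ} (hf : Continuous f)
    (h0 : ∀ t, 0 ≤ t → h t ≤ f t) {x : ℝ} (hx : 0 ≤ x) : I1 h x ≤ I1 f x := by
  unfold I1
  exact intervalIntegral.integral_mono_on hx (hh.intervalIntegrable _ _)
    (hf.intervalIntegrable _ _) fun t ht => h0 t ht.1

lemma I2_nonneg {h : ℝ → ℝ} (h0 : ∀ t, 0 ≤ h t) (he : ∀ t, h (-t) = h t) (x : ℝ) :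
    0 ≤ I2 h x := by
  rcases le_total 0 x with hx | hx
  · exact I1_nonneg (fun t ht => I1_nonneg (fun s _ => h0 s) ht) hx
  · have := I2_even he x
    rw [← this]
    exact I1_nonneg (fun t ht => I1_nonneg (fun s _ => h0 s) ht) (by linarith)

/-- an even smooth cut-off function -/
lemma exists_bump {a b : ℝ} (ha : 0 < a) (hab : a < b) : ∃ f : ℝ → ℝ, ContDiff ℝ ∞ f ∧
    (∀ t, |t| ≤ a → f t = 1) ∧ (∀ t, b ≤ |t| → f t = 0) ∧ (∀ t, 0 ≤ f t) ∧ (∀ t, f t ≤ 1) ∧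
    ∀ t, f (-t) = f t := by
  let φ : ContDiffBump (0:ℝ) := ⟨a, b, ha, hab⟩
  refine ⟨φ, φ.contDiff, fun t ht => φ.one_of_mem_closedBall ?_, fun t ht => ?_,
    fun t => φ.nonneg, fun t => φ.le_one, fun t => φ.neg t⟩
  · simpa using ht
  · apply φ.zero_of_le_dist
    simpa using ht

/-- the function `1/cosh²` -/
noncomputable def sq (y : ℝ) : ℝ := (Real.cosh y ^ 2)⁻¹

lemma sq_pos (y : ℝ) : 0 < sq y := by unfold sq; positivity

lemma sq_le (y : ℝ) : sq y ≤ 1 := by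
  unfold sq
  apply inv_le_one_of_one_le₀
  have := Real.one_le_cosh y
  nlinarith

lemma sq_even (y : ℝ) : sq (-y) = sq y := by simp [sq]

lemma contDiff_sq : ContDiff ℝ ∞ sq := by
  have h : ContDiff ℝ ∞ (fun y : ℝ => (Real.cosh y ^ 2)⁻¹) :=
    (Real.contDiff_cosh.pow 2).inv fun x => (pow_pos (Real.cosh_pos x) 2).ne'
  exact h

lemma hasDerivAt_tanh (y : ℝ) : HasDerivAt Real.tanh (sq y) y := by
  have h1 : Real.tanh = fun y => Real.sinh y / Real.cosh y := by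
    ext x; exact Real.tanh_eq_sinh_div_cosh x
  rw [h1]
  have := (Real.hasDerivAt_sinh y).div (Real.hasDerivAt_cosh y) (Real.cosh_pos y).ne'
  refine this.congr_deriv ?_
  unfold sq
  have h2 := Real.cosh_sq y
  field_simp
  linarith

lemma hasDerivAt_logcosh (y : ℝ) :
    HasDerivAt (fun y => Real.log (Real.cosh y)) (Real.tanh y) y := by
  have := (Real.hasDerivAt_cosh y).log (Real.cosh_pos y).ne'
  rwa [← Real.tanh_eq_sinh_div_cosh] at this

lemma sq_eq (y : ℝ) : sq y = 1 - Real.tanh y ^ 2 := by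
  rw [Real.tanh_eq_sinh_div_cosh]
  unfold sq
  have h2 := Real.cosh_sq y
  field_simp
  linarith

end Pool.Agent.R750
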