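import Pool.Agent.R750.NetDefs
import Pool.Agent.R750.NetFun

set_option autoImplicit false

open scoped ContDiff Topology
open Set MeasureTheory

namespace Pool.Agent.R750

lemma I1_congr {h h' : ℝ → ℝ} {a x : ℝ} (hz : ∀ t, |t| ≤ a → h t = h' t) (hx : |x| ≤ a) :
    I1 h x = I1 h' x := by
  unfold I1
  apply intervalIntegral.integral_congr
  intro t ht
  apply hz
  have h2 : |t| ≤ |x| := by
    rcases le_total 0 x with h0 | h0
    · rw [uIcc_of_le h0] at ht
      rw [abs_of_nonneg ht.1, abs_of_nonneg h0]; exact ht.2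
    · rw [uIcc_of_ge h0] at ht
      rw [abs_of_nonpos ht.2, abs_of_nonpos h0]; linarith [ht.1]
  linarith

lemma I2_congr {h h' : ℝ → ℝ} {a x : ℝ} (hz : ∀ t, |t| ≤ a → h t = h' t) (hx : |x| ≤ a) :
    I2 h x = I2 h' x :=
  I1_congr (fun _ ht => I1_congr hz ht) hx

lemma I1_of_hasDerivAt {f h : ℝ → ℝ} (hd : ∀ t, HasDerivAt f (h t) t) (hc : Continuous h)
    (h0 : f 0 = 0) (x : ℝ) : I1 h x = f x := by
  unfold I1
  rw [intervalIntegral.integral_eq_sub_of_hasDerivAt (fun t _ => hd t)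
    (hc.intervalIntegrable _ _), h0, sub_zero]

lemma I2_sq (x : ℝ) : I2 (fun t => - sq t) x = - Real.log (Real.cosh x) := by
  have h1 : I1 (fun t => - sq t) = fun x => - Real.tanh x := by
    ext x
    exact I1_of_hasDerivAt (fun t => (hasDerivAt_tanh t).neg) contDiff_sq.continuous.neg
      (by simp) x
  unfold I2
  rw [h1]
  exact I1_of_hasDerivAt (fun t => (hasDerivAt_logcosh t).neg)
    (by
      have : Continuous Real.tanh := by
        rw [continuous_iff_continuousAt]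
        exact fun t => (hasDerivAt_tanh t).continuousAt
      exact this.neg) (by simp) x

/-- The data of the construction. -/
structure Data where
  X : ℝ
  δ : ℝ
  hX : 0 < X
  hδ : 0 < δ
  hδ' : δ ≤ 1 / 4
  ψ : ℝ → ℝ
  χ : ℝ → ℝ
  ψs : ContDiff ℝ ∞ ψ
  χs : ContDiff ℝ ∞ χ
  ψ1 : ∀ t, |t| ≤ X → ψ t = 1
  ψ0 : ∀ t, X + 1 ≤ |t| → ψ t = 0
  ψnn : ∀ t, 0 ≤ ψ t
  ψle : ∀ t, ψ t ≤ 1
  ψe : ∀ t, ψ (-t) = ψ t
  χ1 : ∀ t, |t| ≤ δ → χ t = 1
  χ0 : ∀ t, 2 * δ ≤ |t| → χ t = 0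
  χnn : ∀ t, 0 ≤ χ t
  χle : ∀ t, χ t ≤ 1
  χe : ∀ t, χ (-t) = χ t

lemma exists_data {X δ : ℝ} (hX : 0 < X) (hδ : 0 < δ) (hδ' : δ ≤ 1 / 4) :
    ∃ D : Data, D.X = X ∧ D.δ = δ := by
  obtain ⟨ψ, a1, a2, a3, a4, a5, a6⟩ := exists_bump hX (lt_add_one X)
  obtain ⟨χ, b1, b2, b3, b4, b5, b6⟩ := exists_bump hδ (show δ < 2 * δ by linarith)
  exact ⟨⟨X, δ, hX, hδ, hδ', ψ, χ, a1, b1, a2, a3, a4, a5, a6, b2, b3, b4, b5, b6⟩, rfl, rfl⟩

namespace Data

variable (D : Data)

/-- second derivative of the part of the conformal exponent depending on `x` -/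
noncomputable def hv (t : ℝ) : ℝ := 1 - D.ψ t

/-- second derivative of the part of the conformal exponent depending on `y` -/
noncomputable def hw (t : ℝ) : ℝ := 1 - D.χ t * (1 + sq t)

lemma hv_smooth : ContDiff ℝ ∞ D.hv := contDiff_const.sub D.ψs

lemma hw_smooth : ContDiff ℝ ∞ D.hw := contDiff_const.sub (D.χs.mul (contDiff_const.add contDiff_sq))

lemma hv_nonneg (t : ℝ) : 0 ≤ D.hv t := by have := D.ψle t; unfold hv; linarith

lemma hw_ge (t : ℝ) : 1 - 2 * D.χ t ≤ D.hw t := by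
  unfold hw; nlinarith [D.χnn t, sq_le t, sq_pos t]

lemma hw_ge' (t : ℝ) : -1 ≤ D.hw t := by
  have := D.hw_ge t; have := D.χle t; linarith

/-- the part of the conformal exponent depending on `x` -/
noncomputable def v : ℝ → ℝ := I2 D.hv

/-- the part of the conformal exponent depending on `y` -/
noncomputable def w : ℝ → ℝ := I2 D.hw

lemma v_smooth : ContDiff ℝ ∞ D.v := contDiff_I2 D.hv_smooth

lemma w_smooth : ContDiff ℝ ∞ D.w := contDiff_I2 D.hw_smooth

lemma v_nonneg (x : ℝ) : 0 ≤ D.v x :=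
  I2_nonneg D.hv_nonneg (fun t => by simp [hv, D.ψe]) x

lemma v_zero {x : ℝ} (hx : |x| ≤ D.X) : D.v x = 0 :=
  I2_eq_zero (fun t ht => by simp [hv, D.ψ1 t ht]) hx

lemma w_strip {y : ℝ} (hy : |y| ≤ D.δ) : D.w y = - Real.log (Real.cosh y) := by
  rw [← I2_sq]
  exact I2_congr (fun t ht => by simp [hw, D.χ1 t ht]) hy

lemma I1χ_le {x : ℝ} (hx : 0 ≤ x) : I1 D.χ x ≤ 2 * D.δ := by
  have hδ := D.hδ
  have hc := D.χs.continuous
  rcases le_total x (2 * D.δ) with h | h
  · have h1 : I1 D.χ x ≤ I1 (fun _ => (1:ℝ)) x :=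
      I1_le hc continuous_const (fun t _ => D.χle t) hx
    have h2 : I1 (fun _ => (1:ℝ)) x = x := by simp [I1]
    linarith
  · have h1 : I1 D.χ x = I1 D.χ (2 * D.δ) + ∫ t in (2 * D.δ)..x, D.χ t := by
      unfold I1
      rw [intervalIntegral.integral_add_adjacent_intervals] <;>
        exact hc.intervalIntegrable _ _
    have h2 : ∫ t in (2 * D.δ)..x, D.χ t = 0 := by
      rw [intervalIntegral.integral_congr (g := fun _ => (0:ℝ))]
      · simp
      · intro t ht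
        rw [uIcc_of_le h] at ht
        exact D.χ0 t (le_trans ht.1 (le_abs_self t))
    have h3 : I1 D.χ (2 * D.δ) ≤ I1 (fun _ => (1:ℝ)) (2 * D.δ) :=
      I1_le hc continuous_const (fun t _ => D.χle t) (by linarith)
    have h4 : I1 (fun _ => (1:ℝ)) (2 * D.δ) = 2 * D.δ := by simp [I1]
    linarith

lemma w'_ge {x : ℝ} (hx : 0 ≤ x) : x - 4 * D.δ ≤ I1 D.hw x := by
  have hc := D.χs.continuous
  have h1 : I1 (fun t => 1 - 2 * D.χ t) x ≤ I1 D.hw x :=
    I1_le (by fun_prop) D.hw_smooth.continuous (fun t _ => D.hw_ge t) hx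
  have h2 : I1 (fun t => 1 - 2 * D.χ t) x = x - 2 * I1 D.χ x := by
    unfold I1
    rw [intervalIntegral.integral_sub (by simp) ((hc.const_mul _).intervalIntegrable _ _)]
    simp
  have := D.I1χ_le hx
  linarith

lemma w_ge (y : ℝ) : -(1 / 2) ≤ D.w y := by
  have hδ := D.hδ
  have hδ' := D.hδ'
  have key : ∀ y, 0 ≤ y → -(1 / 2) ≤ D.w y := by
    intro y hy
    have h1 : I1 (fun t => t - 4 * D.δ) y ≤ I1 (I1 D.hw) y :=
      I1_le (by fun_prop) (contDiff_I1 D.hw_smooth).continuous (fun t ht => D.w'_ge ht) hy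
    have h2 : I1 (fun t => t - 4 * D.δ) y = y ^ 2 / 2 - 4 * D.δ * y := by
      unfold I1
      rw [intervalIntegral.integral_sub (by simp) (by simp)]
      simp
      ring
    have h3 : I1 (I1 D.hw) y = D.w y := rfl
    nlinarith [sq_nonneg (y - 4 * D.δ)]
  rcases le_total 0 y with hy | hy
  · exact key y hy
  · have := I2_even (h := D.hw) (fun t => by simp [hw, D.χe, sq_even]) y
    have h2 := key (-y) (by linarith)
    unfold w at h2 ⊢
    rwa [this] at h2

/-- the conformal factor `e^{2u}` -/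
noncomputable def lam (p : ℝ × ℝ) : ℝ := Real.exp (2 * (D.v p.1 + D.w p.2))

lemma lam_pos (p : ℝ × ℝ) : 0 < D.lam p := Real.exp_pos _

lemma lam_smooth : ContDiff ℝ ∞ D.lam := by
  have h1 : ContDiff ℝ ∞ fun p : ℝ × ℝ => D.v p.1 := D.v_smooth.comp contDiff_fst
  have h2 : ContDiff ℝ ∞ fun p : ℝ × ℝ => D.w p.2 := D.w_smooth.comp contDiff_snd
  exact (contDiff_const.mul (h1.add h2)).exp

lemma lam_ge (p : ℝ × ℝ) : 1 / 4 ≤ D.lam p := by
  have h1 := D.v_nonneg p.1
  have h2 := D.w_ge p.2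
  have h3 : Real.exp (-1) ≤ D.lam p := Real.exp_le_exp.mpr (by linarith)
  have h4 : (1 : ℝ) / 4 ≤ Real.exp (-1) := by
    rw [Real.exp_neg, ← one_div]
    apply one_div_le_one_div_of_le (Real.exp_pos 1)
    linarith [Real.exp_one_lt_d9]
  linarith

lemma lam_strip {p : ℝ × ℝ} (hx : |p.1| ≤ D.X) (hy : |p.2| ≤ D.δ) : D.lam p = sq p.2 := by
  unfold lam
  rw [D.v_zero hx, D.w_strip hy, zero_add]
  have hc := Real.cosh_pos p.2
  rw [show 2 * -Real.log (Real.cosh p.2) = -(2 * Real.log (Real.cosh p.2)) by ring, Real.exp_neg,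
    show (2:ℝ) * Real.log (Real.cosh p.2) = Real.log (Real.cosh p.2 ^ 2) by
      rw [Real.log_pow]; norm_num, Real.exp_log (by positivity)]
  rfl

/-- the Riemannian plane `e^{2u} (dx² + dy²)` -/
noncomputable def plane : RPlane where
  E := D.lam
  F := fun _ => 0
  G := D.lam
  smooth_E := D.lam_smooth
  smooth_F := contDiff_const
  smooth_G := D.lam_smooth
  pos := fun p => ⟨D.lam_pos p, by
    have := D.lam_pos p
    show 0 < D.lam p * D.lam p - 0 ^ 2
    nlinarith⟩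

lemma dx_lam (p : ℝ × ℝ) : dx D.lam p = 2 * I1 D.hv p.1 * D.lam p := by
  unfold dx lam
  have h1 : HasDerivAt D.v (I1 D.hv p.1) p.1 := hasDerivAt_I2 D.hv_smooth p.1
  have h2 := ((h1.add_const (D.w p.2)).const_mul 2).exp
  rw [HasDerivAt.deriv h2]
  ring

lemma dy_lam (p : ℝ × ℝ) : dy D.lam p = 2 * I1 D.hw p.2 * D.lam p := by
  unfold dy lam
  have h1 : HasDerivAt D.w (I1 D.hw p.2) p.2 := hasDerivAt_I2 D.hw_smooth p.2
  have h2 := ((h1.const_add (D.v p.1)).const_mul 2).exp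
  rw [HasDerivAt.deriv h2]
  ring

lemma dxx_lam (p : ℝ × ℝ) :
    dx (dx D.lam) p = (2 * D.hv p.1 + 4 * (I1 D.hv p.1) ^ 2) * D.lam p := by
  have h0 : dx D.lam = fun p => 2 * I1 D.hv p.1 * D.lam p := by ext p; exact D.dx_lam p
  rw [h0]
  unfold dx
  have h1 : HasDerivAt D.v (I1 D.hv p.1) p.1 := hasDerivAt_I2 D.hv_smooth p.1
  have h2 := ((h1.add_const (D.w p.2)).const_mul 2).exp
  have h3 := ((hasDerivAt_I1 D.hv_smooth.continuous p.1).const_mul 2).mul h2
  have h4 : (fun t => 2 * I1 D.hv (t, p.2).1 * D.lam (t, p.2)) =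
      ((fun y => 2 * I1 D.hv y) * fun y => Real.exp (2 * (D.v y + D.w p.2))) := by
    ext t; rfl
  rw [h4, h3.deriv]
  unfold lam
  ring

lemma dyy_lam (p : ℝ × ℝ) :
    dy (dy D.lam) p = (2 * D.hw p.2 + 4 * (I1 D.hw p.2) ^ 2) * D.lam p := by
  have h0 : dy D.lam = fun p => 2 * I1 D.hw p.2 * D.lam p := by ext p; exact D.dy_lam p
  rw [h0]
  unfold dy
  have h1 : HasDerivAt D.w (I1 D.hw p.2) p.2 := hasDerivAt_I2 D.hw_smooth p.2
  have h2 := ((h1.const_add (D.v p.1)).const_mul 2).exp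
  have h3 := ((hasDerivAt_I1 D.hw_smooth.continuous p.2).const_mul 2).mul h2
  have h4 : (fun t => 2 * I1 D.hw (p.1, t).2 * D.lam (p.1, t)) =
      ((fun y => 2 * I1 D.hw y) * fun y => Real.exp (2 * (D.v p.1 + D.w y))) := by
    ext t; rfl
  rw [h4, h3.deriv]
  unfold lam
  ring

lemma curv (p : ℝ × ℝ) : D.plane.K p = -(D.hv p.1 + D.hw p.2) / D.lam p := by
  have hl := (D.lam_pos p).ne'
  have e1 : dy (fun _ : ℝ × ℝ => (0:ℝ)) = fun _ => 0 := by ext q; simp [dy]
  have e2 : dx (fun _ : ℝ × ℝ => (0:ℝ)) = fun _ => 0 := by ext q; simp [dx]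
  unfold RPlane.K
  simp only [plane, Matrix.det_fin_three, Matrix.of_apply, Matrix.cons_val', Matrix.cons_val_zero,
    Matrix.cons_val_one, Matrix.cons_val, e1, e2, D.dx_lam, D.dy_lam, D.dxx_lam, D.dyy_lam]
  field_simp
  ring

lemma area (p : ℝ × ℝ) : D.plane.areaDensity p = D.lam p := by
  unfold RPlane.areaDensity
  simp only [plane]
  rw [show D.lam p * D.lam p - 0 ^ 2 = D.lam p ^ 2 by ring, Real.sqrt_sq (D.lam_pos p).le]

lemma total : D.plane.totalPosCurv ≤ ENNReal.ofReal (8 * D.δ * (D.X + 1)) := by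
  have hX := D.hX
  have hδ := D.hδ
  let R : Set (ℝ × ℝ) := Icc (-(D.X + 1)) (D.X + 1) ×ˢ Icc (-(2 * D.δ)) (2 * D.δ)
  have h1 : D.plane.totalPosCurv ≤ ∫⁻ p : ℝ × ℝ, R.indicator (fun _ => 1) p := by
    unfold RPlane.totalPosCurv
    apply lintegral_mono
    intro p
    show ENNReal.ofReal (max (D.plane.K p) 0 * D.plane.areaDensity p) ≤ _
    rw [D.curv, D.area]
    have hl := D.lam_pos p
    have e : max (-(D.hv p.1 + D.hw p.2) / D.lam p) 0 * D.lam p =
        max (-(D.hv p.1 + D.hw p.2)) 0 := by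
      rw [max_mul_of_nonneg _ _ hl.le, zero_mul, div_mul_cancel₀ _ hl.ne']
    simp only [e]
    by_cases hp : p ∈ R
    · rw [indicator_of_mem hp]
      have : max (-(D.hv p.1 + D.hw p.2)) 0 ≤ 1 := by
        have := D.hv_nonneg p.1
        have := D.hw_ge' p.2
        apply max_le <;> linarith
      calc _ ≤ ENNReal.ofReal 1 := ENNReal.ofReal_le_ofReal this
        _ = 1 := ENNReal.ofReal_one
    · rw [indicator_of_notMem hp]
      have : max (-(D.hv p.1 + D.hw p.2)) 0 = 0 := by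
        apply max_eq_right
        by_cases hx : |p.1| ≤ D.X + 1
        · have hy : 2 * D.δ ≤ |p.2| := by
            by_contra hy
            push Not at hy
            exact hp ⟨abs_le.mp hx, abs_le.mp hy.le⟩
          have h1 := D.hv_nonneg p.1
          have h2 : D.hw p.2 = 1 := by simp [hw, D.χ0 _ hy]
          rw [h2]; linarith
        · push Not at hx
          have h1 : D.hv p.1 = 1 := by simp [hv, D.ψ0 _ hx.le]
          have h2 := D.hw_ge' p.2
          rw [h1]; linarith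
      rw [this]; simp
  refine h1.trans ?_
  have hm : MeasurableSet R := measurableSet_Icc.prod measurableSet_Icc
  rw [lintegral_indicator_const hm, one_mul, Measure.volume_eq_prod, Measure.prod_prod,
    Real.volume_Icc, Real.volume_Icc, ← ENNReal.ofReal_mul (by linarith)]
  apply ENNReal.ofReal_le_ofReal
  nlinarith

end Data

end Pool.Agent.R750
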