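import Mathlib

/-!
# Coordinate-plane projection areas of convex bodies in `ℝ⁵`: definitions
-/

namespace R750.PA

/-- five-dimensional Euclidean space -/
abbrev E5 := EuclideanSpace ℝ (Fin 5)

/-- the orthogonal projection onto the coordinate plane spanned by `e_i`, `e_j` -/
def coordProj (i j : Fin 5) (x : E5) : ℝ × ℝ := (x i, x j)

/-- `q` is realizable: some convex body (nonempty compact convex set) in `ℝ⁵` has
coordinate-plane projection areas `q i j`, `i < j`. Only the values `q i j`, `i < j`, are used. -/
def Realizable (q : Fin 5 → Fin 5 → ℝ) : Prop :=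
  ∃ A : Set E5, A.Nonempty ∧ IsCompact A ∧ Convex ℝ A ∧
    ∀ i j, i < j → MeasureTheory.volume (coordProj i j '' A) = ENNReal.ofReal (q i j)

/-- the symmetric matrix with zero diagonal attached to `q` -/
def Qmat (q : Fin 5 → Fin 5 → ℝ) : Matrix (Fin 5) (Fin 5) ℝ :=
  fun i j => if i < j then q i j else if j < i then q j i else 0

/-- A real symmetric matrix with at most one positive eigenvalue (counted with multiplicity). -/
def AtMostOnePosEigenvalue {n : ℕ} (M : Matrix (Fin n) (Fin n) ℝ) : Prop :=
  ∃ hM : M.IsHermitian, (Finset.univ.filter fun i => 0 < hM.eigenvalues i).card ≤ 1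

/-- The pentagon vector: area `2` on the five cyclically adjacent pairs of indices (addition in
`Fin 5` is modulo 5), area `5` on the other five pairs. -/
noncomputable def pent (i j : Fin 5) : ℝ := if j = i + 1 ∨ i = j + 1 then 2 else 5

end R750.PA
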