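import Pool.Agent.R750.PAMeasure

namespace R750.PA

open Set MeasureTheory intervalIntegral

theorem algebra_step {F G H E I J : ℝ} (hF : 0 < F) (hG : 0 < G) (hH : 0 < H)
    (h1 : G ^ 2 * E ≤ 2 * J * I) (h2 : E ≤ F * H) (h3 : F * G / 2 ≤ I) (h4 : G * H / 2 ≤ J) :
    G * (E - F * H / 2) ≤ (31 / 25) * (H * (I - F * G / 2) + F * (J - G * H / 2)) := by
  obtain ⟨a, rfl⟩ : ∃ a, I = F * G * a := ⟨I / (F * G), by field_simp⟩
  obtain ⟨b, rfl⟩ : ∃ b, J = G * H * b := ⟨J / (G * H), by field_simp⟩
  obtain ⟨e, rfl⟩ : ∃ e, E = F * H * e := ⟨E / (F * H), by field_simp⟩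
  have hFG : 0 < F * G := mul_pos hF hG
  have hGH : 0 < G * H := mul_pos hG hH
  have hFH : 0 < F * H := mul_pos hF hH
  have ha : 1 / 2 ≤ a := by
    by_contra hcon
    push Not at hcon
    nlinarith
  have hb : 1 / 2 ≤ b := by
    by_contra hcon
    push Not at hcon
    nlinarith
  have he1 : e ≤ 1 := by
    by_contra hcon
    push Not at hcon
    nlinarith
  have he2 : e ≤ 2 * a * b := by
    have hK : 0 < G ^ 2 * (F * H) := by positivity
    by_contra hcon
    push Not at hcon
    have := mul_lt_mul_of_pos_left hcon hK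
    nlinarith
  have key : e - 1 / 2 ≤ (31 / 25) * (a + b - 1) := by
    rcases le_or_gt (a + b - 1) (48 / 100) with h | h
    · nlinarith [sq_nonneg (a - b), mul_nonneg (show 0 ≤ a + b - 1 by linarith)
        (show 0 ≤ 48 / 100 - (a + b - 1) by linarith)]
    · nlinarith
  have hFGH : 0 < F * G * H := by positivity
  have := mul_le_mul_of_nonneg_left key hFGH.le
  nlinarith [this]

variable {E : Type*} [AddCommGroup E] [Module ℝ E] [TopologicalSpace E]
variable {A : Set E} {f g h : E →L[ℝ] ℝ}

theorem half_env (hA : Convex ℝ A) (hc : IsCompact A) (hne : A.Nonempty) (hg : 0 < wid A g)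
    (f : E →L[ℝ] ℝ) :
    wid A f * wid A g / 2 ≤ ∫ x in (low f A)..(-low (-f) A), (-low (-g) A - env A f g x) := by
  obtain ⟨c, hcm, hce⟩ := env_attains (f := f) (g := g) hc hne
  have hlt : low g A < -low (-g) A := by unfold wid at hg; linarith
  obtain ⟨-, -, i3⟩ := one_sided hcm hlt (env_convexOn (g := g) hA hc hne) hce
    (fun x hx => env_mem hA hc hne hx) (R := fun _ => (1 : ℝ))
    (concaveOn_const 1 (convex_Icc _ _)) (fun _ _ _ _ _ => le_rfl) zero_le_one
  simp only [intervalIntegral.integral_const, smul_eq_mul, mul_one] at i3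
  have e1 : -low (-g) A - low g A = wid A g := rfl
  have e2 : -low (-f) A - low f A = wid A f := rfl
  rw [e1, e2] at i3
  have : wid A g * (wid A g * wid A f) ≤ wid A g * (2 *
      ∫ x in (low f A)..(-low (-f) A), (-low (-g) A - env A f g x)) := by
    nlinarith
  have := le_of_mul_le_mul_left this hg
  linarith

theorem half_len (hA : Convex ℝ A) (hc : IsCompact A) (hne : A.Nonempty) (hg : 0 < wid A g)
    (h : E →L[ℝ] ℝ) :
    wid A g * wid A h / 2 ≤ ∫ t in (low g A)..(-low (-g) A), len A g h t := by
  have hlt : low g A < -low (-g) A := by unfold wid at hg; linarith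
  have hR1 := len_concaveOn (g := g) (h := h) hA hc hne
  have hR2 := len_antitoneOn (g := g) (h := h) hc hne
  have hR3 := len_nonneg (g := g) (h := h) hc hne le_rfl
  obtain ⟨-, -, i3⟩ := one_sided (p := 0) (q := 1) (c := 0) ⟨le_rfl, zero_le_one⟩ hlt
    (G := fun _ => low g A) (convexOn_const _ (convex_Icc _ _)) rfl
    (fun x _ => ⟨le_rfl, hlt.le⟩) hR1 hR2 hR3
  rw [len_bot hc] at i3
  simp only [intervalIntegral.integral_const, smul_eq_mul, sub_zero, one_mul] at i3
  have e1 : -low (-g) A - low g A = wid A g := rfl
  rw [e1] at i3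
  have : wid A g * (wid A g * wid A h) ≤ wid A g * (2 *
      ∫ t in (low g A)..(-low (-g) A), len A g h t) := by
    nlinarith
  have := le_of_mul_le_mul_left this hg
  linarith

/-- **Triple inequality** for the areas of the three joint images of a convex body under three
functionals. -/
theorem triple (hA : Convex ℝ A) (hc : IsCompact A) (hne : A.Nonempty)
    (hf : 0 < wid A f) (hg : 0 < wid A g) (hh : 0 < wid A h) :
    wid A g * (volume (pairIm A f h)).toReal ≤
      (31 / 25) * (wid A h * (volume (pairIm A f g)).toReal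
        + wid A f * (volume (pairIm A g h)).toReal) := by
  have hwn : wid A (-g) = wid A g := by unfold wid; rw [neg_neg]; ring
  obtain ⟨i1, i2, i3, i4⟩ := body_one_sided hA hc hne hg f h
  obtain ⟨j1, j2, j3, j4⟩ := body_one_sided (g := -g) hA hc hne (by rw [hwn]; exact hg) f h
  have hI1 := half_env hA hc hne hg f
  have hI2 := half_env (g := -g) hA hc hne (by rw [hwn]; exact hg) f
  have hJ1 := half_len hA hc hne hg h
  have hJ2 := half_len (g := -g) hA hc hne (by rw [hwn]; exact hg) h
  rw [hwn] at j4 hI2 hJ2
  rw [neg_neg] at j3 j4 hI2 hJ2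
  have efle : low f A ≤ -low (-f) A := by unfold wid at hf; linarith
  have egle : low g A ≤ -low (-g) A := by unfold wid at hg; linarith
  set I1 := ∫ x in (low f A)..(-low (-f) A), (-low (-g) A - env A f g x) with hI1d
  set I2 := ∫ x in (low f A)..(-low (-f) A), (-low g A - env A f (-g) x) with hI2d
  set J1 := ∫ t in (low g A)..(-low (-g) A), len A g h t with hJ1d
  set J2 := ∫ t in (low (-g) A)..(-low g A), len A (-g) h t with hJ2d
  set E1 := ∫ x in (low f A)..(-low (-f) A), len A g h (env A f g x) with hE1d
  set E2 := ∫ x in (low f A)..(-low (-f) A), len A (-g) h (env A f (-g) x) with hE2d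
  have ef : -low (-f) A - low f A = wid A f := rfl
  have eg : -low (-g) A - low g A = wid A g := rfl
  -- upper bounds for E
  have hE1 : E1 ≤ wid A f * wid A h := by
    have h1 : E1 ≤ ∫ _x in (low f A)..(-low (-f) A), wid A h := by
      apply intervalIntegral.integral_mono_on efle i2 (continuous_const.intervalIntegrable _ _)
      intro x hx
      exact len_le_wid hc hne (env_mem (g := g) hA hc hne hx).2
    rwa [intervalIntegral.integral_const, smul_eq_mul, ef] at h1
  have hE2 : E2 ≤ wid A f * wid A h := by
    have h1 : E2 ≤ ∫ _x in (low f A)..(-low (-f) A), wid A h := by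
      apply intervalIntegral.integral_mono_on efle j2 (continuous_const.intervalIntegrable _ _)
      intro x hx
      exact len_le_wid hc hne (env_mem (g := -g) hA hc hne hx).2
    rwa [intervalIntegral.integral_const, smul_eq_mul, ef] at h1
  have s1 := algebra_step hf hg hh i4 hE1 hI1 hJ1
  have s2 := algebra_step hf hg hh j4 hE2 hI2 hJ2
  have hfin : ∀ f g : E →L[ℝ] ℝ, volume (pairIm A f g) ≠ ⊤ := fun f g =>
    (pairIm_compact hc).measure_ne_top
  have cc : ∀ (r u v : ℝ), IntervalIntegrable (fun _ : ℝ => r) volume u v := fun r u v =>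
    continuous_const.intervalIntegrable u v
  -- area of K
  have hK : I1 + I2 - wid A f * wid A g ≤ (volume (pairIm A f g)).toReal := by
    have h1 := area_ge hA hc hne i1 j1
    have h2 : ∫ x in (low f A)..(-low (-f) A), (-env A f (-g) x - env A f g x)
        = I1 + I2 - wid A f * wid A g := by
      have hjn : IntervalIntegrable (fun x => -env A f (-g) x) volume (low f A)
        (-low (-f) A) := j1.neg
      rw [hI1d, hI2d, intervalIntegral.integral_sub (cc _ _ _) i1,
        intervalIntegral.integral_sub (cc _ _ _) j1,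
        intervalIntegral.integral_sub hjn i1]
      simp only [intervalIntegral.integral_const, smul_eq_mul, intervalIntegral.integral_neg]
      rw [← ef, ← eg]; ring
    rw [h2] at h1
    exact (ENNReal.ofReal_le_iff_le_toReal (hfin f g)).mp h1
  -- area of L
  have j3' : IntervalIntegrable (fun t => len A (-g) h (-t)) volume (low g A)
      (-low (-g) A) := by
    have := (IntervalIntegrable.iff_comp_neg (f := len A (-g) h)
      (a := low (-g) A) (b := -low g A)).mp j3
    rw [neg_neg] at this
    exact this.symm
  have hL : J1 + J2 - wid A g * wid A h ≤ (volume (pairIm A g h)).toReal := by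
    have h1 := area_ge' hA hc hne i3 j3'
    have h3 : ∫ t in (low g A)..(-low (-g) A), len A (-g) h (-t) = J2 := by
      rw [intervalIntegral.integral_comp_neg, neg_neg]
    have h2 : ∫ t in (low g A)..(-low (-g) A),
        (len A g h t + len A (-g) h (-t) - wid A h) = J1 + J2 - wid A g * wid A h := by
      rw [intervalIntegral.integral_sub (i3.add j3') (cc _ _ _),
        intervalIntegral.integral_add i3 j3', h3]
      simp only [intervalIntegral.integral_const, smul_eq_mul]
      rw [← hJ1d, eg]
    rw [h2] at h1
    exact (ENNReal.ofReal_le_iff_le_toReal (hfin g h)).mp h1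
  -- area of C
  have hC : (volume (pairIm A f h)).toReal ≤ E1 + E2 - wid A f * wid A h := by
    have h1 := area_le (g := g) hA hc hne i2 j2
    have h2 : ∫ x in (low f A)..(-low (-f) A),
        (len A g h (env A f g x) + len A (-g) h (env A f (-g) x) - wid A h)
        = E1 + E2 - wid A f * wid A h := by
      rw [intervalIntegral.integral_sub (i2.add j2) (cc _ _ _),
        intervalIntegral.integral_add i2 j2]
      simp only [intervalIntegral.integral_const, smul_eq_mul]
      rw [← hE1d, ← hE2d, ef]
    rw [h2] at h1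
    have hnn : 0 ≤ E1 + E2 - wid A f * wid A h := by
      rw [← h2]
      apply intervalIntegral.integral_nonneg efle
      intro x hx
      exact comp_len_nonneg hA hc hne h hx
    exact ENNReal.toReal_le_of_le_ofReal hnn h1
  have t1 := mul_le_mul_of_nonneg_left hC hg.le
  have t2 := mul_le_mul_of_nonneg_left hK hh.le
  have t3 := mul_le_mul_of_nonneg_left hL hf.le
  nlinarith [s1, s2, t1, t2, t3]

end R750.PA
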