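import Pool.Agent.R750.PADefs
import Pool.Agent.R750.PATriple

namespace R750.PA

open Set MeasureTheory Matrix

/-! ### Eigenvalues -/

theorem atMostOne_of {n : ℕ} {M : Matrix (Fin n) (Fin n) ℝ} (hM : M.IsHermitian)
    (l : Fin n → ℝ) (k : ℝ) (hk : 0 < k) (hq : ∀ x, k * (x ⬝ᵥ (M *ᵥ x)) ≤ (l ⬝ᵥ x) ^ 2) :
    AtMostOnePosEigenvalue M := by
  refine ⟨hM, ?_⟩
  by_contra hcon
  push Not at hcon
  obtain ⟨i, hi, j, hj, hij⟩ := Finset.one_lt_card.mp hcon
  simp only [Finset.mem_filter, Finset.mem_univ, true_and] at hi hj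
  set u : Fin n → ℝ := ⇑(hM.eigenvectorBasis i) with hu
  set v : Fin n → ℝ := ⇑(hM.eigenvectorBasis j) with hv
  have hMu : M *ᵥ u = hM.eigenvalues i • u := hM.mulVec_eigenvectorBasis i
  have hMv : M *ᵥ v = hM.eigenvalues j • v := hM.mulVec_eigenvectorBasis j
  have horth := hM.eigenvectorBasis.orthonormal
  have huu : u ⬝ᵥ u = 1 := by
    have h := (orthonormal_iff_ite.mp horth) i i
    rw [EuclideanSpace.inner_eq_star_dotProduct] at h
    simpa using! h
  have hvv : v ⬝ᵥ v = 1 := by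
    have h := (orthonormal_iff_ite.mp horth) j j
    rw [EuclideanSpace.inner_eq_star_dotProduct] at h
    simpa using! h
  have huv : u ⬝ᵥ v = 0 := by
    have h := (orthonormal_iff_ite.mp horth) j i
    rw [EuclideanSpace.inner_eq_star_dotProduct, if_neg (Ne.symm hij)] at h
    simpa using! h
  have hvu : v ⬝ᵥ u = 0 := by rw [dotProduct_comm]; exact huv
  set a := l ⬝ᵥ u with ha
  set b := l ⬝ᵥ v with hb
  have h1 := hq (b • u - a • v)
  have e1 : l ⬝ᵥ (b • u - a • v) = 0 := by
    rw [dotProduct_sub, dotProduct_smul, dotProduct_smul, ← ha, ← hb]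
    simp only [smul_eq_mul]; ring
  have e2 : (b • u - a • v) ⬝ᵥ (M *ᵥ (b • u - a • v))
      = b ^ 2 * hM.eigenvalues i + a ^ 2 * hM.eigenvalues j := by
    rw [mulVec_sub, mulVec_smul, mulVec_smul, hMu, hMv]
    simp only [dotProduct_sub, sub_dotProduct, dotProduct_smul, smul_dotProduct, smul_eq_mul,
      huu, hvv, huv, hvu]
    ring
  rw [e1, e2] at h1
  have h2 := hq u
  have e3 : u ⬝ᵥ (M *ᵥ u) = hM.eigenvalues i := by
    rw [hMu, dotProduct_smul, huu]; simp
  rw [e3, ← ha] at h2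
  have h3 : b ^ 2 * hM.eigenvalues i + a ^ 2 * hM.eigenvalues j ≤ 0 := by
    nlinarith
  have h4 : 0 ≤ b ^ 2 * hM.eigenvalues i := by positivity
  have h5 : a ^ 2 * hM.eigenvalues j ≤ 0 := by linarith
  have h6 : a ^ 2 ≤ 0 := by
    by_contra hcon2
    push Not at hcon2
    nlinarith [mul_pos hcon2 hj]
  nlinarith [mul_pos hk hi]

/-! ### The pentagon -/

theorem path_form (a b c d : ℝ) :
    42 * (2 * (2 * a * b + 5 * a * c + 5 * a * d + 2 * b * c + 5 * b * d + 2 * c * d))
      ≤ (12 * a + 9 * b + 9 * c + 12 * d) ^ 2 := by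
  nlinarith [sq_nonneg (24 * a + 4 * b - 17 * c - 11 * d), sq_nonneg (11 * b + 2 * c - 13 * d),
    sq_nonneg (c - d)]

theorem Qmat_herm (q : Fin 5 → Fin 5 → ℝ) : (Qmat q).IsHermitian := by
  apply Matrix.IsHermitian.ext
  intro i j
  simp only [Qmat, star_trivial]
  rcases lt_trichotomy i j with h | h | h
  · rw [if_neg (not_lt.mpr h.le), if_pos h, if_pos h]
  · subst h; simp
  · rw [if_pos h, if_neg (not_lt.mpr h.le), if_pos h]

/-- the entries of the matrix of `pent`, as natural numbers -/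
def pz (i j : Fin 5) : ℕ := if i = j then 0 else if j = i + 1 ∨ i = j + 1 then 2 else 5

theorem Qmat_pent (i j : Fin 5) : Qmat pent i j = (pz i j : ℝ) := by
  unfold Qmat pent pz
  rcases lt_trichotomy i j with h | h | h
  · rw [if_pos h, if_neg h.ne]
    split_ifs <;> norm_num
  · subst h; simp
  · rw [if_neg (not_lt.mpr h.le), if_pos h, if_neg h.ne']
    by_cases h1 : i = j + 1 ∨ j = i + 1
    · rw [if_pos h1, if_pos (Or.symm h1)]; norm_num
    · rw [if_neg h1, if_neg (fun h2 => h1 (Or.symm h2))]; norm_num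

theorem entries0 : ∀ a b : Fin 4, pz (((0 : Fin 5)).succAbove a) (((0 : Fin 5)).succAbove b)
    = (!![0, 2, 5, 5; 2, 0, 2, 5; 5, 2, 0, 2; 5, 5, 2, 0] : Matrix (Fin 4) (Fin 4) ℕ) a b := by decide

theorem entries1 : ∀ a b : Fin 4, pz (((1 : Fin 5)).succAbove a) (((1 : Fin 5)).succAbove b)
    = (!![0, 5, 5, 2; 5, 0, 2, 5; 5, 2, 0, 2; 2, 5, 2, 0] : Matrix (Fin 4) (Fin 4) ℕ) a b := by decide

theorem entries2 : ∀ a b : Fin 4, pz (((2 : Fin 5)).succAbove a) (((2 : Fin 5)).succAbove b)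
    = (!![0, 2, 5, 2; 2, 0, 5, 5; 5, 5, 0, 2; 2, 5, 2, 0] : Matrix (Fin 4) (Fin 4) ℕ) a b := by decide

theorem entries3 : ∀ a b : Fin 4, pz (((3 : Fin 5)).succAbove a) (((3 : Fin 5)).succAbove b)
    = (!![0, 2, 5, 2; 2, 0, 2, 5; 5, 2, 0, 5; 2, 5, 5, 0] : Matrix (Fin 4) (Fin 4) ℕ) a b := by decide

theorem entries4 : ∀ a b : Fin 4, pz (((4 : Fin 5)).succAbove a) (((4 : Fin 5)).succAbove b)
    = (!![0, 2, 5, 5; 2, 0, 2, 5; 5, 2, 0, 2; 5, 5, 2, 0] : Matrix (Fin 4) (Fin 4) ℕ) a b := by decide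

theorem pent_cond (m : Fin 5) :
    AtMostOnePosEigenvalue ((Qmat pent).submatrix m.succAbove m.succAbove) := by
  have hherm : ((Qmat pent).submatrix m.succAbove m.succAbove).IsHermitian :=
    (Qmat_herm pent).submatrix _
  obtain rfl | hm0 := eq_or_ne m 0
  · apply atMostOne_of hherm ![12, 9, 9, 12] 42 (by norm_num)
    intro x
    have := path_form (x 0) (x 1) (x 2) (x 3)
    simp only [dotProduct, mulVec, Fin.sum_univ_four, submatrix_apply, Qmat_pent, entries0]
    simp
    nlinarith [this]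
  obtain rfl | hm1 := eq_or_ne m 1
  · apply atMostOne_of hherm ![12, 12, 9, 9] 42 (by norm_num)
    intro x
    have := path_form (x 1) (x 2) (x 3) (x 0)
    simp only [dotProduct, mulVec, Fin.sum_univ_four, submatrix_apply, Qmat_pent, entries1]
    simp
    nlinarith [this]
  obtain rfl | hm2 := eq_or_ne m 2
  · apply atMostOne_of hherm ![9, 12, 12, 9] 42 (by norm_num)
    intro x
    have := path_form (x 2) (x 3) (x 0) (x 1)
    simp only [dotProduct, mulVec, Fin.sum_univ_four, submatrix_apply, Qmat_pent, entries2]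
    simp
    nlinarith [this]
  obtain rfl | hm3 := eq_or_ne m 3
  · apply atMostOne_of hherm ![9, 9, 12, 12] 42 (by norm_num)
    intro x
    have := path_form (x 3) (x 0) (x 1) (x 2)
    simp only [dotProduct, mulVec, Fin.sum_univ_four, submatrix_apply, Qmat_pent, entries3]
    simp
    nlinarith [this]
  obtain rfl | hm4 := eq_or_ne m 4
  · apply atMostOne_of hherm ![12, 9, 9, 12] 42 (by norm_num)
    intro x
    have := path_form (x 0) (x 1) (x 2) (x 3)
    simp only [dotProduct, mulVec, Fin.sum_univ_four, submatrix_apply, Qmat_pent, entries4]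
    simp
    nlinarith [this]
  exfalso
  revert hm0 hm1 hm2 hm3 hm4
  clear hherm
  revert m; decide

/-! ### Non-realizability -/

/-- the coordinate functionals -/
noncomputable def co (i : Fin 5) : E5 →L[ℝ] ℝ := EuclideanSpace.proj i

theorem pairIm_co (A : Set E5) (i j : Fin 5) : pairIm A (co i) (co j) = coordProj i j '' A := rfl

theorem pairIm_swap {E : Type*} [AddCommGroup E] [Module ℝ E] [TopologicalSpace E]
    {A : Set E} {f g : E →L[ℝ] ℝ} (hc : IsCompact A) :
    volume (pairIm A g f) = volume (pairIm A f g) := by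
  have e : pairIm A g f = Prod.swap ⁻¹' pairIm A f g := by
    ext ⟨x, y⟩
    simp only [pairIm, mem_preimage, Prod.swap_prod_mk, mem_image, Prod.mk.injEq]
    constructor
    · rintro ⟨a, ha, h1, h2⟩; exact ⟨a, ha, h2, h1⟩
    · rintro ⟨a, ha, h1, h2⟩; exact ⟨a, ha, h2, h1⟩
  rw [e, Measure.volume_eq_prod]
  exact Measure.measurePreserving_swap.measure_preimage (pairIm_meas hc).nullMeasurableSet

theorem wid_pos {E : Type*} [AddCommGroup E] [Module ℝ E] [TopologicalSpace E]
    {A : Set E} {f g : E →L[ℝ] ℝ} (hc : IsCompact A) (h : volume (pairIm A f g) ≠ 0) :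
    0 < wid A f := by
  by_contra hcon
  push Not at hcon
  apply h
  have hsub : pairIm A f g ⊆ Icc (low f A) (-low (-f) A) ×ˢ Icc (low g A) (-low (-g) A) := by
    rintro _ ⟨a, ha, rfl⟩
    exact ⟨mem_Icc_of_mem hc ha, mem_Icc_of_mem hc ha⟩
  refine measure_mono_null hsub ?_
  rw [Measure.volume_eq_prod, Measure.prod_prod, Real.volume_Icc]
  have : ENNReal.ofReal (-low (-f) A - low f A) = 0 := ENNReal.ofReal_of_nonpos hcon
  rw [this, zero_mul]

theorem nn1 : ∀ i : Fin 5, i ≠ i + 2 := by decide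
theorem nn2 : ∀ i : Fin 5, i ≠ i + 1 := by decide
theorem nn3 : ∀ i : Fin 5, i + 1 ≠ i + 2 := by decide
theorem nn4 : ∀ i : Fin 5, ¬ (i + 2 = i + 1 ∨ i = i + 2 + 1) := by decide
theorem nn5 : ∀ i : Fin 5, i + 2 = i + 1 + 1 := by decide

theorem pent_not_realizable : ¬ Realizable pent := by
  rintro ⟨A, hne, hc, hA, hq⟩
  have hvol : ∀ i j, i ≠ j → (volume (pairIm A (co i) (co j))) = ENNReal.ofReal (pent i j) := by
    intro i j hij
    rcases lt_or_gt_of_ne hij with h | h
    · rw [pairIm_co]; exact hq i j h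
    · rw [pairIm_swap hc, pairIm_co, hq j i h]
      congr 1
      simp only [pent]
      congr 1
      exact propext or_comm
  have hpos : ∀ i j, 0 < pent i j := by
    intro i j; unfold pent; split_ifs <;> norm_num
  have hw : ∀ i, 0 < wid A (co i) := by
    intro i
    have hne' : i ≠ i + 1 := by revert i; decide
    apply wid_pos (g := co (i + 1)) hc
    rw [hvol i (i + 1) hne']
    simp only [ne_eq, ENNReal.ofReal_eq_zero, not_le]
    exact hpos _ _
  have htr : ∀ i j : Fin 5, i ≠ j → (volume (pairIm A (co i) (co j))).toReal = pent i j := by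
    intro i j hij
    rw [hvol i j hij, ENNReal.toReal_ofReal (hpos i j).le]
  have key : ∀ i : Fin 5, wid A (co (i + 1)) * 5 ≤
      (31 / 25) * (wid A (co (i + 2)) * 2 + wid A (co i) * 2) := by
    intro i
    have h := triple (f := co i) (g := co (i + 1)) (h := co (i + 2)) hA hc hne
      (hw i) (hw (i + 1)) (hw (i + 2))
    have n1 := nn1 i
    have n2 := nn2 i
    have n3 := nn3 i
    rw [htr _ _ n1, htr _ _ n2, htr _ _ n3] at h
    have p1 : pent i (i + 2) = 5 := by
      unfold pent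
      rw [if_neg (nn4 i)]
    have p2 : pent i (i + 1) = 2 := by
      unfold pent
      rw [if_pos (Or.inl rfl)]
    have p3 : pent (i + 1) (i + 2) = 2 := by
      unfold pent
      rw [if_pos (Or.inl (nn5 i))]
    rw [p1, p2, p3] at h
    exact h
  have k0 := key 0
  have k1 := key 1
  have k2 := key 2
  have k3 := key 3
  have k4 := key 4
  simp only [show (0 : Fin 5) + 1 = 1 from rfl, show (0 : Fin 5) + 2 = 2 from rfl,
    show (1 : Fin 5) + 1 = 2 from rfl, show (1 : Fin 5) + 2 = 3 from rfl,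
    show (2 : Fin 5) + 1 = 3 from rfl, show (2 : Fin 5) + 2 = 4 from rfl,
    show (3 : Fin 5) + 1 = 4 from rfl, show (3 : Fin 5) + 2 = 0 from rfl,
    show (4 : Fin 5) + 1 = 0 from rfl, show (4 : Fin 5) + 2 = 1 from rfl] at k0 k1 k2 k3 k4
  have w0 := hw 0
  have w1 := hw 1
  have w2 := hw 2
  have w3 := hw 3
  have w4 := hw 4
  linarith

end R750.PA
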