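import Pool.Agent.R750.PAOneSided

namespace R750.PA

open Set MeasureTheory intervalIntegral

theorem convexOn_comp_affine {G : ℝ → ℝ} {S : Set ℝ} (hG : ConvexOn ℝ S G) (c l : ℝ)
    (hS : ∀ u ∈ Icc (0 : ℝ) 1, c + l * u ∈ S) :
    ConvexOn ℝ (Icc 0 1) (fun u => G (c + l * u)) := by
  refine ⟨convex_Icc 0 1, fun x hx y hy a b ha hb hab => ?_⟩
  have h := hG.2 (hS x hx) (hS y hy) ha hb hab
  have e : a • (c + l * x) + b • (c + l * y) = c + l * (a • x + b • y) := by
    simp only [smul_eq_mul]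
    have : a = 1 - b := by linarith
    subst this; ring
  rw [e] at h
  exact h

theorem concaveOn_comp_affine {G : ℝ → ℝ} {S : Set ℝ} (hG : ConcaveOn ℝ S G) (c l : ℝ)
    (hS : ∀ u ∈ Icc (0 : ℝ) 1, c + l * u ∈ S) :
    ConcaveOn ℝ (Icc 0 1) (fun u => G (c + l * u)) := by
  have h := convexOn_comp_affine hG.neg c l hS
  have h2 := h.neg
  have e : (-fun u => (-G) (c + l * u)) = fun u => G (c + l * u) := by
    funext u; simp
  rw [e] at h2
  exact h2

theorem side {c q m M : ℝ} (hcq : c ≤ q) (hmM : m < M) {G R : ℝ → ℝ}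
    (hG : ConvexOn ℝ (Icc c q) G) (hGc : G c = m) (hGr : ∀ x ∈ Icc c q, G x ∈ Icc m M)
    (hR : ConcaveOn ℝ (Icc m M) R) (hRa : AntitoneOn R (Icc m M)) (hRM : 0 ≤ R M) :
    (M - m) ^ 2 * ∫ x in c..q, R (G x) ≤
      2 * (∫ t in m..M, R t) * ∫ x in c..q, (M - G x) := by
  rcases eq_or_lt_of_le hcq with rfl | hcq
  · simp
  set w := M - m with hw
  set l := q - c with hl
  have hw0 : 0 < w := by rw [hw]; linarith
  have hl0 : 0 < l := by rw [hl]; linarith
  have ecl : c + l = q := by rw [hl]; ring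
  have emw : m + w = M := by rw [hw]; ring
  have hmapx : ∀ u ∈ Icc (0 : ℝ) 1, c + l * u ∈ Icc c q := fun u hu =>
    ⟨by nlinarith [hu.1], by nlinarith [hu.1, hu.2]⟩
  have hmapt : ∀ u ∈ Icc (0 : ℝ) 1, m + w * u ∈ Icc m M := fun u hu =>
    ⟨by nlinarith [hu.1], by nlinarith [hu.1, hu.2]⟩
  set R' : ℝ → ℝ := fun t => R (m + w * t) with hR'
  set G' : ℝ → ℝ := fun u => w⁻¹ * (G (c + l * u) - m) with hG'
  have hR'c : ConcaveOn ℝ (Icc 0 1) R' := concaveOn_comp_affine hR m w hmapt
  have hR'a : AntitoneOn R' (Icc 0 1) := fun x hx y hy hxy =>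
    hRa (hmapt x hx) (hmapt y hy) (by nlinarith)
  have hR'1 : 0 ≤ R' 1 := by
    have : m + w * 1 = M := by rw [hw]; ring
    simp only [hR', this]; exact hRM
  have hG'c : ConvexOn ℝ (Icc 0 1) G' := by
    have h1 := convexOn_comp_affine hG c l hmapx
    have h2 := (h1.add_const (-m)).smul (inv_nonneg.mpr hw0.le)
    refine h2.congr fun u _ => ?_
    simp only [hG', Pi.add_apply, smul_eq_mul]
    ring
  have hG'0 : G' 0 = 0 := by simp [hG', hGc]
  have hG'r : ∀ x ∈ Icc (0 : ℝ) 1, G' x ∈ Icc (0 : ℝ) 1 := by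
    intro x hx
    have h := hGr _ (hmapx x hx)
    refine ⟨mul_nonneg (inv_nonneg.mpr hw0.le) (by linarith [h.1]), ?_⟩
    simp only [hG']
    rw [inv_mul_le_iff₀ hw0]
    linarith [h.2]
  have hG'm : MonotoneOn G' (Icc 0 1) := convex_mono hG'c hG'0 fun x hx => (hG'r x hx).1
  have hmain := unit_one_sided hR'c hR'a hR'1 hG'c hG'0 hG'r
  have e1 : l * ∫ u in (0 : ℝ)..1, R' (G' u) = ∫ x in c..q, R (G x) := by
    have h := intervalIntegral.smul_integral_comp_add_mul (a := 0) (b := 1)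
      (fun x => R (G x)) l c
    rw [mul_zero, mul_one, add_zero, ecl] at h
    rw [← h, smul_eq_mul]
    congr 1
    apply intervalIntegral.integral_congr
    intro u _
    simp only [hR', hG']
    rw [mul_inv_cancel_left₀ hw0.ne', add_sub_cancel]
  have e2 : w * ∫ t in (0 : ℝ)..1, R' t = ∫ t in m..M, R t := by
    have h := intervalIntegral.smul_integral_comp_add_mul (a := 0) (b := 1) R w m
    rw [mul_zero, mul_one, add_zero, emw] at h
    rw [← h, smul_eq_mul]
  have hG'i : IntervalIntegrable G' volume 0 1 := by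
    apply MonotoneOn.intervalIntegrable; rwa [uIcc01]
  have e3 : l * w * (1 - ∫ u in (0 : ℝ)..1, G' u) = ∫ x in c..q, (M - G x) := by
    have h := intervalIntegral.smul_integral_comp_add_mul (a := 0) (b := 1)
      (fun x => M - G x) l c
    rw [mul_zero, mul_one, add_zero, ecl] at h
    rw [← h, smul_eq_mul, mul_assoc]
    congr 1
    have h1 : (1 : ℝ) - ∫ u in (0 : ℝ)..1, G' u = ∫ u in (0 : ℝ)..1, (1 - G' u) := by
      rw [intervalIntegral.integral_sub (continuous_const.intervalIntegrable _ _) hG'i]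
      simp
    rw [h1, ← intervalIntegral.integral_const_mul]
    apply intervalIntegral.integral_congr
    intro u _
    simp only [hG']
    rw [mul_sub, mul_one, mul_inv_cancel_left₀ hw0.ne', ← emw]
    ring
  calc w ^ 2 * ∫ x in c..q, R (G x)
      = (w ^ 2 * l) * ∫ u in (0 : ℝ)..1, R' (G' u) := by rw [← e1]; ring
    _ ≤ (w ^ 2 * l) * (2 * (∫ t in (0 : ℝ)..1, R' t) * (1 - ∫ u in (0 : ℝ)..1, G' u)) :=
        mul_le_mul_of_nonneg_left hmain (by positivity)
    _ = 2 * (∫ t in m..M, R t) * ∫ x in c..q, (M - G x) := by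
        rw [← e2, ← e3]; ring

theorem side' {p c m M : ℝ} (hpc : p ≤ c) (hmM : m < M) {G R : ℝ → ℝ}
    (hG : ConvexOn ℝ (Icc p c) G) (hGc : G c = m) (hGr : ∀ x ∈ Icc p c, G x ∈ Icc m M)
    (hR : ConcaveOn ℝ (Icc m M) R) (hRa : AntitoneOn R (Icc m M)) (hRM : 0 ≤ R M) :
    (M - m) ^ 2 * ∫ x in p..c, R (G x) ≤
      2 * (∫ t in m..M, R t) * ∫ x in p..c, (M - G x) := by
  have hneg : ∀ x ∈ Icc (-c) (-p), -x ∈ Icc p c := fun x hx =>
    ⟨by linarith [hx.2], by linarith [hx.1]⟩
  have hG' : ConvexOn ℝ (Icc (-c) (-p)) (fun x => G (-x)) := by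
    refine ⟨convex_Icc _ _, fun x hx y hy a b ha hb hab => ?_⟩
    have h := hG.2 (hneg x hx) (hneg y hy) ha hb hab
    have e : a • -x + b • -y = -(a • x + b • y) := by simp only [smul_eq_mul]; ring
    rw [e] at h
    exact h
  have h := side (c := -c) (q := -p) (by linarith) hmM hG' (by simp [hGc])
    (fun x hx => hGr _ (hneg x hx)) hR hRa hRM
  rw [intervalIntegral.integral_comp_neg (fun x => R (G x)),
    intervalIntegral.integral_comp_neg (fun x => M - G x)] at h
  simpa only [neg_neg] using h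

theorem mono_right {c q m M : ℝ} {G : ℝ → ℝ} (hG : ConvexOn ℝ (Icc c q) G) (hGc : G c = m)
    (hGr : ∀ x ∈ Icc c q, G x ∈ Icc m M) : MonotoneOn G (Icc c q) := by
  intro x hx y hy hxy
  rcases eq_or_lt_of_le hxy with rfl | hxy
  · exact le_rfl
  have hcy : 0 < y - c := by linarith [hx.1]
  have hcc : c ∈ Icc c q := ⟨le_rfl, hx.1.trans hx.2⟩
  have h := hG.2 hcc hy (show 0 ≤ (y - x) / (y - c) from div_nonneg (by linarith) hcy.le)
    (show 0 ≤ (x - c) / (y - c) from div_nonneg (by linarith [hx.1]) hcy.le)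
    (by field_simp; ring)
  have e : ((y - x) / (y - c)) • c + ((x - c) / (y - c)) • y = x := by
    simp only [smul_eq_mul]; field_simp; ring
  rw [e, hGc] at h
  simp only [smul_eq_mul] at h
  have h1 := (hGr y hy).1
  have h2 : (y - x) / (y - c) * m ≤ (y - x) / (y - c) * G y :=
    mul_le_mul_of_nonneg_left h1 (div_nonneg (by linarith) hcy.le)
  have h3 : (y - x) / (y - c) * G y + (x - c) / (y - c) * G y = G y := by field_simp; ring
  linarith

theorem anti_left {p c m M : ℝ} {G : ℝ → ℝ} (hG : ConvexOn ℝ (Icc p c) G) (hGc : G c = m)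
    (hGr : ∀ x ∈ Icc p c, G x ∈ Icc m M) : AntitoneOn G (Icc p c) := by
  intro x hx y hy hxy
  rcases eq_or_lt_of_le hxy with rfl | hxy
  · exact le_rfl
  have hcy : 0 < c - x := by linarith [hy.2]
  have hcc : c ∈ Icc p c := ⟨hx.1.trans hx.2, le_rfl⟩
  have h := hG.2 hx hcc (show 0 ≤ (c - y) / (c - x) from div_nonneg (by linarith [hy.2]) hcy.le)
    (show 0 ≤ (y - x) / (c - x) from div_nonneg (by linarith) hcy.le)
    (by field_simp; ring)
  have e : ((c - y) / (c - x)) • x + ((y - x) / (c - x)) • c = y := by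
    simp only [smul_eq_mul]; field_simp; ring
  rw [e, hGc] at h
  simp only [smul_eq_mul] at h
  have h1 := (hGr x hx).1
  have h2 : (y - x) / (c - x) * m ≤ (y - x) / (c - x) * G x :=
    mul_le_mul_of_nonneg_left h1 (div_nonneg (by linarith) hcy.le)
  have h3 : (c - y) / (c - x) * G x + (y - x) / (c - x) * G x = G x := by field_simp; ring
  linarith

/-- The one-sided inequality on general intervals. -/
theorem one_sided {p q c m M : ℝ} (hc : c ∈ Icc p q) (hmM : m < M) {G R : ℝ → ℝ}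
    (hG : ConvexOn ℝ (Icc p q) G) (hGc : G c = m) (hGr : ∀ x ∈ Icc p q, G x ∈ Icc m M)
    (hR : ConcaveOn ℝ (Icc m M) R) (hRa : AntitoneOn R (Icc m M)) (hRM : 0 ≤ R M) :
    IntervalIntegrable G volume p q ∧ IntervalIntegrable (fun x => R (G x)) volume p q ∧
    (M - m) ^ 2 * ∫ x in p..q, R (G x) ≤
      2 * (∫ t in m..M, R t) * ∫ x in p..q, (M - G x) := by
  have hG1 : ConvexOn ℝ (Icc p c) G := hG.subset (Icc_subset_Icc_right hc.2) (convex_Icc _ _)
  have hG2 : ConvexOn ℝ (Icc c q) G := hG.subset (Icc_subset_Icc_left hc.1) (convex_Icc _ _)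
  have hr1 : ∀ x ∈ Icc p c, G x ∈ Icc m M := fun x hx => hGr x (Icc_subset_Icc_right hc.2 hx)
  have hr2 : ∀ x ∈ Icc c q, G x ∈ Icc m M := fun x hx => hGr x (Icc_subset_Icc_left hc.1 hx)
  have hanti := anti_left hG1 hGc hr1
  have hmono := mono_right hG2 hGc hr2
  have i1 : IntervalIntegrable G volume p c := by
    apply AntitoneOn.intervalIntegrable; rwa [uIcc_of_le hc.1]
  have i2 : IntervalIntegrable G volume c q := by
    apply MonotoneOn.intervalIntegrable; rwa [uIcc_of_le hc.2]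
  have j1 : IntervalIntegrable (fun x => R (G x)) volume p c := by
    apply MonotoneOn.intervalIntegrable
    rw [uIcc_of_le hc.1]
    exact fun x hx y hy hxy => hRa (hr1 y hy) (hr1 x hx) (hanti hx hy hxy)
  have j2 : IntervalIntegrable (fun x => R (G x)) volume c q := by
    apply AntitoneOn.intervalIntegrable
    rw [uIcc_of_le hc.2]
    exact fun x hx y hy hxy => hRa (hr2 x hx) (hr2 y hy) (hmono hx hy hxy)
  refine ⟨i1.trans i2, j1.trans j2, ?_⟩
  have k1 : IntervalIntegrable (fun x => M - G x) volume p c :=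
    (continuous_const.intervalIntegrable _ _).sub i1
  have k2 : IntervalIntegrable (fun x => M - G x) volume c q :=
    (continuous_const.intervalIntegrable _ _).sub i2
  rw [← intervalIntegral.integral_add_adjacent_intervals j1 j2,
    ← intervalIntegral.integral_add_adjacent_intervals k1 k2]
  have s1 := side' hc.1 hmM hG1 hGc hr1 hR hRa hRM
  have s2 := side hc.2 hmM hG2 hGc hr2 hR hRa hRM
  nlinarith [s1, s2]

end R750.PA
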