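import Pool.Agent.R750.PAInterval

namespace R750.PA

open Set MeasureTheory intervalIntegral

variable {E : Type*} [AddCommGroup E] [Module ℝ E] [TopologicalSpace E]

/-- the minimum of a functional over a set -/
noncomputable def low (g : E →L[ℝ] ℝ) (S : Set E) : ℝ := sInf (g '' S)

theorem low_mem {g : E →L[ℝ] ℝ} {S : Set E} (hS : IsCompact S) (hne : S.Nonempty) :
    ∃ a ∈ S, g a = low g S := by
  have := (hS.image g.continuous).sInf_mem (hne.image g)
  exact this

theorem low_le {g : E →L[ℝ] ℝ} {S : Set E} (hS : IsCompact S) {a : E} (ha : a ∈ S) :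
    low g S ≤ g a :=
  csInf_le (hS.image g.continuous).bddBelow ⟨a, ha, rfl⟩

theorem low_anti {g : E →L[ℝ] ℝ} {S T : Set E} (hT : IsCompact T) (hS : IsCompact S)
    (hne : S.Nonempty) (h : S ⊆ T) : low g T ≤ low g S := by
  obtain ⟨a, ha, hga⟩ := low_mem (g := g) hS hne
  rw [← hga]
  exact low_le hT (h ha)

theorem low_union {g : E →L[ℝ] ℝ} {A S T : Set E} (hA : IsCompact A) (hS : IsCompact S)
    (hT : IsCompact T) (hSn : S.Nonempty) (hTn : T.Nonempty) (hSA : S ⊆ A) (hTA : T ⊆ A)
    (hcov : A ⊆ S ∪ T) : low g A = min (low g S) (low g T) := by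
  apply le_antisymm
  · exact le_min (low_anti hA hS hSn hSA) (low_anti hA hT hTn hTA)
  · obtain ⟨a, ha, hga⟩ := low_mem (g := g) hA (hSn.mono hSA)
    rw [← hga]
    rcases hcov ha with h | h
    · exact (min_le_left _ _).trans (low_le hS h)
    · exact (min_le_right _ _).trans (low_le hT h)

theorem low_convexOn {I : Set ℝ} (hI : Convex ℝ I) {S : ℝ → Set E}
    (hc : ∀ t ∈ I, IsCompact (S t)) (hne : ∀ t ∈ I, (S t).Nonempty)
    (hcomb : ∀ t ∈ I, ∀ t' ∈ I, ∀ a ∈ S t, ∀ b ∈ S t', ∀ l m : ℝ, 0 ≤ l → 0 ≤ m → l + m = 1 →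
      l • a + m • b ∈ S (l * t + m * t')) (g : E →L[ℝ] ℝ) :
    ConvexOn ℝ I (fun t => low g (S t)) := by
  refine ⟨hI, fun x hx y hy l m hl hm hlm => ?_⟩
  obtain ⟨a, ha, hga⟩ := low_mem (g := g) (hc x hx) (hne x hx)
  obtain ⟨b, hb, hgb⟩ := low_mem (g := g) (hc y hy) (hne y hy)
  have h1 := hcomb x hx y hy a ha b hb l m hl hm hlm
  have h2 : l • x + m • y ∈ I := hI hx hy hl hm hlm
  have h3 := low_le (g := g) (hc _ h2) (a := l • a + m • b) h1
  simp only [map_add, map_smul, hga, hgb, smul_eq_mul] at h3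
  simpa only [smul_eq_mul] using h3

/-- image of a convex compact set under a functional is the interval between the extremes -/
theorem mem_of_between {g : E →L[ℝ] ℝ} {S : Set E} (hconv : Convex ℝ S) (hS : IsCompact S)
    (hne : S.Nonempty) {y : ℝ} (h1 : low g S ≤ y) (h2 : y ≤ -low (-g) S) :
    ∃ a ∈ S, g a = y := by
  obtain ⟨a, ha, hga⟩ := low_mem (g := g) hS hne
  obtain ⟨b, hb, hgb⟩ := low_mem (g := -g) hS hne
  have hconv' : Convex ℝ (g '' S) := hconv.is_linear_image g.toLinearMap.isLinear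
  have hord := hconv'.ordConnected
  have hga' : g a ∈ g '' S := ⟨a, ha, rfl⟩
  have hgb' : g b ∈ g '' S := ⟨b, hb, rfl⟩
  have hy : y ∈ Icc (g a) (g b) := by
    refine ⟨by rw [hga]; exact h1, ?_⟩
    have : g b = -low (-g) S := by rw [← hgb]; simp
    rw [this]; exact h2
  obtain ⟨c, hc, hgc⟩ := hord.out hga' hgb' hy
  exact ⟨c, hc, hgc⟩

section slices

variable {A : Set E} {f g h : E →L[ℝ] ℝ}

/-- the slice `f = x` -/
def sl (A : Set E) (f : E →L[ℝ] ℝ) (x : ℝ) : Set E := A ∩ f ⁻¹' {x}

/-- the upper part `t ≤ g` -/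
def up (A : Set E) (g : E →L[ℝ] ℝ) (t : ℝ) : Set E := A ∩ g ⁻¹' (Ici t)

theorem sl_compact (hA : IsCompact A) (x : ℝ) : IsCompact (sl A f x) :=
  hA.inter_right (isClosed_singleton.preimage f.continuous)

theorem up_compact (hA : IsCompact A) (t : ℝ) : IsCompact (up A g t) :=
  hA.inter_right (isClosed_Ici.preimage g.continuous)

theorem sl_convex (hA : Convex ℝ A) (x : ℝ) : Convex ℝ (sl A f x) :=
  hA.inter ((convex_singleton x).is_linear_preimage f.toLinearMap.isLinear)

theorem up_convex (hA : Convex ℝ A) (t : ℝ) : Convex ℝ (up A g t) :=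
  hA.inter ((convex_Ici t).is_linear_preimage g.toLinearMap.isLinear)

theorem sl_nonempty (hA : Convex ℝ A) (hc : IsCompact A) (hne : A.Nonempty) {x : ℝ}
    (hx : x ∈ Icc (low f A) (-low (-f) A)) : (sl A f x).Nonempty := by
  obtain ⟨a, ha, hfa⟩ := mem_of_between hA hc hne hx.1 hx.2
  exact ⟨a, ha, hfa⟩

theorem up_nonempty (hc : IsCompact A) (hne : A.Nonempty) {t : ℝ}
    (ht : t ≤ -low (-g) A) : (up A g t).Nonempty := by
  obtain ⟨b, hb, hgb⟩ := low_mem (g := -g) hc hne
  refine ⟨b, hb, ?_⟩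
  have : g b = -low (-g) A := by rw [← hgb]; simp
  show t ≤ g b
  rw [this]; exact ht

/-- lower envelope of `g` over the slices of `f` -/
noncomputable def env (A : Set E) (f g : E →L[ℝ] ℝ) (x : ℝ) : ℝ := low g (sl A f x)

/-- length of the range of `h` over the part `t ≤ g` -/
noncomputable def len (A : Set E) (g h : E →L[ℝ] ℝ) (t : ℝ) : ℝ :=
  -low (-h) (up A g t) - low h (up A g t)

/-- width of `A` in the direction `h` -/
noncomputable def wid (A : Set E) (h : E →L[ℝ] ℝ) : ℝ := -low (-h) A - low h A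

theorem env_convexOn (hA : Convex ℝ A) (hc : IsCompact A) (hne : A.Nonempty) :
    ConvexOn ℝ (Icc (low f A) (-low (-f) A)) (env A f g) := by
  apply low_convexOn (convex_Icc _ _) (fun t _ => sl_compact hc t)
    (fun t ht => sl_nonempty hA hc hne ht)
  intro t _ t' _ a ha b hb l m hl hm hlm
  refine ⟨hA ha.1 hb.1 hl hm hlm, ?_⟩
  have h1 : f a = t := ha.2
  have h2 : f b = t' := hb.2
  show f (l • a + m • b) = _
  simp [h1, h2]

theorem lowup_convexOn (hA : Convex ℝ A) (hc : IsCompact A) (hne : A.Nonempty)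
    (h : E →L[ℝ] ℝ) :
    ConvexOn ℝ (Icc (low g A) (-low (-g) A)) (fun t => low h (up A g t)) := by
  apply low_convexOn (convex_Icc _ _) (fun t _ => up_compact hc t)
    (fun t ht => up_nonempty hc hne ht.2)
  intro t _ t' _ a ha b hb l m hl hm hlm
  refine ⟨hA ha.1 hb.1 hl hm hlm, ?_⟩
  have h1 : t ≤ g a := ha.2
  have h2 : t' ≤ g b := hb.2
  show _ ≤ g (l • a + m • b)
  simp only [map_add, map_smul, smul_eq_mul]
  exact add_le_add (mul_le_mul_of_nonneg_left h1 hl) (mul_le_mul_of_nonneg_left h2 hm)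

theorem len_concaveOn (hA : Convex ℝ A) (hc : IsCompact A) (hne : A.Nonempty) :
    ConcaveOn ℝ (Icc (low g A) (-low (-g) A)) (len A g h) := by
  have h1 := (lowup_convexOn (g := g) hA hc hne (-h)).neg
  have h2 := (lowup_convexOn (g := g) hA hc hne h).neg
  refine (h1.add h2).congr fun t _ => ?_
  simp only [len, Pi.add_apply, Pi.neg_apply]
  ring

theorem len_antitoneOn (hc : IsCompact A) (hne : A.Nonempty) :
    AntitoneOn (len A g h) (Icc (low g A) (-low (-g) A)) := by
  intro s hs t ht hst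
  have hsub : up A g t ⊆ up A g s := fun a ha => ⟨ha.1, le_trans hst ha.2⟩
  have h1 := low_anti (g := h) (up_compact (g := g) hc s) (up_compact hc t)
    (up_nonempty hc hne ht.2) hsub
  have h2 := low_anti (g := -h) (up_compact (g := g) hc s) (up_compact hc t)
    (up_nonempty hc hne ht.2) hsub
  unfold len
  linarith

theorem len_nonneg (hc : IsCompact A) (hne : A.Nonempty) {t : ℝ} (ht : t ≤ -low (-g) A) :
    0 ≤ len A g h t := by
  obtain ⟨a, ha⟩ := up_nonempty (g := g) hc hne ht
  have h1 := low_le (g := h) (up_compact hc t) ha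
  have h2 := low_le (g := -h) (up_compact hc t) ha
  simp only [neg_apply] at h2
  unfold len
  linarith

theorem len_le_wid (hc : IsCompact A) (hne : A.Nonempty) {t : ℝ} (ht : t ≤ -low (-g) A) :
    len A g h t ≤ wid A h := by
  have hn := up_nonempty (g := g) hc hne ht
  have h1 := low_anti (g := h) hc (up_compact (g := g) hc t) hn inter_subset_left
  have h2 := low_anti (g := -h) hc (up_compact (g := g) hc t) hn inter_subset_left
  unfold len wid
  linarith

theorem len_bot (hc : IsCompact A) : len A g h (low g A) = wid A h := by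
  have : up A g (low g A) = A := by
    apply subset_antisymm inter_subset_left
    intro a ha
    exact ⟨ha, low_le hc ha⟩
  unfold len wid
  rw [this]

theorem env_mem (hA : Convex ℝ A) (hc : IsCompact A) (hne : A.Nonempty) {x : ℝ}
    (hx : x ∈ Icc (low f A) (-low (-f) A)) :
    env A f g x ∈ Icc (low g A) (-low (-g) A) := by
  obtain ⟨a, ha, hga⟩ := low_mem (g := g) (sl_compact (f := f) hc x) (sl_nonempty hA hc hne hx)
  unfold env
  rw [← hga]
  refine ⟨low_le hc ha.1, ?_⟩
  have := low_le (g := -g) hc ha.1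
  simp only [neg_apply] at this
  linarith

theorem env_attains (hc : IsCompact A) (hne : A.Nonempty) :
    ∃ c ∈ Icc (low f A) (-low (-f) A), env A f g c = low g A := by
  obtain ⟨a, ha, hga⟩ := low_mem (g := g) hc hne
  refine ⟨f a, ⟨low_le hc ha, ?_⟩, ?_⟩
  · have := low_le (g := -f) hc ha
    simp only [neg_apply] at this
    linarith
  · apply le_antisymm
    · rw [← hga]
      exact low_le (sl_compact hc _) ⟨ha, rfl⟩
    · exact low_anti hc (sl_compact hc _) ⟨a, ha, rfl⟩ inter_subset_left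

/-- the one-sided inequality for a convex body -/
theorem body_one_sided (hA : Convex ℝ A) (hc : IsCompact A) (hne : A.Nonempty)
    (hg : 0 < wid A g) (f h : E →L[ℝ] ℝ) :
    IntervalIntegrable (env A f g) volume (low f A) (-low (-f) A) ∧
    IntervalIntegrable (fun x => len A g h (env A f g x)) volume (low f A) (-low (-f) A) ∧
    IntervalIntegrable (len A g h) volume (low g A) (-low (-g) A) ∧
    wid A g ^ 2 * ∫ x in (low f A)..(-low (-f) A), len A g h (env A f g x) ≤
      2 * (∫ t in (low g A)..(-low (-g) A), len A g h t) *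
        ∫ x in (low f A)..(-low (-f) A), (-low (-g) A - env A f g x) := by
  obtain ⟨c, hcm, hce⟩ := env_attains (f := f) (g := g) hc hne
  have hlt : low g A < -low (-g) A := by unfold wid at hg; linarith
  have hR1 := len_concaveOn (g := g) (h := h) hA hc hne
  have hR2 := len_antitoneOn (g := g) (h := h) hc hne
  have hR3 := len_nonneg (g := g) (h := h) hc hne le_rfl
  obtain ⟨i1, i2, i3⟩ := one_sided hcm hlt (env_convexOn (g := g) hA hc hne) hce
    (fun x hx => env_mem hA hc hne hx) hR1 hR2 hR3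
  refine ⟨i1, i2, ?_, i3⟩
  apply AntitoneOn.intervalIntegrable
  rwa [uIcc_of_le hlt.le]

end slices

end R750.PA
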