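import Pool.Agent.R750.PALow

namespace R750.PA

open Set MeasureTheory intervalIntegral

variable {E : Type*} [AddCommGroup E] [Module ℝ E] [TopologicalSpace E]
variable {A : Set E} {f g h : E →L[ℝ] ℝ}

/-- the joint image of a set under two functionals -/
def pairIm (A : Set E) (f g : E →L[ℝ] ℝ) : Set (ℝ × ℝ) := (fun a => (f a, g a)) '' A

theorem pairIm_compact (hc : IsCompact A) : IsCompact (pairIm A f g) :=
  hc.image (f.continuous.prodMk g.continuous)

theorem pairIm_meas (hc : IsCompact A) : MeasurableSet (pairIm A f g) :=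
  (pairIm_compact hc).measurableSet

theorem mem_Icc_of_mem (hc : IsCompact A) {a : E} (ha : a ∈ A) :
    f a ∈ Icc (low f A) (-low (-f) A) := by
  refine ⟨low_le hc ha, ?_⟩
  have := low_le (g := -f) hc ha
  simp only [neg_apply] at this
  linarith

/-- the length identity for two parts covering `A` -/
theorem cover_len {S T : Set E} (hA : IsCompact A) (hS : IsCompact S)
    (hT : IsCompact T) (hSn : S.Nonempty) (hTn : T.Nonempty) (hSA : S ⊆ A) (hTA : T ⊆ A)
    (hcov : A ⊆ S ∪ T) (h : E →L[ℝ] ℝ) :
    (-low (-h) S - low h S) + (-low (-h) T - low h T) - wid A h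
      = min (-low (-h) S) (-low (-h) T) - max (low h S) (low h T) := by
  have h1 := low_union (g := h) hA hS hT hSn hTn hSA hTA hcov
  have h2 := low_union (g := -h) hA hS hT hSn hTn hSA hTA hcov
  unfold wid
  rw [h1, h2]
  have h3 := min_add_max (low h S) (low h T)
  have h4 : -min (low (-h) S) (low (-h) T) = max (-low (-h) S) (-low (-h) T) :=
    (max_neg_neg _ _).symm
  have h5 := min_add_max (-low (-h) S) (-low (-h) T)
  rw [h4]
  linarith

/-- volume from below: region between the envelopes -/
theorem area_ge (hA : Convex ℝ A) (hc : IsCompact A) (hne : A.Nonempty)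
    (i1 : IntervalIntegrable (env A f g) volume (low f A) (-low (-f) A))
    (i2 : IntervalIntegrable (env A f (-g)) volume (low f A) (-low (-f) A)) :
    ENNReal.ofReal (∫ x in (low f A)..(-low (-f) A), (-env A f (-g) x - env A f g x))
      ≤ volume (pairIm A f g) := by
  have hle : low f A ≤ -low (-f) A := by
    obtain ⟨a, ha⟩ := hne
    exact (mem_Icc_of_mem hc ha).1.trans (mem_Icc_of_mem hc ha).2
  have hslice : ∀ x ∈ Icc (low f A) (-low (-f) A), env A f g x ≤ -env A f (-g) x := by
    intro x hx
    obtain ⟨a, ha⟩ := sl_nonempty hA hc hne hx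
    have h1 := low_le (g := g) (sl_compact hc x) ha
    have h2 := low_le (g := -g) (sl_compact hc x) ha
    simp only [neg_apply] at h2
    unfold env
    linarith
  have hint : IntegrableOn (fun x => -env A f (-g) x - env A f g x)
      (Icc (low f A) (-low (-f) A)) := by
    have := i2.neg.sub i1
    rw [intervalIntegrable_iff_integrableOn_Icc_of_le hle] at this
    exact this
  rw [Measure.volume_eq_prod, Measure.prod_apply (pairIm_meas hc),
    intervalIntegral.integral_of_le hle, ← integral_Icc_eq_integral_Ioc,
    ofReal_integral_eq_lintegral_ofReal hint]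
  · refine (setLIntegral_mono' measurableSet_Icc ?_).trans (setLIntegral_le_lintegral _ _)
    intro x hx
    have hsub : Icc (env A f g x) (-env A f (-g) x) ⊆ Prod.mk x ⁻¹' pairIm A f g := by
      intro y hy
      obtain ⟨a, ha, hga⟩ := mem_of_between (sl_convex hA x) (sl_compact hc x)
        (sl_nonempty hA hc hne hx) hy.1 hy.2
      refine ⟨a, ha.1, ?_⟩
      have hfa : f a = x := ha.2
      simp [hfa, hga]
    calc ENNReal.ofReal (-env A f (-g) x - env A f g x)
        = volume (Icc (env A f g x) (-env A f (-g) x)) := by rw [Real.volume_Icc]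
      _ ≤ _ := measure_mono hsub
  · filter_upwards [ae_restrict_mem measurableSet_Icc] with x hx
    have := hslice x hx
    simp only [Pi.zero_apply]
    linarith

theorem up_neg_nonempty (hc : IsCompact A) (hne : A.Nonempty) {t : ℝ} (ht : low g A ≤ t) :
    (up A (-g) (-t)).Nonempty := by
  apply up_nonempty hc hne
  rw [neg_neg]
  linarith

/-- volume from below: slices by `g` -/
theorem area_ge' (hA : Convex ℝ A) (hc : IsCompact A) (hne : A.Nonempty)
    (i1 : IntervalIntegrable (len A g h) volume (low g A) (-low (-g) A))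
    (i2 : IntervalIntegrable (fun t => len A (-g) h (-t)) volume (low g A) (-low (-g) A)) :
    ENNReal.ofReal (∫ t in (low g A)..(-low (-g) A),
      (len A g h t + len A (-g) h (-t) - wid A h)) ≤ volume (pairIm A g h) := by
  have hle : low g A ≤ -low (-g) A := by
    obtain ⟨a, ha⟩ := hne
    exact (mem_Icc_of_mem hc ha).1.trans (mem_Icc_of_mem hc ha).2
  have hcov : ∀ t, A ⊆ up A g t ∪ up A (-g) (-t) := by
    intro t a ha
    rcases le_total t (g a) with h1 | h1
    · exact Or.inl ⟨ha, h1⟩
    · refine Or.inr ⟨ha, ?_⟩
      show -t ≤ (-g) a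
      simp only [neg_apply]; linarith
  have hlen : ∀ t ∈ Icc (low g A) (-low (-g) A), len A g h t + len A (-g) h (-t) - wid A h
      = min (-low (-h) (up A g t)) (-low (-h) (up A (-g) (-t)))
        - max (low h (up A g t)) (low h (up A (-g) (-t))) := by
    intro t ht
    exact cover_len hc (up_compact hc t) (up_compact hc (-t)) (up_nonempty hc hne ht.2)
      (up_neg_nonempty hc hne ht.1) inter_subset_left inter_subset_left (hcov t) h
  have hnn : ∀ t ∈ Icc (low g A) (-low (-g) A),
      0 ≤ len A g h t + len A (-g) h (-t) - wid A h := by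
    intro t ht
    rw [hlen t ht]
    obtain ⟨a, ha⟩ := sl_nonempty hA hc hne ht
    have hga : g a = t := ha.2
    have ha1 : a ∈ up A g t := ⟨ha.1, le_of_eq hga.symm⟩
    have ha2 : a ∈ up A (-g) (-t) := ⟨ha.1, by
      show -t ≤ (-g) a
      simp [hga]⟩
    have b1 := low_le (g := h) (up_compact hc t) ha1
    have b2 := low_le (g := -h) (up_compact hc t) ha1
    have b3 := low_le (g := h) (up_compact hc (-t)) ha2
    have b4 := low_le (g := -h) (up_compact hc (-t)) ha2
    simp only [neg_apply] at b2 b4
    have c1 : h a ≤ min (-low (-h) (up A g t)) (-low (-h) (up A (-g) (-t))) :=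
      le_min (by linarith) (by linarith)
    have c2 : max (low h (up A g t)) (low h (up A (-g) (-t))) ≤ h a := max_le b1 b3
    linarith
  have hint : IntegrableOn (fun t => len A g h t + len A (-g) h (-t) - wid A h)
      (Icc (low g A) (-low (-g) A)) := by
    have := (i1.add i2).sub (continuous_const.intervalIntegrable (μ := volume)
      (u := fun _ : ℝ => wid A h) (low g A) (-low (-g) A))
    rw [intervalIntegrable_iff_integrableOn_Icc_of_le hle] at this
    exact this
  rw [Measure.volume_eq_prod, Measure.prod_apply (pairIm_meas hc),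
    intervalIntegral.integral_of_le hle, ← integral_Icc_eq_integral_Ioc,
    ofReal_integral_eq_lintegral_ofReal hint]
  · refine (setLIntegral_mono' measurableSet_Icc ?_).trans (setLIntegral_le_lintegral _ _)
    intro t ht
    have hsub : Icc (max (low h (up A g t)) (low h (up A (-g) (-t))))
        (min (-low (-h) (up A g t)) (-low (-h) (up A (-g) (-t))))
        ⊆ Prod.mk t ⁻¹' pairIm A g h := by
      intro z hz
      obtain ⟨a, ha, hza⟩ := mem_of_between (up_convex hA t) (up_compact hc t)
        (up_nonempty hc hne ht.2) ((le_max_left _ _).trans hz.1) (hz.2.trans (min_le_left _ _))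
      obtain ⟨b, hb, hzb⟩ := mem_of_between (up_convex hA (-t)) (up_compact hc (-t))
        (up_neg_nonempty hc hne ht.1) ((le_max_right _ _).trans hz.1)
        (hz.2.trans (min_le_right _ _))
      have hga : t ≤ g a := ha.2
      have hgb : g b ≤ t := by
        have : -t ≤ (-g) b := hb.2
        simp only [neg_apply] at this; linarith
      -- a point of the segment `[a, b]` with `g = t`
      have hconvS : Convex ℝ (A ∩ h ⁻¹' {z}) :=
        hA.inter ((convex_singleton z).is_linear_preimage h.toLinearMap.isLinear)
      have hcS : IsCompact (A ∩ h ⁻¹' {z}) :=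
        hc.inter_right (isClosed_singleton.preimage h.continuous)
      have haS : a ∈ A ∩ h ⁻¹' {z} := ⟨ha.1, hza⟩
      have hbS : b ∈ A ∩ h ⁻¹' {z} := ⟨hb.1, hzb⟩
      have e1 : low g (A ∩ h ⁻¹' {z}) ≤ t := (low_le hcS hbS).trans hgb
      have e2 : t ≤ -low (-g) (A ∩ h ⁻¹' {z}) := by
        have := low_le (g := -g) hcS haS
        simp only [neg_apply] at this
        linarith
      obtain ⟨c, hcc, hgc⟩ := mem_of_between hconvS hcS ⟨a, haS⟩ e1 e2
      refine ⟨c, hcc.1, ?_⟩
      have hhc : h c = z := hcc.2
      simp [hgc, hhc]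
    calc ENNReal.ofReal (len A g h t + len A (-g) h (-t) - wid A h)
        = volume (Icc (max (low h (up A g t)) (low h (up A (-g) (-t))))
            (min (-low (-h) (up A g t)) (-low (-h) (up A (-g) (-t))))) := by
          rw [Real.volume_Icc, hlen t ht]
      _ ≤ _ := measure_mono hsub
  · filter_upwards [ae_restrict_mem measurableSet_Icc] with t ht
    exact hnn t ht

theorem comp_len_nonneg (hA : Convex ℝ A) (hc : IsCompact A) (hne : A.Nonempty)
    (h : E →L[ℝ] ℝ) {x : ℝ} (hx : x ∈ Icc (low f A) (-low (-f) A)) :
    0 ≤ len A g h (env A f g x) + len A (-g) h (env A f (-g) x) - wid A h := by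
  have hcov : A ⊆ up A g (env A f g x) ∪ up A (-g) (env A f (-g) x) := by
    intro a ha
    obtain ⟨b, hb⟩ := sl_nonempty hA hc hne hx
    have h1 := low_le (g := g) (sl_compact hc x) hb
    have h2 := low_le (g := -g) (sl_compact hc x) hb
    simp only [neg_apply] at h2
    rcases le_total (env A f g x) (g a) with h3 | h3
    · exact Or.inl ⟨ha, h3⟩
    · refine Or.inr ⟨ha, ?_⟩
      show env A f (-g) x ≤ (-g) a
      simp only [neg_apply]
      unfold env at h3 ⊢
      linarith
  have hcl := cover_len hc (up_compact hc _) (up_compact hc _)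
    (up_nonempty hc hne (env_mem (g := g) hA hc hne hx).2)
    (up_nonempty hc hne (env_mem (g := -g) hA hc hne hx).2)
    inter_subset_left inter_subset_left hcov h
  unfold len
  rw [hcl]
  obtain ⟨a, ha⟩ := sl_nonempty hA hc hne hx
  have ha1 : a ∈ up A g (env A f g x) := ⟨ha.1, low_le (sl_compact hc x) ha⟩
  have ha2 : a ∈ up A (-g) (env A f (-g) x) := ⟨ha.1, low_le (sl_compact hc x) ha⟩
  have b1 := low_le (g := h) (up_compact hc _) ha1
  have b2 := low_le (g := -h) (up_compact hc _) ha1
  have b3 := low_le (g := h) (up_compact hc _) ha2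
  have b4 := low_le (g := -h) (up_compact hc _) ha2
  simp only [neg_apply] at b2 b4
  have c1 : h a ≤ min (-low (-h) (up A g (env A f g x)))
    (-low (-h) (up A (-g) (env A f (-g) x))) := le_min (by linarith) (by linarith)
  have c2 : max (low h (up A g (env A f g x))) (low h (up A (-g) (env A f (-g) x)))
    ≤ h a := max_le b1 b3
  linarith

/-- volume from above: the composition -/
theorem area_le (hA : Convex ℝ A) (hc : IsCompact A) (hne : A.Nonempty)
    (i1 : IntervalIntegrable (fun x => len A g h (env A f g x)) volume
      (low f A) (-low (-f) A))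
    (i2 : IntervalIntegrable (fun x => len A (-g) h (env A f (-g) x)) volume
      (low f A) (-low (-f) A)) :
    volume (pairIm A f h) ≤ ENNReal.ofReal (∫ x in (low f A)..(-low (-f) A),
      (len A g h (env A f g x) + len A (-g) h (env A f (-g) x) - wid A h)) := by
  have hle : low f A ≤ -low (-f) A := by
    obtain ⟨a, ha⟩ := hne
    exact (mem_Icc_of_mem hc ha).1.trans (mem_Icc_of_mem hc ha).2
  have hcov : ∀ x ∈ Icc (low f A) (-low (-f) A),
      A ⊆ up A g (env A f g x) ∪ up A (-g) (env A f (-g) x) := by
    intro x hx a ha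
    obtain ⟨b, hb⟩ := sl_nonempty hA hc hne hx
    have h1 := low_le (g := g) (sl_compact hc x) hb
    have h2 := low_le (g := -g) (sl_compact hc x) hb
    simp only [neg_apply] at h2
    rcases le_total (env A f g x) (g a) with h3 | h3
    · exact Or.inl ⟨ha, h3⟩
    · refine Or.inr ⟨ha, ?_⟩
      show env A f (-g) x ≤ (-g) a
      simp only [neg_apply]
      unfold env at h3 ⊢
      linarith
  have hne1 : ∀ x ∈ Icc (low f A) (-low (-f) A), (up A g (env A f g x)).Nonempty := by
    intro x hx
    exact up_nonempty hc hne (env_mem (g := g) hA hc hne hx).2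
  have hne2 : ∀ x ∈ Icc (low f A) (-low (-f) A), (up A (-g) (env A f (-g) x)).Nonempty := by
    intro x hx
    exact up_nonempty hc hne (env_mem (g := -g) hA hc hne hx).2
  have hlen : ∀ x ∈ Icc (low f A) (-low (-f) A),
      len A g h (env A f g x) + len A (-g) h (env A f (-g) x) - wid A h
      = min (-low (-h) (up A g (env A f g x))) (-low (-h) (up A (-g) (env A f (-g) x)))
        - max (low h (up A g (env A f g x))) (low h (up A (-g) (env A f (-g) x))) := by
    intro x hx
    exact cover_len hc (up_compact hc _) (up_compact hc _) (hne1 x hx)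
      (hne2 x hx) inter_subset_left inter_subset_left (hcov x hx) h
  have hmem : ∀ x, ∀ a ∈ sl A f x,
      h a ≤ min (-low (-h) (up A g (env A f g x))) (-low (-h) (up A (-g) (env A f (-g) x))) ∧
      max (low h (up A g (env A f g x))) (low h (up A (-g) (env A f (-g) x))) ≤ h a := by
    intro x a ha
    have ha1 : a ∈ up A g (env A f g x) := ⟨ha.1, low_le (sl_compact hc x) ha⟩
    have ha2 : a ∈ up A (-g) (env A f (-g) x) := ⟨ha.1, low_le (sl_compact hc x) ha⟩
    have b1 := low_le (g := h) (up_compact hc _) ha1
    have b2 := low_le (g := -h) (up_compact hc _) ha1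
    have b3 := low_le (g := h) (up_compact hc _) ha2
    have b4 := low_le (g := -h) (up_compact hc _) ha2
    simp only [neg_apply] at b2 b4
    exact ⟨le_min (by linarith) (by linarith), max_le b1 b3⟩
  have hnn : ∀ x ∈ Icc (low f A) (-low (-f) A),
      0 ≤ len A g h (env A f g x) + len A (-g) h (env A f (-g) x) - wid A h := by
    intro x hx
    rw [hlen x hx]
    obtain ⟨a, ha⟩ := sl_nonempty hA hc hne hx
    have := hmem x a ha
    linarith [this.1, this.2]
  have hint : IntegrableOn
      (fun x => len A g h (env A f g x) + len A (-g) h (env A f (-g) x) - wid A h)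
      (Icc (low f A) (-low (-f) A)) := by
    have := (i1.add i2).sub (continuous_const.intervalIntegrable (μ := volume)
      (u := fun _ : ℝ => wid A h) (low f A) (-low (-f) A))
    rw [intervalIntegrable_iff_integrableOn_Icc_of_le hle] at this
    exact this
  rw [Measure.volume_eq_prod, Measure.prod_apply (pairIm_meas hc),
    intervalIntegral.integral_of_le hle, ← integral_Icc_eq_integral_Ioc,
    ofReal_integral_eq_lintegral_ofReal hint]
  · rw [← lintegral_indicator measurableSet_Icc]
    apply lintegral_mono
    intro x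
    by_cases hx : x ∈ Icc (low f A) (-low (-f) A)
    · rw [indicator_of_mem hx]
      have hsub : Prod.mk x ⁻¹' pairIm A f h ⊆
          Icc (max (low h (up A g (env A f g x))) (low h (up A (-g) (env A f (-g) x))))
            (min (-low (-h) (up A g (env A f g x)))
              (-low (-h) (up A (-g) (env A f (-g) x)))) := by
        rintro z ⟨a, ha, haz⟩
        simp only [Prod.mk.injEq] at haz
        obtain ⟨hfa, hza⟩ := haz
        have := hmem x a ⟨ha, hfa⟩
        rw [← hza]
        exact ⟨this.2, this.1⟩
      calc volume (Prod.mk x ⁻¹' pairIm A f h) ≤ _ := measure_mono hsub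
        _ = _ := by rw [Real.volume_Icc, hlen x hx]
    · rw [indicator_of_notMem hx]
      have : Prod.mk x ⁻¹' pairIm A f h = ∅ := by
        rw [Set.eq_empty_iff_forall_notMem]
        rintro z ⟨a, ha, haz⟩
        simp only [Prod.mk.injEq] at haz
        exact hx (haz.1 ▸ mem_Icc_of_mem hc ha)
      beta_reduce
      rw [this, measure_empty]
  · filter_upwards [ae_restrict_mem measurableSet_Icc] with x hx
    exact hnn x hx

end R750.PA
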