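import Mathlib

/-!
# A one-dimensional rearrangement inequality

For a concave nonincreasing `R ≥ 0` and a convex `G` with minimum at the left end,
`∫ R (G x) ≤ 2 (∫ R) (1 - ∫ G)` on the unit interval.
-/

namespace R750.PA

open Set MeasureTheory intervalIntegral

/-- a common slope of a concave function on both sides of an interior point -/
theorem exists_supergradient {R : ℝ → ℝ} (hR : ConcaveOn ℝ (Icc 0 1) R) {t : ℝ}
    (ht0 : 0 < t) (ht1 : t < 1) :
    ∃ d : ℝ, (∀ a b, a ∈ Icc (0 : ℝ) 1 → a ≤ b → b ≤ t → d * (b - a) ≤ R b - R a) ∧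
      (∀ a b, t ≤ a → a ≤ b → b ∈ Icc (0 : ℝ) 1 → R b - R a ≤ d * (b - a)) := by
  set S : Set ℝ := (fun z => (R z - R t) / (z - t)) '' Ioc t 1 with hS
  have hne : S.Nonempty := ⟨_, ⟨1, ⟨ht1, le_rfl⟩, rfl⟩⟩
  have h01 : (0 : ℝ) ∈ Icc (0 : ℝ) 1 := ⟨le_rfl, zero_le_one⟩
  have hub : ∀ a, a ∈ Icc (0 : ℝ) 1 → a < t → ∀ r ∈ S, r ≤ (R t - R a) / (t - a) := by
    rintro a ha hat r ⟨z, hz, rfl⟩
    exact hR.slope_anti_adjacent ha ⟨ht0.le.trans hz.1.le, hz.2⟩ hat hz.1
  have hbdd : BddAbove S := ⟨_, hub 0 h01 ht0⟩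
  refine ⟨sSup S, ?_, ?_⟩
  · intro a b ha hab hbt
    rcases eq_or_lt_of_le hab with rfl | hab
    · simp
    have hpos : 0 < b - a := by linarith
    rw [← le_div_iff₀ hpos]
    rcases eq_or_lt_of_le hbt with rfl | hbt
    · exact csSup_le hne (hub a ha hab)
    · have hb : b ∈ Icc (0 : ℝ) 1 := ⟨ha.1.trans hab.le, by linarith⟩
      have h1 := csSup_le hne (hub b hb hbt)
      have h2 := hR.slope_anti_adjacent ha ⟨ht0.le, ht1.le⟩ hab hbt
      exact h1.trans h2
  · intro a b hta hab hb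
    rcases eq_or_lt_of_le hab with rfl | hab
    · simp
    have hpos : 0 < b - a := by linarith
    rw [← div_le_iff₀ hpos]
    rcases eq_or_lt_of_le hta with rfl | hta
    · exact le_csSup hbdd ⟨b, ⟨hab, hb.2⟩, rfl⟩
    · have ha : a ∈ Ioc t 1 := ⟨hta, hab.le.trans hb.2⟩
      have h1 : (R a - R t) / (a - t) ≤ sSup S := le_csSup hbdd ⟨a, ha, rfl⟩
      have h2 := hR.slope_anti_adjacent ⟨ht0.le, ht1.le⟩ hb hta hab
      exact h2.trans h1

theorem convex_le_scale {G : ℝ → ℝ} (hG : ConvexOn ℝ (Icc 0 1) G) (hG0 : G 0 = 0) {x y : ℝ}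
    (hx : 0 ≤ x) (hxy : x ≤ y) (hy0 : 0 < y) (hy : y ≤ 1) : G x ≤ x / y * G y := by
  have h := hG.2 (show (0 : ℝ) ∈ Icc (0 : ℝ) 1 from ⟨le_rfl, zero_le_one⟩)
    (show y ∈ Icc (0 : ℝ) 1 from ⟨hy0.le, hy⟩)
    (show 0 ≤ 1 - x / y by rw [sub_nonneg, div_le_one hy0]; exact hxy)
    (show 0 ≤ x / y by positivity) (by ring)
  simp only [smul_eq_mul, mul_zero, zero_add, hG0] at h
  rwa [div_mul_cancel₀ _ hy0.ne'] at h

theorem convex_mono {G : ℝ → ℝ} (hG : ConvexOn ℝ (Icc 0 1) G) (hG0 : G 0 = 0)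
    (hGn : ∀ x ∈ Icc (0 : ℝ) 1, 0 ≤ G x) : MonotoneOn G (Icc 0 1) := by
  intro x hx y hy hxy
  rcases eq_or_lt_of_le hx.1 with h | h
  · rw [← h, hG0]; exact hGn y hy
  · have hy0 : 0 < y := h.trans_le hxy
    refine (convex_le_scale hG hG0 hx.1 hxy hy0 hy.2).trans ?_
    have h1 : x / y ≤ 1 := by rw [div_le_one hy0]; exact hxy
    have := hGn y hy
    nlinarith

theorem convex_le_self {G : ℝ → ℝ} (hG : ConvexOn ℝ (Icc 0 1) G) (hG0 : G 0 = 0)
    (hG1 : G 1 ≤ 1) {x : ℝ} (hx : x ∈ Icc (0 : ℝ) 1) : G x ≤ x := by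
  have h := convex_le_scale hG hG0 hx.1 hx.2 zero_lt_one le_rfl
  rw [div_one] at h
  have := hx.1
  nlinarith

theorem uIcc01 : uIcc (0 : ℝ) 1 = Icc 0 1 := uIcc_of_le zero_le_one

theorem comp_antitone {G R : ℝ → ℝ} (hGm : MonotoneOn G (Icc 0 1))
    (hGr : ∀ x ∈ Icc (0 : ℝ) 1, G x ∈ Icc (0 : ℝ) 1) (hRa : AntitoneOn R (Icc 0 1)) :
    AntitoneOn (fun x => R (G x)) (Icc 0 1) := fun x hx y hy hxy =>
  hRa (hGr x hx) (hGr y hy) (hGm hx hy hxy)

theorem step1 {R G : ℝ → ℝ} (hR : ConcaveOn ℝ (Icc 0 1) R) (hRa : AntitoneOn R (Icc 0 1))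
    (hG : ConvexOn ℝ (Icc 0 1) G) (hG0 : G 0 = 0)
    (hGr : ∀ x ∈ Icc (0 : ℝ) 1, G x ∈ Icc (0 : ℝ) 1) {s : ℝ} (hs0 : 0 < s) (hs1 : s < 1)
    (hs : ∫ x in (0 : ℝ)..1, G x = s / 2) :
    ∫ x in (0 : ℝ)..1, R (G x) ≤ ∫ x in (0 : ℝ)..1, R (s * x) := by
  have hGm : MonotoneOn G (Icc 0 1) := convex_mono hG hG0 fun x hx => (hGr x hx).1
  have hGi : IntervalIntegrable G volume 0 1 := by
    apply MonotoneOn.intervalIntegrable; rwa [uIcc01]
  have hSr : ∀ x ∈ Icc (0 : ℝ) 1, s * x ∈ Icc (0 : ℝ) 1 := fun x hx =>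
    ⟨mul_nonneg hs0.le hx.1, by nlinarith [hx.1, hx.2]⟩
  have hSm : MonotoneOn (fun x => s * x) (Icc 0 1) := fun x _ y _ hxy =>
    mul_le_mul_of_nonneg_left hxy hs0.le
  have hRG : IntervalIntegrable (fun x => R (G x)) volume 0 1 := by
    apply AntitoneOn.intervalIntegrable; rw [uIcc01]; exact comp_antitone hGm hGr hRa
  have hRS : IntervalIntegrable (fun x => R (s * x)) volume 0 1 := by
    apply AntitoneOn.intervalIntegrable; rw [uIcc01]; exact comp_antitone hSm hSr hRa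
  have hSi : IntervalIntegrable (fun x => s * x) volume 0 1 :=
    (continuous_const.mul continuous_id).intervalIntegrable _ _
  have hintS : ∫ x in (0 : ℝ)..1, s * x = s / 2 := by
    rw [intervalIntegral.integral_const_mul, integral_id]; ring
  set T : Set ℝ := {x | x ∈ Icc (0 : ℝ) 1 ∧ G x ≤ s * x} with hT
  have h0T : (0 : ℝ) ∈ T := ⟨⟨le_rfl, zero_le_one⟩, by rw [hG0]; simp⟩
  have hTb : BddAbove T := ⟨1, fun x hx => hx.1.2⟩
  set x₀ := sSup T with hx₀
  have hx₀1 : x₀ ≤ 1 := csSup_le ⟨0, h0T⟩ fun x hx => hx.1.2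
  have hx₀0 : 0 ≤ x₀ := le_csSup hTb h0T
  have hleft : ∀ x ∈ Icc (0 : ℝ) 1, x < x₀ → G x ≤ s * x := by
    intro x hx hlt
    obtain ⟨x₁, hx₁, hlt₁⟩ := exists_lt_of_lt_csSup ⟨0, h0T⟩ hlt
    have hx₁0 : 0 < x₁ := hx.1.trans_lt hlt₁
    refine (convex_le_scale hG hG0 hx.1 hlt₁.le hx₁0 hx₁.1.2).trans ?_
    have h1 := mul_le_mul_of_nonneg_left hx₁.2 (show 0 ≤ x / x₁ by have := hx.1; positivity)
    refine h1.trans (le_of_eq ?_)
    field_simp
  have hx₀pos : 0 < x₀ := by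
    rcases eq_or_lt_of_le hx₀0 with h | h
    · exfalso
      have hpos : ∀ x ∈ Ioo (0 : ℝ) 1, 0 < G x - s * x := by
        intro x hx
        by_contra hcon
        have : x ∈ T := ⟨⟨hx.1.le, hx.2.le⟩, by linarith⟩
        have := le_csSup hTb this
        rw [← hx₀, ← h] at this
        linarith [hx.1]
      have h1 := intervalIntegral_pos_of_pos_on (hGi.sub hSi) hpos zero_lt_one
      rw [intervalIntegral.integral_sub hGi hSi, hs, hintS] at h1
      linarith
    · exact h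
  obtain ⟨d, hd1, hd2⟩ := exists_supergradient hR (t := s * x₀) (by positivity)
    (by nlinarith)
  have hpt : ∀ x ∈ Icc (0 : ℝ) 1, R (G x) ≤ R (s * x) + d * (G x - s * x) := by
    intro x hx
    rcases le_or_gt (G x) (s * x) with h | h
    · have hxx : x ≤ x₀ := le_csSup hTb ⟨hx, h⟩
      have := hd1 (G x) (s * x) (hGr x hx) h (mul_le_mul_of_nonneg_left hxx hs0.le)
      linarith
    · have hxx : x₀ ≤ x := by
        by_contra hcon
        push Not at hcon
        linarith [hleft x hx hcon]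
      have := hd2 (s * x) (G x) (mul_le_mul_of_nonneg_left hxx hs0.le) h.le (hGr x hx)
      linarith
  calc ∫ x in (0 : ℝ)..1, R (G x)
      ≤ ∫ x in (0 : ℝ)..1, (R (s * x) + d * (G x - s * x)) :=
        intervalIntegral.integral_mono_on zero_le_one hRG
          (hRS.add ((hGi.sub hSi).const_mul d)) hpt
    _ = ∫ x in (0 : ℝ)..1, R (s * x) := by
        rw [intervalIntegral.integral_add hRS ((hGi.sub hSi).const_mul d),
          intervalIntegral.integral_const_mul, intervalIntegral.integral_sub hGi hSi, hs, hintS]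
        ring

theorem step2 {R : ℝ → ℝ} (hR : ConcaveOn ℝ (Icc 0 1) R) (hRa : AntitoneOn R (Icc 0 1))
    (hR1 : 0 ≤ R 1) {s : ℝ} (hs0 : 0 < s) (hs1 : s < 1) :
    ∫ x in (0 : ℝ)..1, R (s * x) ≤ (2 - s) * ∫ x in (0 : ℝ)..1, R x := by
  have hRi : ∀ a b, a ∈ Icc (0 : ℝ) 1 → b ∈ Icc (0 : ℝ) 1 → IntervalIntegrable R volume a b := by
    intro a b ha hb
    apply AntitoneOn.intervalIntegrable
    exact hRa.mono ((convex_Icc (0 : ℝ) 1).ordConnected.uIcc_subset ha hb)
  have m0 : (0 : ℝ) ∈ Icc (0 : ℝ) 1 := ⟨le_rfl, zero_le_one⟩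
  have m1 : (1 : ℝ) ∈ Icc (0 : ℝ) 1 := ⟨zero_le_one, le_rfl⟩
  have ms : s ∈ Icc (0 : ℝ) 1 := ⟨hs0.le, hs1.le⟩
  have e1 : s * ∫ x in (0 : ℝ)..1, R (s * x) = ∫ x in (0 : ℝ)..s, R x := by
    have := intervalIntegral.smul_integral_comp_mul_left (a := 0) (b := 1) R s
    rwa [mul_zero, mul_one] at this
  have e2 : (1 - s) * ∫ x in (0 : ℝ)..1, R (s + (1 - s) * x) = ∫ x in s..1, R x := by
    have := intervalIntegral.smul_integral_comp_add_mul (a := 0) (b := 1) R (1 - s) s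
    rwa [mul_zero, mul_one, add_zero, add_sub_cancel] at this
  have e3 : ∫ x in (0 : ℝ)..1, R x = (∫ x in (0 : ℝ)..s, R x) + ∫ x in s..1, R x :=
    (intervalIntegral.integral_add_adjacent_intervals (hRi 0 s m0 ms) (hRi s 1 ms m1)).symm
  have hmaps : ∀ x ∈ Icc (0 : ℝ) 1, s + (1 - s) * x ∈ Icc (0 : ℝ) 1 := fun x hx =>
    ⟨by nlinarith [hx.1, hx.2], by nlinarith [hx.1, hx.2]⟩
  have hpt : ∀ x ∈ Icc (0 : ℝ) 1, (1 - s) * R x ≤ R (s + (1 - s) * x) := by
    intro x hx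
    have h := hR.2 m1 hx hs0.le (show 0 ≤ 1 - s by linarith) (by ring)
    simp only [smul_eq_mul, mul_one] at h
    nlinarith
  have hi2 : IntervalIntegrable (fun x => R (s + (1 - s) * x)) volume 0 1 := by
    apply AntitoneOn.intervalIntegrable
    rw [uIcc01]
    intro x hx y hy hxy
    exact hRa (hmaps x hx) (hmaps y hy) (by nlinarith)
  have h4 : (1 - s) * ∫ x in (0 : ℝ)..1, R x ≤ ∫ x in (0 : ℝ)..1, R (s + (1 - s) * x) := by
    rw [← intervalIntegral.integral_const_mul]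
    exact intervalIntegral.integral_mono_on zero_le_one ((hRi 0 1 m0 m1).const_mul _) hi2 hpt
  have h5 : (1 - s) * ((1 - s) * ∫ x in (0 : ℝ)..1, R x) ≤ ∫ x in s..1, R x := by
    rw [← e2]
    exact mul_le_mul_of_nonneg_left h4 (by linarith)
  have h6 : s * ∫ x in (0 : ℝ)..1, R (s * x) ≤ s * ((2 - s) * ∫ x in (0 : ℝ)..1, R x) := by
    rw [e1]
    nlinarith
  exact le_of_mul_le_mul_left h6 hs0

theorem unit_one_sided {R G : ℝ → ℝ} (hR : ConcaveOn ℝ (Icc 0 1) R)
    (hRa : AntitoneOn R (Icc 0 1)) (hR1 : 0 ≤ R 1)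
    (hG : ConvexOn ℝ (Icc 0 1) G) (hG0 : G 0 = 0)
    (hGr : ∀ x ∈ Icc (0 : ℝ) 1, G x ∈ Icc (0 : ℝ) 1) :
    ∫ x in (0 : ℝ)..1, R (G x) ≤ 2 * (∫ x in (0 : ℝ)..1, R x) * (1 - ∫ x in (0 : ℝ)..1, G x) := by
  have m0 : (0 : ℝ) ∈ Icc (0 : ℝ) 1 := ⟨le_rfl, zero_le_one⟩
  have m1 : (1 : ℝ) ∈ Icc (0 : ℝ) 1 := ⟨zero_le_one, le_rfl⟩
  have hGm : MonotoneOn G (Icc 0 1) := convex_mono hG hG0 fun x hx => (hGr x hx).1
  have hGi : IntervalIntegrable G volume 0 1 := by
    apply MonotoneOn.intervalIntegrable; rwa [uIcc01]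
  have hRi : IntervalIntegrable R volume 0 1 := by
    apply AntitoneOn.intervalIntegrable; rwa [uIcc01]
  have hRG : IntervalIntegrable (fun x => R (G x)) volume 0 1 := by
    apply AntitoneOn.intervalIntegrable; rw [uIcc01]; exact comp_antitone hGm hGr hRa
  set I := ∫ x in (0 : ℝ)..1, R x with hI
  set A := ∫ x in (0 : ℝ)..1, G x with hA
  have hI0 : 0 ≤ I := by
    apply intervalIntegral.integral_nonneg zero_le_one
    intro x hx
    exact hR1.trans (hRa hx m1 hx.2)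
  have hA0 : 0 ≤ A := intervalIntegral.integral_nonneg zero_le_one fun x hx => (hGr x hx).1
  have hA1 : A ≤ 1 / 2 := by
    have h1 : A ≤ ∫ x in (0 : ℝ)..1, x :=
      intervalIntegral.integral_mono_on zero_le_one hGi
        (continuous_id.intervalIntegrable _ _) fun x hx => convex_le_self hG hG0 (hGr 1 m1).2 hx
    rw [integral_id] at h1
    linarith
  rcases eq_or_lt_of_le hA0 with hAz | hApos
  · -- `A = 0`
    rw [← hAz]
    have h1 : ∫ x in (0 : ℝ)..1, R (G x) ≤ ∫ _x in (0 : ℝ)..1, R 0 :=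
      intervalIntegral.integral_mono_on zero_le_one hRG (by simp)
        fun x hx => hRa m0 (hGr x hx) (hGr x hx).1
    have hi1 : IntervalIntegrable (fun _ : ℝ => R 0) volume 0 1 :=
      continuous_const.intervalIntegrable _ _
    have hi2 : IntervalIntegrable (fun x : ℝ => R 0 * x) volume 0 1 :=
      (by fun_prop : Continuous fun x : ℝ => R 0 * x).intervalIntegrable _ _
    have h2 : ∫ x in (0 : ℝ)..1, (R 0 - R 0 * x) ≤ I := by
      apply intervalIntegral.integral_mono_on zero_le_one (hi1.sub hi2) hRi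
      intro x hx
      have h := hR.2 m0 m1 (show 0 ≤ 1 - x by linarith [hx.2]) hx.1 (by ring)
      simp only [smul_eq_mul, mul_zero, zero_add, mul_one] at h
      have := mul_nonneg hx.1 hR1
      linarith
    have h3 : ∫ x in (0 : ℝ)..1, (R 0 - R 0 * x) = R 0 / 2 := by
      rw [intervalIntegral.integral_sub hi1 hi2,
        intervalIntegral.integral_const_mul, integral_id]
      simp
      ring
    rw [h3] at h2
    simp only [intervalIntegral.integral_const, sub_zero, one_smul] at h1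
    linarith
  · by_contra hcon
    push Not at hcon
    set X := ∫ x in (0 : ℝ)..1, R (G x) with hX
    have key : ∀ ε, 0 < ε → ε < 1 → X ≤ (2 - 2 * (1 - ε) * A) * I := by
      intro ε hε0 hε1
      set G' : ℝ → ℝ := fun x => (1 - ε) * G x with hG'
      have hG'c : ConvexOn ℝ (Icc 0 1) G' := by
        have := hG.smul (show 0 ≤ 1 - ε by linarith)
        simpa [hG', smul_eq_mul] using! this
      have hG'r : ∀ x ∈ Icc (0 : ℝ) 1, G' x ∈ Icc (0 : ℝ) 1 := fun x hx =>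
        ⟨mul_nonneg (by linarith) (hGr x hx).1, by
          have h1 := (hGr x hx).1
          have h2 := (hGr x hx).2
          simp only [hG']; nlinarith⟩
      have hG'm : MonotoneOn G' (Icc 0 1) := convex_mono hG'c (by simp [hG', hG0])
        fun x hx => (hG'r x hx).1
      have hint : ∫ x in (0 : ℝ)..1, G' x = (2 * (1 - ε) * A) / 2 := by
        simp only [hG']
        rw [intervalIntegral.integral_const_mul]; ring
      have hRG' : IntervalIntegrable (fun x => R (G' x)) volume 0 1 := by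
        apply AntitoneOn.intervalIntegrable; rw [uIcc01]; exact comp_antitone hG'm hG'r hRa
      have h1 : X ≤ ∫ x in (0 : ℝ)..1, R (G' x) :=
        intervalIntegral.integral_mono_on zero_le_one hRG hRG' fun x hx =>
          hRa (hG'r x hx) (hGr x hx) (by
            have h1 := (hGr x hx).1
            simp only [hG']; nlinarith)
      have hs0 : 0 < 2 * (1 - ε) * A := by
        have : 0 < 1 - ε := by linarith
        positivity
      have hs1 : 2 * (1 - ε) * A < 1 := by nlinarith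
      have h2 := step1 hR hRa hG'c (by simp [hG', hG0]) hG'r hs0 hs1 hint
      have h3 := step2 hR hRa hR1 hs0 hs1
      exact h1.trans (h2.trans h3)
    have hc0 : 0 ≤ 2 * A * I := by positivity
    set δ := X - 2 * I * (1 - A) with hδ
    have hδ0 : 0 < δ := by rw [hδ]; linarith
    have hlim : ∀ ε, 0 < ε → ε < 1 → δ ≤ ε * (2 * A * I) := by
      intro ε h1 h2
      have := key ε h1 h2
      rw [hδ]; nlinarith
    have hε := hlim (min (1 / 2) (δ / (2 * (2 * A * I + 1)))) (by positivity)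
      ((min_le_left _ _).trans_lt (by norm_num))
    have h5 : min (1 / 2) (δ / (2 * (2 * A * I + 1))) ≤ δ / (2 * (2 * A * I + 1)) := min_le_right _ _
    have h6 : min (1 / 2) (δ / (2 * (2 * A * I + 1))) * (2 * A * I)
        ≤ δ / (2 * (2 * A * I + 1)) * (2 * A * I) := mul_le_mul_of_nonneg_right h5 hc0
    have h7 : δ / (2 * (2 * A * I + 1)) * (2 * A * I) ≤ δ / 2 := by
      rw [div_mul_eq_mul_div, div_le_div_iff₀ (by positivity) (by norm_num)]
      nlinarith
    linarith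

end R750.PA
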